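import Pool.Agent.H31.RZ.Basic

/-!
# Random hypersurfaces (MP_6e60ff_nt): small linear combinations prime to a coordinate
-/

namespace Pool.Agent.H31.RZ

open Finset Polynomial

/-- primitive vectors -/
def Prim {m : ℕ} (x : Fin m → ℤ) : Prop := Finset.univ.gcd x = 1

theorem Prim.exists_not_dvd {m : ℕ} {x : Fin m → ℤ} (h : Prim x) {p : ℕ} (hp : p.Prime) :
    ∃ i, ¬ (p : ℤ) ∣ x i := by
  by_contra hc
  push Not at hc
  have h1 : (p : ℤ) ∣ Finset.univ.gcd x := Finset.dvd_gcd fun i _ => hc i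
  rw [h] at h1
  have h2 := Int.natCast_dvd_natCast.1 (by exact_mod_cast h1 : (p : ℤ) ∣ ((1 : ℕ) : ℤ))
  exact hp.one_lt.ne' (Nat.dvd_one.1 h2)

/-- a finite set of primes, each excluding at most one residue class, leaves an element in every
interval of length `2 ^ k` (Crittenden–Vanden Eynden, in this special case) -/
theorem cve (P : Finset ℕ) (hP : ∀ p ∈ P, p.Prime) (a b : ℤ)
    (h : ∀ p ∈ P, ¬ ((p : ℤ) ∣ a ∧ (p : ℤ) ∣ b)) :
    ∃ t : ℕ, t < 2 ^ #P ∧ ∀ p ∈ P, ¬ (p : ℤ) ∣ a + t * b := by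
  classical
  by_contra hcon
  push Not at hcon
  set ζ : ℕ → ℂ := fun p => Complex.exp (2 * Real.pi * Complex.I / p) with hζ
  have hprim : ∀ p ∈ P, IsPrimitiveRoot (ζ p) p := fun p hp =>
    Complex.isPrimitiveRoot_exp p (hP p hp).ne_zero
  have hζ0 : ∀ p, ζ p ≠ 0 := fun p => Complex.exp_ne_zero _
  set F : ℕ → ℂ := fun t => ∏ p ∈ P, (1 + -(ζ p ^ a * (ζ p ^ b) ^ t)) with hF
  have hF0 : ∀ t : ℕ, F t = 0 ↔ ∃ p ∈ P, (p : ℤ) ∣ a + t * b := by
    intro t
    rw [hF, Finset.prod_eq_zero_iff]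
    have key : ∀ p ∈ P, (1 + -(ζ p ^ a * (ζ p ^ b) ^ t) = 0 ↔ (p : ℤ) ∣ a + t * b) := by
      intro p hp
      rw [← (hprim p hp).zpow_eq_one_iff_dvd, zpow_add₀ (hζ0 p), mul_comm (t : ℤ) b, zpow_mul,
        zpow_natCast, ← sub_eq_add_neg, sub_eq_zero]
      exact eq_comm
    constructor
    · rintro ⟨p, hp, h1⟩
      exact ⟨p, hp, (key p hp).1 h1⟩
    · rintro ⟨p, hp, h1⟩
      exact ⟨p, hp, (key p hp).2 h1⟩
  set c : Finset ℕ → ℂ := fun S => ∏ p ∈ S, -(ζ p ^ a) with hc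
  set θ : Finset ℕ → ℂ := fun S => ∏ p ∈ S, ζ p ^ b with hθ
  have hFs : ∀ t, F t = ∑ S ∈ P.powerset, c S * θ S ^ t := by
    intro t
    rw [hF]
    simp only
    rw [Finset.prod_one_add]
    refine Finset.sum_congr rfl fun S _ => ?_
    rw [hc, hθ]
    simp only
    rw [← Finset.prod_pow, ← Finset.prod_mul_distrib]
    refine Finset.prod_congr rfl fun p _ => ?_
    ring
  set q : ℂ[X] := ∏ S ∈ P.powerset, (X - C (θ S)) with hq
  have hqm : q.Monic := monic_prod_of_monic _ _ fun S _ => monic_X_sub_C _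
  have hqd : q.natDegree = 2 ^ #P := by
    rw [hq, natDegree_prod_of_monic _ _ fun S _ => monic_X_sub_C _]
    simp
  have hq0 : ∀ S ∈ P.powerset, q.eval (θ S) = 0 := by
    intro S hS
    rw [hq, eval_prod]
    exact Finset.prod_eq_zero hS (by simp)
  -- a good value
  set t₀ : ℕ := ∏ p ∈ P.filter (fun p : ℕ => ¬ (p : ℤ) ∣ a), p with ht₀
  have hgood : F t₀ ≠ 0 := by
    rw [Ne, hF0]
    rintro ⟨p, hp, hdvd⟩
    have hpp : Prime (p : ℤ) := Nat.prime_iff_prime_int.1 (hP p hp)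
    by_cases hpa : (p : ℤ) ∣ a
    · have h1 : (p : ℤ) ∣ t₀ * b := (Int.dvd_add_right hpa).1 hdvd
      rcases hpp.dvd_or_dvd h1 with h2 | h2
      · have h3 : p ∣ t₀ := by exact_mod_cast h2
        rw [ht₀] at h3
        obtain ⟨p', hp', h4⟩ := (Prime.dvd_finsetProd_iff (hP p hp).prime _).1 h3
        rw [Finset.mem_filter] at hp'
        have h5 : p = p' := (Nat.prime_dvd_prime_iff_eq (hP p hp) (hP p' hp'.1)).1 h4
        exact hp'.2 (h5 ▸ hpa)
      · exact h p hp ⟨hpa, h2⟩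
    · have h1 : (p : ℤ) ∣ t₀ := by
        have : p ∣ t₀ := Finset.dvd_prod_of_mem _ (Finset.mem_filter.2 ⟨hp, hpa⟩)
        exact_mod_cast this
      exact hpa ((Int.dvd_add_left (h1.mul_right b)).1 hdvd)
  apply hgood
  set r : ℂ[X] := (X ^ t₀) %ₘ q with hr
  have hrd : r.natDegree < 2 ^ #P := by
    rw [← hqd]
    refine natDegree_modByMonic_lt _ hqm ?_
    intro h1
    have h2 : q.natDegree = 0 := by rw [h1, natDegree_one]
    rw [hqd] at h2
    exact absurd h2 (by positivity)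
  have heval : ∀ S ∈ P.powerset, θ S ^ t₀ = r.eval (θ S) := by
    intro S hS
    have h1 := modByMonic_add_div (X ^ t₀ : ℂ[X]) q
    have h2 := congrArg (eval (θ S)) h1
    rw [eval_add, eval_mul, hq0 S hS, zero_mul, add_zero, eval_pow, eval_X] at h2
    exact h2.symm
  rw [hFs]
  have h1 : ∀ S ∈ P.powerset, c S * θ S ^ t₀ =
      ∑ j ∈ Finset.range (2 ^ #P), r.coeff j * (c S * θ S ^ j) := by
    intro S hS
    rw [heval S hS, eval_eq_sum_range' hrd, Finset.mul_sum]
    exact Finset.sum_congr rfl fun j _ => by ring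
  rw [Finset.sum_congr rfl h1, Finset.sum_comm]
  refine Finset.sum_eq_zero fun j hj => ?_
  rw [← Finset.mul_sum, ← hFs, (hF0 j).2 (hcon j (Finset.mem_range.1 hj)), mul_zero]

theorem unit_vec {m : ℕ} (x : Fin m → ℤ) (hx : Prim x) (k : Fin m) (hk : x k ≠ 0) :
    ∃ v : Fin m → ℕ, v k = 0 ∧ (∀ i, v i < 2 ^ #(x k).natAbs.primeFactors) ∧
      IsCoprime (∑ i, (v i : ℤ) * x i) (x k) := by
  classical
  set P := (x k).natAbs.primeFactors with hP
  have hPp : ∀ p ∈ P, p.Prime := fun p hp => Nat.prime_of_mem_primeFactors hp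
  have key : ∀ s : Finset (Fin m), ∃ v : Fin m → ℕ, (∀ i, i ∉ s → v i = 0) ∧
      (∀ i, v i < 2 ^ #P) ∧ ∀ p ∈ P, (∃ i ∈ s, ¬ (p : ℤ) ∣ x i) →
        ¬ (p : ℤ) ∣ ∑ i ∈ s, (v i : ℤ) * x i := by
    intro s
    induction s using Finset.induction_on with
    | empty => exact ⟨fun _ => 0, fun _ _ => rfl, fun _ => by positivity, fun p _ h => by simp at h⟩
    | insert i s hi ih =>
      obtain ⟨v, hv1, hv2, hv3⟩ := ih
      set a : ℤ := ∑ i ∈ s, (v i : ℤ) * x i with ha
      obtain ⟨t, ht, htp⟩ := cve (P.filter fun p => ¬ ((p : ℤ) ∣ a ∧ (p : ℤ) ∣ x i))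
        (fun p hp => hPp p (Finset.mem_filter.1 hp).1) a (x i)
        (fun p hp => (Finset.mem_filter.1 hp).2)
      refine ⟨Function.update v i t, ?_, ?_, ?_⟩
      · intro j hj
        rw [Finset.mem_insert, not_or] at hj
        rw [Function.update_of_ne hj.1]
        exact hv1 j hj.2
      · intro j
        by_cases hji : j = i
        · subst hji
          rw [Function.update_self]
          exact ht.trans_le (Nat.pow_le_pow_right (by norm_num)
            (Finset.card_le_card (Finset.filter_subset _ _)))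
        · rw [Function.update_of_ne hji]
          exact hv2 j
      · intro p hp hex
        have h1 : ∑ j ∈ insert i s, ((Function.update v i t j : ℕ) : ℤ) * x j =
            a + t * x i := by
          rw [Finset.sum_insert hi, Function.update_self, add_comm]
          congr 1
          refine Finset.sum_congr rfl fun j hj => ?_
          rw [Function.update_of_ne]
          rintro rfl
          exact hi hj
        rw [h1]
        refine htp p (Finset.mem_filter.2 ⟨hp, ?_⟩)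
        rintro ⟨h2, h3⟩
        obtain ⟨j, hj, hjp⟩ := hex
        rcases Finset.mem_insert.1 hj with rfl | hj
        · exact hjp h3
        · exact hv3 p hp ⟨j, hj, hjp⟩ h2
  obtain ⟨v, hv1, hv2, hv3⟩ := key (Finset.univ.erase k)
  refine ⟨v, hv1 k (Finset.notMem_erase k _), hv2, ?_⟩
  have hsum : ∑ i, (v i : ℤ) * x i = ∑ i ∈ Finset.univ.erase k, (v i : ℤ) * x i := by
    rw [← Finset.add_sum_erase _ _ (Finset.mem_univ k), hv1 k (Finset.notMem_erase k _)]
    simp
  rw [hsum, Int.isCoprime_iff_gcd_eq_one]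
  by_contra hne
  obtain ⟨p, hp, hpd⟩ := Nat.exists_prime_and_dvd hne
  have h1 : (p : ℤ) ∣ ∑ i ∈ Finset.univ.erase k, (v i : ℤ) * x i :=
    (Int.natCast_dvd_natCast.2 hpd).trans (Int.gcd_dvd_left ..)
  have h2 : (p : ℤ) ∣ x k := (Int.natCast_dvd_natCast.2 hpd).trans (Int.gcd_dvd_right ..)
  have hpP : p ∈ P := by
    rw [hP, Nat.mem_primeFactors]
    exact ⟨hp, Int.natCast_dvd.1 h2, Int.natAbs_ne_zero.2 hk⟩
  obtain ⟨i, hi⟩ := hx.exists_not_dvd hp
  refine hv3 p hpP ⟨i, Finset.mem_erase.2 ⟨?_, Finset.mem_univ i⟩, hi⟩ h1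
  rintro rfl
  exact hi h2

theorem two_pow_omega {ε : ℝ} (hε : 0 < ε) : ∃ C : ℝ, 1 ≤ C ∧ ∀ q : ℕ, 1 ≤ q →
    (2 : ℝ) ^ #q.primeFactors ≤ C * (q : ℝ) ^ ε := by
  set y : ℕ := ⌈(2 : ℝ) ^ (1 / ε)⌉₊ with hy
  have hyle : ∀ p : ℕ, y ≤ p → (2 : ℝ) ≤ (p : ℝ) ^ ε := by
    intro p hp
    have h1 : (2 : ℝ) ^ (1 / ε) ≤ p := (Nat.le_ceil _).trans (by exact_mod_cast hp)
    calc (2 : ℝ) = ((2 : ℝ) ^ (1 / ε)) ^ ε := by
          rw [← Real.rpow_mul (by norm_num), one_div_mul_cancel hε.ne', Real.rpow_one]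
      _ ≤ (p : ℝ) ^ ε := Real.rpow_le_rpow (by positivity) h1 hε.le
  refine ⟨2 ^ y, one_le_pow₀ (by norm_num), fun q hq => ?_⟩
  have h1 : (2 : ℝ) ^ #q.primeFactors ≤
      ∏ p ∈ q.primeFactors, ((if p < y then 2 else 1) * (p : ℝ) ^ ε) := by
    rw [← Finset.prod_const]
    refine Finset.prod_le_prod (fun _ _ => by norm_num) fun p hp => ?_
    have hp1 : (1 : ℝ) ≤ p := by
      exact_mod_cast (Nat.prime_of_mem_primeFactors hp).one_lt.le
    split_ifs with hpy
    · have : (1 : ℝ) ≤ (p : ℝ) ^ ε := Real.one_le_rpow hp1 hε.le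
      linarith
    · rw [one_mul]
      exact hyle p (not_lt.1 hpy)
  refine h1.trans ?_
  rw [Finset.prod_mul_distrib]
  refine mul_le_mul ?_ ?_ (by positivity) (by positivity)
  · rw [← Finset.prod_filter_mul_prod_filter_not q.primeFactors (fun p => p < y)]
    rw [Finset.prod_congr rfl (g := fun _ => (2 : ℝ)) fun p hp => by
        rw [if_pos (Finset.mem_filter.1 hp).2],
      Finset.prod_congr (s₁ := Finset.filter (fun p => ¬ p < y) q.primeFactors) rfl
        (g := fun _ => (1 : ℝ)) fun p hp => by rw [if_neg (Finset.mem_filter.1 hp).2],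
      Finset.prod_const, Finset.prod_const_one, mul_one]
    refine pow_le_pow_right₀ (by norm_num) ?_
    calc #(Finset.filter (fun p => p < y) q.primeFactors) ≤ #(Finset.range y) :=
          Finset.card_le_card fun p hp => Finset.mem_range.2 (Finset.mem_filter.1 hp).2
      _ = y := Finset.card_range y
  · rw [Real.finsetProd_rpow _ _ fun i _ => by positivity]
    refine Real.rpow_le_rpow (by positivity) ?_ hε.le
    have h2 : ∏ p ∈ q.primeFactors, p ≤ q :=
      Nat.le_of_dvd hq (Nat.prod_primeFactors_dvd q)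
    calc ∏ p ∈ q.primeFactors, (p : ℝ) = ((∏ p ∈ q.primeFactors, p : ℕ) : ℝ) := by push_cast; rfl
      _ ≤ q := by exact_mod_cast h2

end Pool.Agent.H31.RZ
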