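import Pool.Agent.H31.RZ.Count

/-!
# Random hypersurfaces (MP_6e60ff_nt): zeros on lines of small height
-/

namespace Pool.Agent.H31.RZ

open Finset Matrix MvPolynomial

theorem dvd_eval_sub {σ : Type*} (f : MvPolynomial σ ℤ) (x w : σ → ℤ) (q : ℤ) :
    q ∣ eval (x + q • w) f - eval x f := by
  induction f using MvPolynomial.induction_on with
  | C a => simp
  | add p r hp hr =>
    have h := dvd_add hp hr
    rw [map_add, map_add]
    have e : eval (x + q • w) p + eval (x + q • w) r - (eval x p + eval x r) =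
        eval (x + q • w) p - eval x p + (eval (x + q • w) r - eval x r) := by ring
    rw [e]
    exact h
  | mul_X p i hp =>
    rw [map_mul, map_mul, eval_X, eval_X]
    have e : eval (x + q • w) p * (x + q • w) i - eval x p * x i =
        (eval (x + q • w) p - eval x p) * (x + q • w) i + q * (eval x p * w i) := by
      simp only [Pi.add_apply, Pi.smul_apply, smul_eq_mul]
      ring
    rw [e]
    exact dvd_add (hp.mul_right _) (dvd_mul_right _ _)

theorem line_zero {n d : ℕ} {f : MvPolynomial (Fin (n + 1)) ℤ} (hf : f.IsHomogeneous d)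
    {x a b : Fin (n + 1) → ℤ} (hx : x ≠ 0) {t u v : ℤ} (ht : t ≠ 0) (h : t • x = u • a + v • b)
    (hfx : eval x f = 0) :
    ∃ g u' v' : ℤ, g ≠ 0 ∧ t • x = g • (u' • a + v' • b) ∧ v' ∣ eval a f ∧ u' ∣ eval b f := by
  have hpos : 0 < Int.gcd u v := by
    rw [Nat.pos_iff_ne_zero]
    intro h0
    rw [Int.gcd_eq_zero_iff] at h0
    rw [h0.1, h0.2, zero_smul, zero_smul, add_zero] at h
    exact hx ((smul_eq_zero.1 h).resolve_left ht)
  obtain ⟨g, u', v', hg, hcop, hu, hv⟩ := Int.exists_gcd_one' hpos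
  have hg0 : (g : ℤ) ≠ 0 := by exact_mod_cast hg.ne'
  have hz : t • x = (g : ℤ) • (u' • a + v' • b) := by
    rw [h, hu, hv, smul_add, smul_smul, smul_smul, mul_comm u', mul_comm v']
  have hez : eval (u' • a + v' • b) f = 0 := by
    have h1 : (g : ℤ) ^ d * eval (u' • a + v' • b) f = 0 := by
      rw [← eval_smul' hf, ← hz, eval_smul' hf, hfx, mul_zero]
    exact (mul_eq_zero.1 h1).resolve_left (pow_ne_zero _ hg0)
  have hcop' : IsCoprime u' v' := Int.isCoprime_iff_gcd_eq_one.2 hcop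
  refine ⟨g, u', v', hg0, hz, ?_, ?_⟩
  · have h1 := dvd_eval_sub f (u' • a) b v'
    rw [hez, zero_sub, dvd_neg, eval_smul' hf] at h1
    exact (hcop'.symm.pow_right).dvd_of_dvd_mul_left h1
  · have h1 := dvd_eval_sub f (v' • b) a u'
    rw [add_comm (v' • b), hez, zero_sub, dvd_neg, eval_smul' hf] at h1
    exact (hcop'.pow_right).dvd_of_dvd_mul_left h1

/-- a purely formal counting lemma -/
theorem double {α β γ : Type*} (F : Finset γ) (Y : Finset β) (P : β → Finset α)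
    (Z : β → α → Finset γ) {h A K : ℝ} (hh : 0 ≤ h) (hA : 0 ≤ A) (w : β → ℝ)
    (hZ : ∀ y ∈ Y, ∀ p ∈ P y, (#(Z y p) : ℝ) * h ≤ A * w y)
    (hK : ∀ y ∈ Y, (#(P y) : ℝ) * w y ≤ K) (hF : ∀ f ∈ F, ∃ y ∈ Y, ∃ p ∈ P y, f ∈ Z y p) :
    (#F : ℝ) * h ≤ A * (K * #Y) := by
  classical
  have hsub : F ⊆ Y.biUnion fun y => (P y).biUnion (Z y) := by
    intro f hf
    obtain ⟨y, hy, p, hp, hfp⟩ := hF f hf
    exact Finset.mem_biUnion.2 ⟨y, hy, Finset.mem_biUnion.2 ⟨p, hp, hfp⟩⟩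
  have h1 : (#F : ℝ) ≤ ∑ y ∈ Y, ∑ p ∈ P y, (#(Z y p) : ℝ) := by
    have h2 : #F ≤ ∑ y ∈ Y, ∑ p ∈ P y, #(Z y p) :=
      (Finset.card_le_card hsub).trans (Finset.card_biUnion_le.trans
        (Finset.sum_le_sum fun y _ => Finset.card_biUnion_le))
    exact_mod_cast h2
  calc (#F : ℝ) * h ≤ (∑ y ∈ Y, ∑ p ∈ P y, (#(Z y p) : ℝ)) * h :=
        mul_le_mul_of_nonneg_right h1 hh
    _ = ∑ y ∈ Y, ∑ p ∈ P y, (#(Z y p) : ℝ) * h := by
        rw [Finset.sum_mul]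
        exact Finset.sum_congr rfl fun y _ => by rw [Finset.sum_mul]
    _ ≤ ∑ y ∈ Y, ∑ p ∈ P y, A * w y :=
        Finset.sum_le_sum fun y hy => Finset.sum_le_sum fun p hp => hZ y hy p hp
    _ = ∑ y ∈ Y, A * ((#(P y) : ℝ) * w y) := by
        refine Finset.sum_congr rfl fun y _ => ?_
        rw [Finset.sum_const, nsmul_eq_mul]
        ring
    _ ≤ ∑ y ∈ Y, A * K :=
        Finset.sum_le_sum fun y hy => mul_le_mul_of_nonneg_left (hK y hy) hA
    _ = A * (K * #Y) := by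
        rw [Finset.sum_const, nsmul_eq_mul]
        ring

/-- forms with a zero on a line of small height, but without zeros of small height -/
theorem catB {n : ℕ} {d : ℕ} (hd : n + 1 < d) {ε : ℝ} (hε : 0 < ε) {T : ℕ} (hT : 1 ≤ T) :
    ∃ C : ℝ, 1 ≤ C ∧ ∀ H : ℕ, 1 ≤ H → ∀ s : ℕ, s + 1 = n → ∀ W : ℕ, 1 ≤ W → W ≤ H →
    (({f : MvPolynomial (Fin (n + 1)) ℤ | f ∈ FF n d H ∧
      (∀ a : Fin (n + 1) → ℤ, a ≠ 0 → nm a ≤ CP n * (T * W) → eval a f ≠ 0) ∧
      ∃ x : Fin (n + 1) → ℤ, Prim x ∧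
      (∃ y : Fin s → Fin (n + 1) → ℤ, Dat n H x y ∧ om y ≤ T * W) ∧
      eval x f = 0} : Set _).ncard : ℝ) * (H : ℝ) ^ (1 + d) ≤
      C * EE n d H * (H : ℝ) ^ ε * ((H : ℝ) ^ 2 * ((W : ℝ) ^ (n + 1) * (W : ℝ) ^ ε)) := by
  classical
  rcases Nat.lt_or_ge n 1 with hn0 | hn
  · refine ⟨1, le_rfl, fun H _ s hs => ?_⟩
    omega
  have hCP : 1 ≤ CP n := Nat.mul_pos (CL_pos _) (by positivity)
  set N := NN n d with hN
  set c : ℕ := 2 * N * (CP n * T) ^ d with hc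
  obtain ⟨C, hC1, hC⟩ := ind_bound hn d hε c
  set δ : ℝ := min ε 1 with hδ
  have hδ0 : 0 < δ := lt_min hε one_pos
  have hδε : δ ≤ ε := min_le_left _ _
  set p : ℝ := n + 1 + δ with hp
  have hp0 : 0 < p := by
    have : (0 : ℝ) ≤ n := Nat.cast_nonneg n
    linarith
  obtain ⟨S, hS1, hS⟩ := sum_om (m := n + 1) (Nat.succ_pos n) (p := p) (by
    rw [hp]
    push_cast
    linarith)
  have hTr : (1 : ℝ) ≤ T := by exact_mod_cast hT
  have hTp : (1 : ℝ) ≤ (T : ℝ) ^ p := Real.one_le_rpow hTr hp0.le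
  set K₀ : ℕ := 9 * (N + 1) ^ 2 * CP n ^ d with hK₀
  have hK₀1 : (1 : ℝ) ≤ K₀ := by
    rw [hK₀]
    exact_mod_cast Nat.mul_pos (by positivity) (pow_pos hCP d)
  refine ⟨C * (K₀ * (T : ℝ) ^ p * S), ?_, fun H hH s hs W hW hWH => ?_⟩
  · exact one_le_mul_of_one_le_of_one_le hC1
      (one_le_mul_of_one_le_of_one_le (one_le_mul_of_one_le_of_one_le hK₀1 hTp) hS1)
  have hpair : ∀ y : Fin s → Fin (n + 1) → ℤ, ∃ a b : Fin (n + 1) → ℤ, Dt y → (∀ i, y i ≠ 0) →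
      a ∈ sol y ∧ b ∈ sol y ∧ Ind a b ∧ nm a * nm b ≤ CP n * om y := by
    intro y
    by_cases h : Dt y ∧ ∀ i, y i ≠ 0
    · obtain ⟨a, b, hab⟩ := pair_exists h.1 (by omega) h.2
      exact ⟨a, b, fun _ _ => hab⟩
    · exact ⟨0, 0, fun h1 h2 => absurd ⟨h1, h2⟩ h⟩
  choose a b hab using hpair
  set Y := (YY n H s).filter fun y => Dt y ∧ om y ≤ T * W with hY
  have hYm : ∀ y ∈ Y, (∀ i, y i ≠ 0) ∧ Dt y ∧ om y ≤ T * W := by
    intro y hy
    rw [hY, Finset.mem_filter] at hy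
    exact ⟨YY_ne hy.1, hy.2⟩
  let P : (Fin s → Fin (n + 1) → ℤ) → Finset (ℤ × ℤ) := fun y =>
    Finset.Icc (-((N * (H * nm (b y) ^ d) : ℕ) : ℤ)) ((N * (H * nm (b y) ^ d) : ℕ) : ℤ) ×ˢ
    Finset.Icc (-((N * (H * nm (a y) ^ d) : ℕ) : ℤ)) ((N * (H * nm (a y) ^ d) : ℕ) : ℤ)
  let Z : (Fin s → Fin (n + 1) → ℤ) → ℤ × ℤ → Finset (MvPolynomial (Fin (n + 1)) ℤ) :=
    fun y q => (FF n d H).filter fun f => ∃ x, Prim x ∧ Dat n H x y ∧
      (∃ t g : ℤ, t ≠ 0 ∧ g ≠ 0 ∧ t • x = g • (q.1 • a y + q.2 • b y)) ∧ eval x f = 0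
  have hcardf : ({f : MvPolynomial (Fin (n + 1)) ℤ | f ∈ FF n d H ∧
      (∀ a : Fin (n + 1) → ℤ, a ≠ 0 → nm a ≤ CP n * (T * W) → eval a f ≠ 0) ∧
      ∃ x : Fin (n + 1) → ℤ, Prim x ∧
      (∃ y : Fin s → Fin (n + 1) → ℤ, Dat n H x y ∧ om y ≤ T * W) ∧
      eval x f = 0} : Set _).ncard = #((FF n d H).filter fun f =>
      (∀ a : Fin (n + 1) → ℤ, a ≠ 0 → nm a ≤ CP n * (T * W) → eval a f ≠ 0) ∧
      ∃ x : Fin (n + 1) → ℤ, Prim x ∧
      (∃ y : Fin s → Fin (n + 1) → ℤ, Dat n H x y ∧ om y ≤ T * W) ∧ eval x f = 0) := by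
    rw [← Set.ncard_coe_finset, Finset.coe_filter]
  rw [hcardf]
  have hEE : 0 ≤ C * EE n d H * (H : ℝ) ^ ε :=
    mul_nonneg (mul_nonneg (by linarith) (EE_pos n d H).le) (Real.rpow_nonneg (Nat.cast_nonneg H) ε)
  have hmain := double ((FF n d H).filter fun f =>
      (∀ a : Fin (n + 1) → ℤ, a ≠ 0 → nm a ≤ CP n * (T * W) → eval a f ≠ 0) ∧
      ∃ x : Fin (n + 1) → ℤ, Prim x ∧
      (∃ y : Fin s → Fin (n + 1) → ℤ, Dat n H x y ∧ om y ≤ T * W) ∧ eval x f = 0) Y P Z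
      (h := (H : ℝ) ^ (1 + d)) (A := C * EE n d H * (H : ℝ) ^ ε) (K := (K₀ : ℝ) * (H : ℝ) ^ 2)
      (pow_nonneg (Nat.cast_nonneg H) _) hEE (fun y => (om y : ℝ) ^ (-(d : ℝ))) ?_ ?_ ?_
  · have hY2 : (#Y : ℝ) ≤ ((T * W : ℕ) : ℝ) ^ p * S := by
      have h1 : ∀ y ∈ Y, (1 : ℝ) ≤ ((T * W : ℕ) : ℝ) ^ p * (om y : ℝ) ^ (-p) := by
        intro y hy
        obtain ⟨hy0, -, hyo⟩ := hYm y hy
        have ho : (0 : ℝ) < om y := by exact_mod_cast om_pos hy0
        rw [Real.rpow_neg ho.le, ← div_eq_mul_inv, one_le_div (Real.rpow_pos_of_pos ho p)]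
        exact Real.rpow_le_rpow ho.le (by exact_mod_cast hyo) hp0.le
      calc (#Y : ℝ) = ∑ y ∈ Y, (1 : ℝ) := by simp
        _ ≤ ∑ y ∈ Y, ((T * W : ℕ) : ℝ) ^ p * (om y : ℝ) ^ (-p) := Finset.sum_le_sum h1
        _ = ((T * W : ℕ) : ℝ) ^ p * ∑ y ∈ Y, (om y : ℝ) ^ (-p) := by rw [Finset.mul_sum]
        _ ≤ _ := mul_le_mul_of_nonneg_left (hS s (by omega) Y fun y hy => (hYm y hy).1)
            (Real.rpow_nonneg (Nat.cast_nonneg _) _)
    have hWr : (1 : ℝ) ≤ W := by exact_mod_cast hW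
    have hW0 : (0 : ℝ) < W := by linarith
    have hTW : ((T * W : ℕ) : ℝ) ^ p ≤ (T : ℝ) ^ p * ((W : ℝ) ^ (n + 1) * (W : ℝ) ^ ε) := by
      push_cast
      rw [Real.mul_rpow (by linarith) hW0.le]
      refine mul_le_mul_of_nonneg_left ?_ (by linarith)
      rw [← Real.rpow_natCast (W : ℝ) (n + 1), ← Real.rpow_add hW0]
      refine Real.rpow_le_rpow_of_exponent_le hWr ?_
      rw [hp]
      push_cast
      linarith
    have hKH : (0 : ℝ) ≤ (K₀ : ℝ) * (H : ℝ) ^ 2 :=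
      mul_nonneg (Nat.cast_nonneg _) (pow_nonneg (Nat.cast_nonneg H) 2)
    have hS0 : (0 : ℝ) ≤ S := by linarith
    refine hmain.trans ?_
    calc C * EE n d H * (H : ℝ) ^ ε * ((K₀ : ℝ) * (H : ℝ) ^ 2 * (#Y : ℝ))
        ≤ C * EE n d H * (H : ℝ) ^ ε * ((K₀ : ℝ) * (H : ℝ) ^ 2 *
          ((T : ℝ) ^ p * ((W : ℝ) ^ (n + 1) * (W : ℝ) ^ ε) * S)) := by
          refine mul_le_mul_of_nonneg_left (mul_le_mul_of_nonneg_left ?_ hKH) hEE
          exact hY2.trans (mul_le_mul_of_nonneg_right hTW hS0)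
      _ = _ := by ring
  · -- the forms of one cell
    intro y hy q hq
    obtain ⟨hy0, hyD, hyo⟩ := hYm y hy
    obtain ⟨ha, hb, hind, hnab⟩ := hab y hyD hy0
    by_cases hne : (Z y q).Nonempty
    · obtain ⟨f₀, hf₀⟩ := hne
      obtain ⟨-, x₀, hx₀, hD₀, ⟨t₀, g₀, ht₀, hg₀, h₀⟩, -⟩ := Finset.mem_filter.1 hf₀
      have hsub : Z y q ⊆ FX n d H x₀ := by
        intro f hf
        obtain ⟨hfF, x, -, -, ⟨t, g, ht, hg, h⟩, hfx⟩ := Finset.mem_filter.1 hf
        refine Finset.mem_filter.2 ⟨hfF, ?_⟩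
        have hhom := (mem_FF.1 hfF).1
        have h1 : eval (q.1 • a y + q.2 • b y) f = 0 := by
          have h2 : g ^ d * eval (q.1 • a y + q.2 • b y) f = 0 := by
            rw [← eval_smul' hhom, ← h, eval_smul' hhom, hfx, mul_zero]
          exact (mul_eq_zero.1 h2).resolve_left (pow_ne_zero _ hg)
        have h3 : t₀ ^ d * eval x₀ f = 0 := by
          rw [← eval_smul' hhom, h₀, eval_smul' hhom, h1, mul_zero]
        exact (mul_eq_zero.1 h3).resolve_left (pow_ne_zero _ ht₀)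
      have hnx : nm x₀ ≤ c * H ^ (d + 1) := by
        refine (prim_nm hx₀ ht₀ h₀).trans ?_
        refine (nm_add_le _ _).trans ?_
        rw [nm_smul, nm_smul]
        have hq' := Finset.mem_product.1 hq
        have hq1 : q.1.natAbs ≤ N * (H * nm (b y) ^ d) := by
          have h1 := Finset.mem_Icc.1 hq'.1
          have h2 := abs_le.2 h1
          rw [Int.abs_eq_natAbs] at h2
          exact_mod_cast h2
        have hq2 : q.2.natAbs ≤ N * (H * nm (a y) ^ d) := by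
          have h1 := Finset.mem_Icc.1 hq'.2
          have h2 := abs_le.2 h1
          rw [Int.abs_eq_natAbs] at h2
          exact_mod_cast h2
        have hd0 : d ≠ 0 := by omega
        have hA1 : nm (a y) ≤ nm (a y) ^ d := Nat.le_self_pow hd0 _
        have hB1 : nm (b y) ≤ nm (b y) ^ d := Nat.le_self_pow hd0 _
        have hprod : nm (a y) ^ d * nm (b y) ^ d ≤ (CP n * T) ^ d * H ^ d := by
          rw [← mul_pow, ← mul_pow]
          refine Nat.pow_le_pow_left (hnab.trans ?_) d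
          calc CP n * om y ≤ CP n * (T * W) := Nat.mul_le_mul_left _ hyo
            _ ≤ CP n * (T * H) := Nat.mul_le_mul_left _ (Nat.mul_le_mul_left _ hWH)
            _ = CP n * T * H := by ring
        generalize nm (a y) = α at hA1 hprod hq1 hq2 ⊢
        generalize nm (b y) = β at hB1 hprod hq1 hq2 ⊢
        calc q.1.natAbs * α + q.2.natAbs * β
            ≤ N * (H * β ^ d) * α ^ d + N * (H * α ^ d) * β ^ d :=
              Nat.add_le_add (Nat.mul_le_mul hq1 hA1) (Nat.mul_le_mul hq2 hB1)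
          _ = 2 * N * H * (α ^ d * β ^ d) := by ring
          _ ≤ 2 * N * H * ((CP n * T) ^ d * H ^ d) := Nat.mul_le_mul_left _ hprod
          _ = c * H ^ (d + 1) := by
              rw [hc, pow_succ]
              ring
      have h4 := hC H hH x₀ hx₀ hnx s 1 hs y hD₀
      rw [one_mul] at h4
      refine le_trans (mul_le_mul_of_nonneg_right ?_ (pow_nonneg (Nat.cast_nonneg H) _)) h4
      exact_mod_cast Finset.card_le_card hsub
    · rw [Finset.not_nonempty_iff_eq_empty] at hne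
      rw [hne, Finset.card_empty, Nat.cast_zero, zero_mul]
      exact mul_nonneg hEE (Real.rpow_nonneg (Nat.cast_nonneg _) _)
  · -- the number of cells
    intro y hy
    obtain ⟨hy0, hyD, hyo⟩ := hYm y hy
    obtain ⟨ha, hb, hind, hnab⟩ := hab y hyD hy0
    have hA1 : 1 ≤ nm (a y) := nm_pos.2 hind.left
    have hB1 : 1 ≤ nm (b y) := nm_pos.2 hind.right
    have ho : (0 : ℝ) < om y := by exact_mod_cast om_pos hy0
    have hcard : #(P y) ≤ K₀ * H ^ 2 * om y ^ d := by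
      have h1 : #(P y) = (2 * (N * (H * nm (b y) ^ d)) + 1) * (2 * (N * (H * nm (a y) ^ d)) + 1) := by
        change #(_ ×ˢ _) = _
        rw [Finset.card_product, Int.card_Icc, Int.card_Icc]
        congr 1 <;> omega
      rw [h1, hK₀]
      generalize nm (a y) = α at hA1 hnab ⊢
      generalize nm (b y) = β at hB1 hnab ⊢
      generalize om y = o at hnab ⊢
      have h2 : 1 ≤ H * α ^ d := Nat.mul_pos hH (pow_pos hA1 d)
      have h3 : 1 ≤ H * β ^ d := Nat.mul_pos hH (pow_pos hB1 d)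
      have h4 : (α * β) ^ d ≤ (CP n * o) ^ d := Nat.pow_le_pow_left hnab d
      calc (2 * (N * (H * β ^ d)) + 1) * (2 * (N * (H * α ^ d)) + 1)
          ≤ (3 * (N + 1) * (H * β ^ d)) * (3 * (N + 1) * (H * α ^ d)) :=
            Nat.mul_le_mul (by nlinarith) (by nlinarith)
        _ = 9 * (N + 1) ^ 2 * H ^ 2 * (α * β) ^ d := by
            rw [mul_pow α β]
            ring
        _ ≤ 9 * (N + 1) ^ 2 * H ^ 2 * (CP n * o) ^ d := Nat.mul_le_mul_left _ h4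
        _ = 9 * (N + 1) ^ 2 * CP n ^ d * H ^ 2 * o ^ d := by
            rw [mul_pow]
            ring
    rw [Real.rpow_neg ho.le, Real.rpow_natCast, ← div_eq_mul_inv, div_le_iff₀ (pow_pos ho d)]
    exact_mod_cast hcard
  · -- every form lies in a cell
    intro f hf
    obtain ⟨hfF, hno, x, hx, ⟨y, hD, hyo⟩, hfx⟩ := Finset.mem_filter.1 hf
    obtain ⟨ha, hb, hind, hnab⟩ := hab y hD.dt hD.ne
    have hA1 : 1 ≤ nm (a y) := nm_pos.2 hind.left
    have hB1 : 1 ≤ nm (b y) := nm_pos.2 hind.right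
    have hle : nm (a y) * nm (b y) ≤ CP n * (T * W) :=
      hnab.trans (Nat.mul_le_mul_left _ hyo)
    have hfa := hno (a y) hind.left ((Nat.le_mul_of_pos_right _ hB1).trans hle)
    have hfb := hno (b y) hind.right ((Nat.le_mul_of_pos_left _ hA1).trans hle)
    obtain ⟨t, u, v, ht, h⟩ := rank2 hD.dt (by omega) hD.orth ha hb hind
    have hhom := (mem_FF.1 hfF).1
    obtain ⟨g, u', v', hg, hz, hv', hu'⟩ := line_zero hhom hx.ne_zero ht h hfx
    have hbound : ∀ (w : ℤ) (z : Fin (n + 1) → ℤ), w ∣ eval z f → eval z f ≠ 0 →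
        w ∈ Finset.Icc (-((N * (H * nm z ^ d) : ℕ) : ℤ)) ((N * (H * nm z ^ d) : ℕ) : ℤ) := by
      intro w z hw hz
      rw [Finset.mem_Icc, ← abs_le]
      have h1 : |w| ≤ |eval z f| := Int.le_of_dvd (abs_pos.2 hz) ((abs_dvd_abs _ _).2 hw)
      refine h1.trans ((abs_eval_le hfF z).trans (le_of_eq ?_))
      push_cast
      ring
    refine ⟨y, Finset.mem_filter.2 ⟨hD.mem_YY, hD.dt, hyo⟩, (u', v'),
      Finset.mem_product.2 ⟨hbound u' (b y) hu' hfb, hbound v' (a y) hv' hfa⟩,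
      Finset.mem_filter.2 ⟨hfF, x, hx, hD, ⟨t, g, ht, hg, hz⟩, hfx⟩⟩

end Pool.Agent.H31.RZ
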