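import Pool.Agent.H31.RZ.Cat
import Pool.Agent.H31.RZ.Line

/-!
# Random hypersurfaces (MP_6e60ff_nt): the main estimate
-/

namespace Pool.Agent.H31.RZ

open Finset Matrix MvPolynomial

/-- `x` lies on a rational line of height at most `W` -/
def OnL {m : ℕ} (W : ℕ) (x : Fin m → ℤ) : Prop :=
  ∃ a b : Fin m → ℤ, Ind a b ∧ nm a * nm b ≤ W ∧ ∃ t u v : ℤ, t ≠ 0 ∧ t • x = u • a + v • b

/-- the sets of forms which occur in the proof -/
def SA (n d H : ℕ) : Set (MvPolynomial (Fin (n + 1)) ℤ) :=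
  {f | f ∈ FF n d H ∧ ∃ x : Fin (n + 1) → ℤ, Prim x ∧
      (∃ y : Fin n → Fin (n + 1) → ℤ, Dat n H x y) ∧ eval x f = 0}

def SD (n d H B s : ℕ) : Set (MvPolynomial (Fin (n + 1)) ℤ) :=
  {f | f ∈ FF n d H ∧ ∃ x : Fin (n + 1) → ℤ, Prim x ∧
      nm x ≤ B ∧ (∃ y : Fin s → Fin (n + 1) → ℤ, Dat n H x y) ∧ eval x f = 0}

def SC (n d H B W s : ℕ) : Set (MvPolynomial (Fin (n + 1)) ℤ) :=
  {f | f ∈ FF n d H ∧ ∃ x : Fin (n + 1) → ℤ, Prim x ∧
      nm x ≤ B ∧ (∃ y : Fin s → Fin (n + 1) → ℤ, Dat n H x y ∧ W < om y) ∧ eval x f = 0}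

def SB (n d H T W s : ℕ) : Set (MvPolynomial (Fin (n + 1)) ℤ) :=
  {f | f ∈ FF n d H ∧
      (∀ a : Fin (n + 1) → ℤ, a ≠ 0 → nm a ≤ CP n * (T * W) → eval a f ≠ 0) ∧
      ∃ x : Fin (n + 1) → ℤ, Prim x ∧
      (∃ y : Fin s → Fin (n + 1) → ℤ, Dat n H x y ∧ om y ≤ T * W) ∧ eval x f = 0}

def Bad (n d H B W : ℕ) : Set (MvPolynomial (Fin (n + 1)) ℤ) :=
  {f | f ∈ FF n d H ∧ ∃ x : Fin (n + 1) → ℤ, x ≠ 0 ∧ eval x f = 0 ∧ (nm x ≤ B ∨ OnL W x)}

theorem sub_FF {n d H : ℕ} {P : MvPolynomial (Fin (n + 1)) ℤ → Prop} :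
    ({f | f ∈ FF n d H ∧ P f} : Set _) ⊆ (FF n d H : Set _) := fun _ h => h.1

theorem fin_FF {n d H : ℕ} {S : Set (MvPolynomial (Fin (n + 1)) ℤ)}
    (h : S ⊆ (FF n d H : Set _)) : S.Finite := (Finset.finite_toSet _).subset h

/-- a zero of small height -/
theorem small {n d H B : ℕ} {f : MvPolynomial (Fin (n + 1)) ℤ} (hf : f ∈ FF n d H)
    {x : Fin (n + 1) → ℤ} (hx : Prim x) (hxB : nm x ≤ B) (hfx : eval x f = 0) :
    f ∈ SA n d H ∨ ∃ s < n, f ∈ SD n d H B s := by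
  obtain ⟨s, y, hD⟩ := exists_dat n H x
  have hs := hD.le hx.ne_zero
  rcases hs.lt_or_eq with h | h
  · exact Or.inr ⟨s, h, hf, x, hx, hxB, ⟨y, hD⟩, hfx⟩
  · subst h
    exact Or.inl ⟨hf, x, hx, ⟨y, hD⟩, hfx⟩

theorem prim_zero {n d : ℕ} {f : MvPolynomial (Fin (n + 1)) ℤ} (hf : f.IsHomogeneous d)
    {x : Fin (n + 1) → ℤ} (hx : x ≠ 0) (hfx : eval x f = 0) :
    ∃ (z : Fin (n + 1) → ℤ) (c : ℤ), Prim z ∧ c ≠ 0 ∧ x = c • z ∧ nm z ≤ nm x ∧
      eval z f = 0 := by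
  obtain ⟨z, c, hz, hc, rfl⟩ := to_prim hx
  refine ⟨z, c, hz, hc, rfl, ?_, ?_⟩
  · rw [nm_smul]
    exact Nat.le_mul_of_pos_left _ (Int.natAbs_pos.2 hc)
  · rw [eval_smul' hf] at hfx
    exact (mul_eq_zero.1 hfx).resolve_left (pow_ne_zero _ hc)

/-- the decomposition of the set of bad forms -/
theorem bad_sub {n d H B W : ℕ} (hn : 2 ≤ n) (hH : 1 ≤ H) (hWH : CT n * W ≤ H) :
    Bad n d H B W ⊆ SA n d H ∪ (⋃ s ∈ Finset.range n, SD n d H (CP n * (CT n * W)) s) ∪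
      SB n d H (CT n) W (n - 1) ∪ SC n d H (max B W) W (n - 1) ∪
      ⋃ s ∈ Finset.range (n - 1), SD n d H B s := by
  rintro f ⟨hf, x₀, hx₀, hfx₀, hcase⟩
  have hhom := (mem_FF.1 hf).1
  have hCT1 : 1 ≤ CT n := Nat.mul_pos (by positivity) (CL_pos _)
  by_cases hsm : ∃ a : Fin (n + 1) → ℤ, a ≠ 0 ∧ nm a ≤ CP n * (CT n * W) ∧ eval a f = 0
  · obtain ⟨a, ha, hab, hfa⟩ := hsm
    obtain ⟨z, c, hz, -, -, hnm, hfz⟩ := prim_zero hhom ha hfa
    rcases small hf hz (hnm.trans hab) hfz with h | ⟨s, hs, h⟩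
    · exact Or.inl (Or.inl (Or.inl (Or.inl h)))
    · exact Or.inl (Or.inl (Or.inl (Or.inr (Set.mem_biUnion (Finset.mem_coe.2 (Finset.mem_range.2 hs)) h))))
  push Not at hsm
  obtain ⟨x, c, hx, hc, hxc, hnm, hfx⟩ := prim_zero hhom hx₀ hfx₀
  obtain ⟨s, y, hD⟩ := exists_dat n H x
  have hs := hD.le hx.ne_zero
  rcases hs.lt_or_eq with hsn | hsn
  swap
  · subst hsn
    exact Or.inl (Or.inl (Or.inl (Or.inl ⟨hf, x, hx, ⟨y, hD⟩, hfx⟩)))
  rcases Nat.lt_or_ge s (n - 1) with hs2 | hs2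
  · -- few equations
    rcases hcase with hB | ⟨a, b, hab, hW, t, u, v, ht, h⟩
    · exact Or.inr (Set.mem_biUnion (Finset.mem_coe.2 (Finset.mem_range.2 hs2))
        ⟨hf, x, hx, hnm.trans hB, ⟨y, hD⟩, hfx⟩)
    · exfalso
      have h' : (t * c) • x = u • a + v • b := by rw [mul_smul, ← hxc, h]
      have h1 := om_line (by omega : 1 ≤ n) hH hab.left hab.right (mul_ne_zero ht hc) h' hD
      have hom := om_pos hD.ne
      have hnH : 1 ≤ n * H := Nat.mul_pos (by omega) hH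
      have h2 : (n * H) ^ n * (n * H) ≤ (n * H) ^ n * H := by
        calc (n * H) ^ n * (n * H) = (n * H) ^ (n + 1) := (pow_succ _ _).symm
          _ ≤ (n * H) ^ (n + 1) * om y := Nat.le_mul_of_pos_right _ hom
          _ ≤ (n * H) ^ (s + 2) * (CT n * (nm a * nm b)) := h1
          _ ≤ (n * H) ^ n * (CT n * W) :=
              Nat.mul_le_mul (Nat.pow_le_pow_right hnH (by omega)) (Nat.mul_le_mul_left _ hW)
          _ ≤ (n * H) ^ n * H := Nat.mul_le_mul_left _ hWH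
      have h3 : n * H ≤ H := Nat.le_of_mul_le_mul_left h2 (pow_pos hnH n)
      have h4 : 2 * H ≤ n * H := Nat.mul_le_mul_right _ hn
      omega
  · -- a line
    obtain rfl : s = n - 1 := by omega
    by_cases hom : om y ≤ CT n * W
    · refine Or.inl (Or.inl (Or.inr ⟨hf, hsm, x, hx, ⟨y, hD, hom⟩, hfx⟩))
    · rcases hcase with hB | ⟨a, b, hab, hW, t, u, v, ht, h⟩
      · refine Or.inl (Or.inr ⟨hf, x, hx, (hnm.trans hB).trans (le_max_left _ _),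
          ⟨y, hD, ?_⟩, hfx⟩)
        have h1 : W ≤ CT n * W := Nat.le_mul_of_pos_left _ hCT1
        omega
      · exfalso
        have h' : (t * c) • x = u • a + v • b := by rw [mul_smul, ← hxc, h]
        have h1 := om_line (by omega : 1 ≤ n) hH hab.left hab.right (mul_ne_zero ht hc) h' hD
        have hnH : 1 ≤ n * H := Nat.mul_pos (by omega) hH
        have e : n - 1 + 2 = n + 1 := by omega
        rw [e] at h1
        have h2 := Nat.le_of_mul_le_mul_left h1 (pow_pos hnH _)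
        exact hom (h2.trans (Nat.mul_le_mul_left _ hW))

end Pool.Agent.H31.RZ
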