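import Mathlib

/-!
# Random hypersurfaces (MP_6e60ff_nt): sup norm, boxes, the pigeonhole lemma
-/

namespace Pool.Agent.H31.RZ

open Finset Matrix

/-- sup norm of an integer vector -/
noncomputable def nm {m : ℕ} (x : Fin m → ℤ) : ℕ := Finset.univ.sup fun i => (x i).natAbs

/-- the integer vectors of sup norm at most `R` -/
noncomputable def bx (m R : ℕ) : Finset (Fin m → ℤ) := Fintype.piFinset fun _ => Finset.Icc (-(R : ℤ)) R

variable {m : ℕ}

theorem natAbs_le_nm (x : Fin m → ℤ) (i : Fin m) : (x i).natAbs ≤ nm x :=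
  Finset.le_sup (f := fun i => (x i).natAbs) (Finset.mem_univ i)

theorem abs_le_nm (x : Fin m → ℤ) (i : Fin m) : |x i| ≤ nm x := by
  have h := natAbs_le_nm x i
  rw [Int.abs_eq_natAbs]
  exact_mod_cast h

theorem nm_le_iff {x : Fin m → ℤ} {R : ℕ} : nm x ≤ R ↔ ∀ i, |x i| ≤ R := by
  unfold nm
  rw [Finset.sup_le_iff]
  constructor
  · intro h i
    rw [Int.abs_eq_natAbs]
    exact_mod_cast h i (Finset.mem_univ i)
  · intro h i _
    have h1 := h i
    rw [Int.abs_eq_natAbs] at h1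
    exact_mod_cast h1

theorem mem_bx {x : Fin m → ℤ} {R : ℕ} : x ∈ bx m R ↔ nm x ≤ R := by
  rw [nm_le_iff, bx, Fintype.mem_piFinset]
  simp only [Finset.mem_Icc, abs_le]

theorem nm_eq_zero {x : Fin m → ℤ} : nm x = 0 ↔ x = 0 := by
  constructor
  · intro h
    funext i
    have h1 := natAbs_le_nm x i
    rw [h] at h1
    simpa using h1
  · rintro rfl
    refine Nat.le_zero.1 (nm_le_iff.2 fun i => ?_)
    simp

theorem nm_pos {x : Fin m → ℤ} : 1 ≤ nm x ↔ x ≠ 0 := by
  rw [Nat.one_le_iff_ne_zero, Ne, nm_eq_zero]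

theorem exists_nm {x : Fin m → ℤ} (hx : x ≠ 0) : ∃ k, |x k| = nm x := by
  have hne : (Finset.univ : Finset (Fin m)).Nonempty := by
    rw [Finset.univ_nonempty_iff]
    by_contra h
    rw [not_nonempty_iff] at h
    exact hx (Subsingleton.elim _ _)
  obtain ⟨k, -, hk⟩ := Finset.exists_mem_eq_sup _ hne fun i => (x i).natAbs
  refine ⟨k, ?_⟩
  rw [Int.abs_eq_natAbs]
  exact_mod_cast hk.symm

theorem nm_neg (x : Fin m → ℤ) : nm (-x) = nm x := by
  unfold nm
  simp

theorem nm_add_le (x y : Fin m → ℤ) : nm (x + y) ≤ nm x + nm y := by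
  rw [nm_le_iff]
  intro i
  have h1 := abs_le_nm x i
  have h2 := abs_le_nm y i
  have h3 := abs_add_le (x i) (y i)
  push_cast
  simp only [Pi.add_apply]
  linarith

theorem nm_smul (c : ℤ) (x : Fin m → ℤ) : nm (c • x) = c.natAbs * nm x := by
  apply le_antisymm
  · rw [nm_le_iff]
    intro i
    rw [Pi.smul_apply, smul_eq_mul, abs_mul, Int.abs_eq_natAbs c]
    push_cast
    exact mul_le_mul_of_nonneg_left (abs_le_nm x i) (by positivity)
  · by_cases hx : x = 0
    · subst hx
      simp [nm_eq_zero.2 rfl]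
    · obtain ⟨k, hk⟩ := exists_nm hx
      have h1 := abs_le_nm (c • x) k
      rw [Pi.smul_apply, smul_eq_mul, abs_mul, hk, Int.abs_eq_natAbs c] at h1
      exact_mod_cast h1

theorem abs_dot_le (y x : Fin m → ℤ) : |y ⬝ᵥ x| ≤ m * nm y * nm x := by
  unfold dotProduct
  refine (Finset.abs_sum_le_sum_abs _ _).trans ?_
  have h1 : ∀ i ∈ (Finset.univ : Finset (Fin m)), |y i * x i| ≤ (nm y : ℤ) * nm x := by
    intro i _
    rw [abs_mul]
    exact mul_le_mul (abs_le_nm y i) (abs_le_nm x i) (abs_nonneg _) (by positivity)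
  refine (Finset.sum_le_sum h1).trans ?_
  rw [Finset.sum_const, Finset.card_univ, Fintype.card_fin, nsmul_eq_mul, mul_assoc]

/-- the equations `y i ⬝ᵥ x = 0` leave `m - s` coordinates of `x` free -/
def Dt {s : ℕ} (y : Fin s → Fin m → ℤ) : Prop :=
  ∃ J : Finset (Fin m), #J + s = m ∧
    ∀ x : Fin m → ℤ, (∀ i, y i ⬝ᵥ x = 0) → (∀ j ∈ J, x j = 0) → x = 0

theorem card_bx (m R : ℕ) : #(bx m R) = (2 * R + 1) ^ m := by
  unfold bx
  rw [Fintype.card_piFinset]
  simp only [Int.card_Icc, Finset.prod_const, Finset.card_univ, Fintype.card_fin]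
  congr 1
  omega

/-- the number of solutions in a box -/
theorem card_sol_le {s : ℕ} {y : Fin s → Fin m → ℤ} (h : Dt y) (R : ℕ) :
    #{x ∈ bx m R | ∀ i, y i ⬝ᵥ x = 0} ≤ (2 * R + 1) ^ (m - s) := by
  obtain ⟨J, hJ, hx⟩ := h
  have h1 : (Finset.Icc (-(R : ℤ)) R).card = 2 * R + 1 := by
    rw [Int.card_Icc]
    omega
  have h2 : #(Fintype.piFinset fun _ : J => Finset.Icc (-(R : ℤ)) R) =
      (2 * R + 1) ^ (m - s) := by
    rw [Fintype.card_piFinset]
    simp only [h1, Finset.prod_const, Finset.card_univ, Fintype.card_coe]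
    congr 1
    omega
  rw [← h2]
  refine Finset.card_le_card_of_injOn (fun x (j : J) => x j) ?_ ?_
  · intro x hxm
    rw [Finset.mem_coe, Finset.mem_filter] at hxm
    rw [Finset.mem_coe, Fintype.mem_piFinset]
    intro j
    have h3 := nm_le_iff.1 (mem_bx.1 hxm.1) j
    rw [abs_le] at h3
    exact Finset.mem_Icc.2 h3
  · intro x hxm x' hxm' he
    rw [Finset.mem_coe, Finset.mem_filter] at hxm hxm'
    have h3 : x - x' = 0 := by
      apply hx
      · intro i
        rw [dotProduct_sub, hxm.2, hxm'.2, sub_zero]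
      · intro j hj
        have h4 := congrFun he ⟨j, hj⟩
        simp only at h4
        rw [Pi.sub_apply, h4, sub_self]
    exact sub_eq_zero.1 h3

/-- the pigeonhole lemma -/
theorem pigeon {s : ℕ} (hm : 0 < m) (y : Fin s → Fin m → ℤ) (hy : ∀ i, y i ≠ 0) (R : ℕ)
    (hR : 1 ≤ R) :
    R ^ m ≤ #{z ∈ bx m R | ∀ i, y i ⬝ᵥ z = 0} * ((3 * m * R) ^ s * ∏ i, nm (y i)) := by
  set D : Finset (Fin m → ℤ) := Fintype.piFinset fun _ => Finset.Icc (0 : ℤ) R with hD
  have hDc : #D = (R + 1) ^ m := by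
    rw [hD, Fintype.card_piFinset]
    simp
  set T : Finset (Fin s → ℤ) := Fintype.piFinset fun i =>
    Finset.Icc (-((m * nm (y i) * R : ℕ) : ℤ)) ((m * nm (y i) * R : ℕ) : ℤ) with hT
  have hTc : #T ≤ (3 * m * R) ^ s * ∏ i, nm (y i) := by
    rw [hT, Fintype.card_piFinset]
    have h1 : ∀ i ∈ (Finset.univ : Finset (Fin s)),
        #(Finset.Icc (-((m * nm (y i) * R : ℕ) : ℤ)) ((m * nm (y i) * R : ℕ) : ℤ)) ≤
        3 * m * R * nm (y i) := by
      intro i _
      rw [Int.card_Icc]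
      have h2 : 1 ≤ m * nm (y i) * R := Nat.mul_pos (Nat.mul_pos hm (nm_pos.2 (hy i))) hR
      have h3 : 3 * m * R * nm (y i) = 3 * (m * nm (y i) * R) := by ring
      rw [h3]
      omega
    refine (Finset.prod_le_prod' h1).trans (le_of_eq ?_)
    rw [Finset.prod_mul_distrib, Finset.prod_const, Finset.card_univ, Fintype.card_fin]
  have hDb : ∀ z ∈ D, z ∈ bx m R ∧ nm z ≤ R := by
    intro z hz
    have h1 : nm z ≤ R := by
      rw [nm_le_iff]
      intro i
      have h2 := Finset.mem_Icc.1 (Fintype.mem_piFinset.1 hz i)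
      rw [abs_of_nonneg h2.1]
      exact h2.2
    exact ⟨mem_bx.2 h1, h1⟩
  have h1 : #D ≤ #{z ∈ bx m R | ∀ i, y i ⬝ᵥ z = 0} * #T := by
    refine Finset.card_le_mul_card_image_of_maps_to (f := fun z i => y i ⬝ᵥ z) ?_ _ ?_
    · intro z hz
      rw [hT, Fintype.mem_piFinset]
      intro i
      rw [Finset.mem_Icc, ← abs_le]
      refine (abs_dot_le (y i) z).trans ?_
      push_cast
      exact mul_le_mul_of_nonneg_left (by exact_mod_cast (hDb z hz).2) (by positivity)
    · intro c _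
      by_cases hne : (D.filter fun z => (fun i => y i ⬝ᵥ z) = c).Nonempty
      · obtain ⟨z₀, hz₀⟩ := hne
        rw [Finset.mem_filter] at hz₀
        refine Finset.card_le_card_of_injOn (fun z => z - z₀) ?_ ?_
        · intro z hz
          rw [Finset.mem_coe, Finset.mem_filter] at hz
          rw [Finset.mem_coe, Finset.mem_filter]
          refine ⟨?_, fun i => ?_⟩
          · rw [mem_bx, nm_le_iff]
            intro i
            have h2 := Finset.mem_Icc.1 (Fintype.mem_piFinset.1 hz.1 i)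
            have h3 := Finset.mem_Icc.1 (Fintype.mem_piFinset.1 hz₀.1 i)
            rw [abs_le]
            simp only [Pi.sub_apply]
            constructor <;> linarith
          · have h2 : y i ⬝ᵥ z = y i ⬝ᵥ z₀ := congrFun (hz.2.trans hz₀.2.symm) i
            rw [dotProduct_sub, h2, sub_self]
        · intro z _ z' _ h
          exact sub_left_injective h
      · rw [Finset.not_nonempty_iff_eq_empty] at hne
        rw [hne]
        exact Nat.zero_le _
  calc R ^ m ≤ (R + 1) ^ m := Nat.pow_le_pow_left (Nat.le_succ R) m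
    _ = #D := hDc.symm
    _ ≤ _ := h1
    _ ≤ _ := Nat.mul_le_mul_left _ hTc

end Pool.Agent.H31.RZ
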