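import Pool.Agent.H31.RZ.Count

/-!
# Random hypersurfaces (MP_6e60ff_nt): the categories of points
-/

namespace Pool.Agent.H31.RZ

open Finset Matrix MvPolynomial

theorem om_le {n H s : ℕ} (hs : s ≤ n) (hn : 1 ≤ n) (hH : 1 ≤ H) {x : Fin (n + 1) → ℤ}
    {y : Fin s → Fin (n + 1) → ℤ} (h : Dat n H x y) : om y ≤ (4 ^ (n + 1) * (n * H)) ^ n := by
  unfold om
  refine (Finset.prod_le_prod' fun i _ => h.bd i).trans ?_
  rw [Finset.prod_const, Finset.card_univ, Fintype.card_fin]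
  exact Nat.pow_le_pow_right (Nat.mul_pos (by positivity) (Nat.mul_pos hn hH)) hs

/-- points with `n` independent short orthogonal vectors -/
theorem catA {n : ℕ} (hn : 1 ≤ n) {d : ℕ} (hd : n + 1 < d) {ε : ℝ} (hε : 0 < ε) :
    ∃ C : ℝ, 1 ≤ C ∧ ∀ H : ℕ, 1 ≤ H →
    (({f : MvPolynomial (Fin (n + 1)) ℤ | f ∈ FF n d H ∧ ∃ x : Fin (n + 1) → ℤ, Prim x ∧
      (∃ y : Fin n → Fin (n + 1) → ℤ, Dat n H x y) ∧ eval x f = 0} : Set _).ncard : ℝ) *
      (H : ℝ) ≤ C * EE n d H * (H : ℝ) ^ ε := by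
  set c : ℕ := 2 * ((3 * (n + 1)) ^ n * (4 ^ (n + 1) * n) ^ n) with hc
  obtain ⟨C, hC1, hC⟩ := ind_bound hn d hε c
  obtain ⟨S, hS1, hS⟩ := sum_om (m := n + 1) (Nat.succ_pos n) (p := (d : ℝ))
    (by exact_mod_cast hd)
  refine ⟨C * (2 * S), ?_, fun H hH => ?_⟩
  · nlinarith
  classical
  set X := (bx (n + 1) (c * H ^ (d + 1))).filter fun x => Prim x ∧
    ∃ y : Fin n → Fin (n + 1) → ℤ, Dat n H x y with hX
  have hXm : ∀ x, x ∈ X ↔ nm x ≤ c * H ^ (d + 1) ∧ Prim x ∧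
      ∃ y : Fin n → Fin (n + 1) → ℤ, Dat n H x y := by
    intro x
    rw [hX, Finset.mem_filter, mem_bx]
  have h1 := cat (n := n) (d := d) (ε := ε) (C := C) (by linarith) (c := c) (H := H) (s := n)
    (k := 0) (fun x hx hb y hy => hC H hH x hx hb n 0 (add_zero n) y hy) X (fun _ => True)
    (fun x hx => by
      obtain ⟨h1, h2, y, hy⟩ := (hXm x).1 hx
      exact ⟨h2, h1, y, hy, trivial⟩) (D := 2 * S) (by
      intro T hT
      have h2 : ∀ y ∈ T, (({x : Fin (n + 1) → ℤ | x ∈ X ∧ Dat n H x y} : Set _).ncard : ℝ) *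
          (om y : ℝ) ^ (-(d : ℝ)) ≤ 2 * (om y : ℝ) ^ (-(d : ℝ)) := by
        intro y hy
        obtain ⟨-, -, x₀, hx₀, hD₀⟩ := hT y hy
        refine mul_le_mul_of_nonneg_right ?_ (Real.rpow_nonneg (Nat.cast_nonneg _) _)
        have h3 : ({x : Fin (n + 1) → ℤ | x ∈ X ∧ Dat n H x y} : Set _) ⊆ {x₀, -x₀} := by
          rintro x ⟨hx, hD⟩
          have hx₀' := ((hXm x₀).1 hx₀).2.1
          obtain ⟨t, g, ht, htg⟩ := par hD.dt rfl hD.orth hD₀.orth hx₀'.ne_zero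
          exact prim_eq ((hXm x).1 hx).2.1 hx₀' ht htg
        have h4 : ({x : Fin (n + 1) → ℤ | x ∈ X ∧ Dat n H x y} : Set _).ncard ≤ 2 := by
          refine (Set.ncard_le_ncard h3 (Set.toFinite _)).trans ?_
          refine (Set.ncard_insert_le _ _).trans ?_
          rw [Set.ncard_singleton]
        exact_mod_cast h4
      refine (Finset.sum_le_sum h2).trans ?_
      rw [← Finset.mul_sum]
      exact mul_le_mul_of_nonneg_left (hS n (Nat.le_succ n) T fun y hy => (hT y hy).1)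
        (by norm_num))
  rw [zero_mul, add_zero, pow_one] at h1
  have hset : ({f : MvPolynomial (Fin (n + 1)) ℤ | f ∈ FF n d H ∧ ∃ x : Fin (n + 1) → ℤ,
      Prim x ∧ (∃ y : Fin n → Fin (n + 1) → ℤ, Dat n H x y) ∧ eval x f = 0} : Set _) =
      {f | f ∈ FF n d H ∧ ∃ x ∈ X, eval x f = 0} := by
    ext f
    constructor
    · rintro ⟨hf, x, hx, ⟨y, hy⟩, hfx⟩
      refine ⟨hf, x, (hXm x).2 ⟨?_, hx, y, hy⟩, hfx⟩
      refine (nm_le_of_full hy.dt hy.ne hx hy.orth).trans ?_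
      rw [hc]
      calc 2 * ((3 * (n + 1)) ^ n * om y)
          ≤ 2 * ((3 * (n + 1)) ^ n * (4 ^ (n + 1) * (n * H)) ^ n) :=
            Nat.mul_le_mul_left _ (Nat.mul_le_mul_left _ (om_le le_rfl hn hH hy))
        _ = 2 * ((3 * (n + 1)) ^ n * (4 ^ (n + 1) * n) ^ n) * H ^ n := by
            rw [← mul_assoc (4 ^ (n + 1)), mul_pow (4 ^ (n + 1) * n) H]
            ring
        _ ≤ _ := Nat.mul_le_mul_left _ (Nat.pow_le_pow_right hH (by omega))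
    · rintro ⟨hf, x, hx, hfx⟩
      obtain ⟨-, h2, y, hy⟩ := (hXm x).1 hx
      exact ⟨hf, x, h2, ⟨y, hy⟩, hfx⟩
  rw [hset]
  refine h1.trans (le_of_eq ?_)
  ring

/-- the first moment without further conditions -/
theorem catD {n : ℕ} (hn : 1 ≤ n) {d : ℕ} (hd : n + 1 < d) {ε : ℝ} (hε : 0 < ε) (c : ℕ) :
    ∃ C : ℝ, 1 ≤ C ∧ ∀ H : ℕ, 1 ≤ H → ∀ s k : ℕ, s + k = n → ∀ B : ℕ, 1 ≤ B →
    B ≤ c * H ^ (d + 1) →
    (({f : MvPolynomial (Fin (n + 1)) ℤ | f ∈ FF n d H ∧ ∃ x : Fin (n + 1) → ℤ, Prim x ∧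
      nm x ≤ B ∧ (∃ y : Fin s → Fin (n + 1) → ℤ, Dat n H x y) ∧ eval x f = 0} : Set _).ncard :
      ℝ) * (H : ℝ) ^ (1 + k * d) ≤ C * EE n d H * (H : ℝ) ^ ε * (B : ℝ) ^ (k + 1) := by
  obtain ⟨C, hC1, hC⟩ := ind_bound hn d hε c
  obtain ⟨S, hS1, hS⟩ := sum_om (m := n + 1) (Nat.succ_pos n) (p := (d : ℝ))
    (by exact_mod_cast hd)
  have h3n : (1 : ℝ) ≤ 3 ^ (n + 1) := one_le_pow₀ (by norm_num)
  refine ⟨C * (3 ^ (n + 1) * S), ?_, fun H hH s k hsk B hB hBc => ?_⟩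
  · exact one_le_mul_of_one_le_of_one_le hC1 (one_le_mul_of_one_le_of_one_le h3n hS1)
  classical
  set X := (bx (n + 1) B).filter fun x => Prim x ∧
    ∃ y : Fin s → Fin (n + 1) → ℤ, Dat n H x y with hX
  have hXm : ∀ x, x ∈ X ↔ nm x ≤ B ∧ Prim x ∧
      ∃ y : Fin s → Fin (n + 1) → ℤ, Dat n H x y := by
    intro x
    rw [hX, Finset.mem_filter, mem_bx]
  have hB0 : (0 : ℝ) ≤ (B : ℝ) ^ (k + 1) := pow_nonneg (Nat.cast_nonneg B) _
  have h1 := cat (n := n) (d := d) (ε := ε) (C := C) (by linarith) (c := c) (H := H) (s := s)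
    (k := k) (fun x hx hb y hy => hC H hH x hx hb s k hsk y hy) X (fun _ => True)
    (fun x hx => by
      obtain ⟨h1, h2, y, hy⟩ := (hXm x).1 hx
      exact ⟨h2, h1.trans hBc, y, hy, trivial⟩) (D := 3 ^ (n + 1) * (B : ℝ) ^ (k + 1) * S) (by
      intro T hT
      have h2 : ∀ y ∈ T, (({x : Fin (n + 1) → ℤ | x ∈ X ∧ Dat n H x y} : Set _).ncard : ℝ) *
          (om y : ℝ) ^ (-(d : ℝ)) ≤
          3 ^ (n + 1) * (B : ℝ) ^ (k + 1) * (om y : ℝ) ^ (-(d : ℝ)) := by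
        intro y hy
        obtain ⟨-, -, x₀, hx₀, hD₀⟩ := hT y hy
        refine mul_le_mul_of_nonneg_right ?_ (Real.rpow_nonneg (Nat.cast_nonneg _) _)
        have h3 : ({x : Fin (n + 1) → ℤ | x ∈ X ∧ Dat n H x y} : Set _) ⊆
            ((bx (n + 1) B).filter fun x => ∀ i, y i ⬝ᵥ x = 0 : Finset _) := by
          rintro x ⟨hx, hD⟩
          rw [Finset.mem_coe, Finset.mem_filter, mem_bx]
          exact ⟨((hXm x).1 hx).1, hD.orth⟩
        have h4 := (Set.ncard_le_ncard h3 (Finset.finite_toSet _)).trans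
          ((Set.ncard_coe_finset _).le.trans (card_sol_le hD₀.dt B))
        have h5 : (2 * B + 1) ^ (n + 1 - s) ≤ 3 ^ (n + 1) * B ^ (k + 1) := by
          have e : n + 1 - s = k + 1 := by omega
          rw [e]
          calc (2 * B + 1) ^ (k + 1) ≤ (3 * B) ^ (k + 1) := Nat.pow_le_pow_left (by omega) _
            _ = 3 ^ (k + 1) * B ^ (k + 1) := mul_pow _ _ _
            _ ≤ 3 ^ (n + 1) * B ^ (k + 1) :=
                Nat.mul_le_mul_right _ (Nat.pow_le_pow_right (by norm_num) (by omega))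
        exact_mod_cast h4.trans h5
      refine (Finset.sum_le_sum h2).trans ?_
      rw [← Finset.mul_sum]
      exact mul_le_mul_of_nonneg_left (hS s (by omega) T fun y hy => (hT y hy).1)
        (mul_nonneg (by positivity) hB0))
  have hset : ({f : MvPolynomial (Fin (n + 1)) ℤ | f ∈ FF n d H ∧ ∃ x : Fin (n + 1) → ℤ,
      Prim x ∧ nm x ≤ B ∧ (∃ y : Fin s → Fin (n + 1) → ℤ, Dat n H x y) ∧
      eval x f = 0} : Set _) = {f | f ∈ FF n d H ∧ ∃ x ∈ X, eval x f = 0} := by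
    ext f
    constructor
    · rintro ⟨hf, x, hx, hxB, ⟨y, hy⟩, hfx⟩
      exact ⟨hf, x, (hXm x).2 ⟨hxB, hx, y, hy⟩, hfx⟩
    · rintro ⟨hf, x, hx, hfx⟩
      obtain ⟨h1, h2, y, hy⟩ := (hXm x).1 hx
      exact ⟨hf, x, h2, h1, ⟨y, hy⟩, hfx⟩
  rw [hset]
  refine h1.trans (le_of_eq ?_)
  ring

/-- points on lines which are not too small -/
theorem catC {n : ℕ} (hn : 1 ≤ n) {d : ℕ} (hd : n + 1 < d) {ε : ℝ} (hε : 0 < ε) (c : ℕ) :
    ∃ C : ℝ, 1 ≤ C ∧ ∀ H : ℕ, 1 ≤ H → ∀ s : ℕ, s + 1 = n → ∀ B W : ℕ, 1 ≤ W → W ≤ B →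
    B ≤ c * H ^ (d + 1) →
    (({f : MvPolynomial (Fin (n + 1)) ℤ | f ∈ FF n d H ∧ ∃ x : Fin (n + 1) → ℤ, Prim x ∧
      nm x ≤ B ∧ (∃ y : Fin s → Fin (n + 1) → ℤ, Dat n H x y ∧ W < om y) ∧
      eval x f = 0} : Set _).ncard : ℝ) * (H : ℝ) ^ (1 + d) * (W : ℝ) ^ (d - n) ≤
      C * EE n d H * (H : ℝ) ^ ε * ((W : ℝ) ^ ε * (B : ℝ) ^ 2) := by
  obtain ⟨C, hC1, hC⟩ := ind_bound hn d hε c
  set δ : ℝ := min ε 1 with hδ
  have hδ0 : 0 < δ := lt_min hε one_pos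
  have hδ1 : δ ≤ 1 := min_le_right _ _
  have hδε : δ ≤ ε := min_le_left _ _
  set p : ℝ := n + 1 + δ with hp
  have hpd : p ≤ d := by
    have : (n : ℝ) + 1 + 1 ≤ d := by exact_mod_cast hd
    linarith
  obtain ⟨S, hS1, hS⟩ := sum_om (m := n + 1) (Nat.succ_pos n) (p := p) (by
    rw [hp]
    push_cast
    linarith)
  set C₂ : ℝ := ((CT n * CL (n + 1) : ℕ) : ℝ) with hC₂
  have hC₂1 : 1 ≤ C₂ := by
    rw [hC₂]
    exact_mod_cast Nat.mul_pos (Nat.mul_pos (by positivity) (CL_pos _)) (CL_pos _)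
  refine ⟨C * (2 * C₂ * S), ?_, fun H hH s hs B W hW hWB hBc => ?_⟩
  · exact one_le_mul_of_one_le_of_one_le hC1 (by nlinarith)
  classical
  set X := (bx (n + 1) B).filter fun x => Prim x ∧
    ∃ y : Fin s → Fin (n + 1) → ℤ, Dat n H x y ∧ W < om y with hX
  have hXm : ∀ x, x ∈ X ↔ nm x ≤ B ∧ Prim x ∧
      ∃ y : Fin s → Fin (n + 1) → ℤ, Dat n H x y ∧ W < om y := by
    intro x
    rw [hX, Finset.mem_filter, mem_bx]
  have hWr : (1 : ℝ) ≤ W := by exact_mod_cast hW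
  have hWBr : (W : ℝ) ≤ B := by exact_mod_cast hWB
  have hW0 : (0 : ℝ) < W := by linarith
  have hB0 : (0 : ℝ) < B := by linarith
  have hWp0 : (0 : ℝ) ≤ (W : ℝ) ^ (-(1 + (d - p))) := Real.rpow_nonneg hW0.le _
  have h1 := cat (n := n) (d := d) (ε := ε) (C := C) (by linarith) (c := c) (H := H) (s := s)
    (k := 1) (fun x hx hb y hy => hC H hH x hx hb s 1 hs y hy) X (fun y => W < om y)
    (fun x hx => by
      obtain ⟨h1, h2, y, hy, hy'⟩ := (hXm x).1 hx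
      exact ⟨h2, h1.trans hBc, y, hy, hy'⟩)
    (D := 2 * C₂ * (B : ℝ) ^ 2 * (W : ℝ) ^ (-(1 + (d - p))) * S) (by
      intro T hT
      have h2 : ∀ y ∈ T, (({x : Fin (n + 1) → ℤ | x ∈ X ∧ Dat n H x y} : Set _).ncard : ℝ) *
          (om y : ℝ) ^ (-(d : ℝ)) ≤
          2 * C₂ * (B : ℝ) ^ 2 * (W : ℝ) ^ (-(1 + (d - p))) * (om y : ℝ) ^ (-p) := by
        intro y hy
        obtain ⟨-, hWo, x₀, hx₀, hD₀⟩ := hT y hy
        have h3 : ({x : Fin (n + 1) → ℤ | x ∈ X ∧ Dat n H x y} : Set _) ⊆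
            ((bx (n + 1) B).filter fun x => ∀ i, y i ⬝ᵥ x = 0 : Finset _) := by
          rintro x ⟨hx, hD⟩
          rw [Finset.mem_coe, Finset.mem_filter, mem_bx]
          exact ⟨((hXm x).1 hx).1, hD.orth⟩
        have h4 := (Set.ncard_le_ncard h3 (Finset.finite_toSet _)).trans
          (Set.ncard_coe_finset _).le
        have h5 := card_line hn hH hD₀ (by omega : s + 2 = n + 1) (hW.trans hWB)
        have h6 := (Nat.mul_le_mul_right (om y) h4).trans h5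
        have h7 : (({x : Fin (n + 1) → ℤ | x ∈ X ∧ Dat n H x y} : Set _).ncard : ℝ) *
            (om y : ℝ) ≤ C₂ * ((B : ℝ) ^ 2 + B * om y) := by
          rw [hC₂]
          exact_mod_cast h6
        generalize (({x : Fin (n + 1) → ℤ | x ∈ X ∧ Dat n H x y} : Set _).ncard : ℝ) = κ at h7
        have hWo' : (W : ℝ) ≤ om y := by exact_mod_cast hWo.le
        generalize (om y : ℝ) = o at h7 hWo'
        have ho : 0 < o := by linarith
        have e1 : o ^ (-(d : ℝ)) = o ^ (-(d - p)) * o ^ (-p) := by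
          rw [← Real.rpow_add ho]
          congr 1
          ring
        have e2 : o ^ (-(d - p)) ≤ (W : ℝ) ^ (-(d - p)) :=
          Real.rpow_le_rpow_of_nonpos hW0 hWo' (by linarith)
        have e3 : (W : ℝ) ^ (-(1 + (d - p))) = (W : ℝ)⁻¹ * (W : ℝ) ^ (-(d - p)) := by
          rw [← Real.rpow_neg_one, ← Real.rpow_add hW0]
          congr 1
          ring
        have e4 : κ ≤ 2 * C₂ * (B : ℝ) ^ 2 * (W : ℝ)⁻¹ := by
          have h8 : (B : ℝ) * o ≤ (B : ℝ) ^ 2 * (W : ℝ)⁻¹ * o := by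
            refine mul_le_mul_of_nonneg_right ?_ ho.le
            rw [← div_eq_mul_inv, le_div_iff₀ hW0, sq]
            exact mul_le_mul_of_nonneg_left hWBr hB0.le
          have h9 : (B : ℝ) ^ 2 ≤ (B : ℝ) ^ 2 * (W : ℝ)⁻¹ * o := by
            rw [← div_eq_mul_inv, div_mul_eq_mul_div, le_div_iff₀ hW0]
            exact mul_le_mul_of_nonneg_left hWo' (by positivity)
          have h10 : κ * o ≤ 2 * C₂ * (B : ℝ) ^ 2 * (W : ℝ)⁻¹ * o := by
            calc κ * o ≤ C₂ * ((B : ℝ) ^ 2 + B * o) := h7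
              _ ≤ C₂ * ((B : ℝ) ^ 2 * (W : ℝ)⁻¹ * o + (B : ℝ) ^ 2 * (W : ℝ)⁻¹ * o) :=
                  mul_le_mul_of_nonneg_left (add_le_add h9 h8) (by linarith)
              _ = _ := by ring
          exact le_of_mul_le_mul_right h10 ho
        rw [e1, e3]
        have hop : 0 ≤ o ^ (-p) := Real.rpow_nonneg ho.le _
        have hod : 0 ≤ o ^ (-(d - p)) := Real.rpow_nonneg ho.le _
        have hc0 : 0 ≤ 2 * C₂ * (B : ℝ) ^ 2 * (W : ℝ)⁻¹ :=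
          mul_nonneg (mul_nonneg (by linarith) (by positivity)) (inv_nonneg.2 hW0.le)
        calc κ * (o ^ (-(d - p)) * o ^ (-p))
            ≤ (2 * C₂ * (B : ℝ) ^ 2 * (W : ℝ)⁻¹) * (o ^ (-(d - p)) * o ^ (-p)) :=
              mul_le_mul_of_nonneg_right e4 (mul_nonneg hod hop)
          _ ≤ (2 * C₂ * (B : ℝ) ^ 2 * (W : ℝ)⁻¹) * ((W : ℝ) ^ (-(d - p)) * o ^ (-p)) :=
              mul_le_mul_of_nonneg_left (mul_le_mul_of_nonneg_right e2 hop) hc0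
          _ = _ := by ring
      refine (Finset.sum_le_sum h2).trans ?_
      rw [← Finset.mul_sum]
      refine mul_le_mul_of_nonneg_left (hS s (by omega) T fun y hy => (hT y hy).1)
        (mul_nonneg (mul_nonneg (by linarith) (by positivity)) hWp0))
  rw [one_mul] at h1
  have hset : ({f : MvPolynomial (Fin (n + 1)) ℤ | f ∈ FF n d H ∧ ∃ x : Fin (n + 1) → ℤ,
      Prim x ∧ nm x ≤ B ∧ (∃ y : Fin s → Fin (n + 1) → ℤ, Dat n H x y ∧ W < om y) ∧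
      eval x f = 0} : Set _) = {f | f ∈ FF n d H ∧ ∃ x ∈ X, eval x f = 0} := by
    ext f
    constructor
    · rintro ⟨hf, x, hx, hxB, ⟨y, hy⟩, hfx⟩
      exact ⟨hf, x, (hXm x).2 ⟨hxB, hx, y, hy⟩, hfx⟩
    · rintro ⟨hf, x, hx, hfx⟩
      obtain ⟨h1, h2, y, hy⟩ := (hXm x).1 hx
      exact ⟨hf, x, h2, h1, ⟨y, hy⟩, hfx⟩
  rw [hset]
  have hWd : (W : ℝ) ^ (-(1 + (d - p))) * (W : ℝ) ^ (d - n) ≤ (W : ℝ) ^ ε := by
    rw [← Real.rpow_natCast (W : ℝ) (d - n), ← Real.rpow_add hW0]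
    refine Real.rpow_le_rpow_of_exponent_le hWr ?_
    rw [Nat.cast_sub (by omega), hp]
    linarith
  have hEE : 0 ≤ C * EE n d H * (H : ℝ) ^ ε :=
    mul_nonneg (mul_nonneg (by linarith) (EE_pos n d H).le) (Real.rpow_nonneg (Nat.cast_nonneg H) ε)
  have hWn : (0 : ℝ) ≤ (W : ℝ) ^ (d - n) := pow_nonneg hW0.le _
  generalize (({f : MvPolynomial (Fin (n + 1)) ℤ | f ∈ FF n d H ∧ ∃ x ∈ X, eval x f = 0} :
    Set _).ncard : ℝ) * (H : ℝ) ^ (1 + d) = Q at h1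
  calc Q * (W : ℝ) ^ (d - n)
      ≤ (C * EE n d H * (H : ℝ) ^ ε * (2 * C₂ * (B : ℝ) ^ 2 * (W : ℝ) ^ (-(1 + (d - p))) * S)) *
        (W : ℝ) ^ (d - n) := mul_le_mul_of_nonneg_right h1 hWn
    _ = (C * EE n d H * (H : ℝ) ^ ε) * (2 * C₂ * S * (B : ℝ) ^ 2 *
        ((W : ℝ) ^ (-(1 + (d - p))) * (W : ℝ) ^ (d - n))) := by ring
    _ ≤ (C * EE n d H * (H : ℝ) ^ ε) * (2 * C₂ * S * (B : ℝ) ^ 2 * (W : ℝ) ^ ε) := by
        refine mul_le_mul_of_nonneg_left (mul_le_mul_of_nonneg_left hWd ?_) hEE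
        exact mul_nonneg (mul_nonneg (by linarith) (by linarith)) (by positivity)
    _ = _ := by ring

end Pool.Agent.H31.RZ
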