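import Pool.Agent.H31.RZ.Dat

/-!
# Random hypersurfaces (MP_6e60ff_nt): counting forms with zeros in a set of points
-/

namespace Pool.Agent.H31.RZ

open Finset Matrix MvPolynomial

/-- the forms vanishing at `x` -/
noncomputable def FX (n d H : ℕ) (x : Fin (n + 1) → ℤ) : Finset (MvPolynomial (Fin (n + 1)) ℤ) :=
  {f ∈ FF n d H | eval x f = 0}

/-- the number of forms, as a real number -/
noncomputable def EE (n d H : ℕ) : ℝ := ((2 * H + 1 : ℕ) : ℝ) ^ NN n d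

theorem EE_pos (n d H : ℕ) : 0 < EE n d H :=
  pow_pos (by exact_mod_cast Nat.succ_pos (2 * H)) _

/-- the bound for a single point, in natural numbers -/
theorem ind_nat {n d H : ℕ} (hn : 1 ≤ n) {x : Fin (n + 1) → ℤ} (hx : Prim x)
    {s k : ℕ} (hsk : s + k = n) {y : Fin s → Fin (n + 1) → ℤ} (hH : 1 ≤ H) (hD : Dat n H x y) :
    #(FX n d H x) * H ^ (1 + k * d) * om y ^ d ≤
      ((2 * H + 1) * ((d + 2) * (n + 1) ^ (d + 1) *
        (2 ^ #(nm x).primeFactors) ^ d)) ^ NN n d * (CL (n + 1) * n ^ n) ^ d := by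
  have hx0 := hx.ne_zero
  obtain ⟨j, hj⟩ := exists_nm hx0
  have hnx : 1 ≤ nm x := nm_pos.2 hx0
  have hxj : x j ≠ 0 := by
    intro h
    rw [h, abs_zero] at hj
    have : nm x = 0 := by exact_mod_cast hj.symm
    omega
  have hjn : (x j).natAbs = nm x := by
    rw [Int.abs_eq_natAbs] at hj
    exact_mod_cast hj
  have hval := val_bound (n := n) (d := d) (H := H) hn hx hxj fun i => by
    rw [hj]
    exact abs_le_nm x i
  rw [hjn] at hval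
  have hcnt := hD.cnt
  change #(FX n d H x) * (H + 1) ^ (1 + n * d) ≤ _ at hval
  generalize #(FX n d H x) = F at hval ⊢
  generalize 2 ^ #(nm x).primeFactors = K at hval ⊢
  generalize #(MM n H x) = M at hval hcnt
  generalize om y = o at hcnt ⊢
  generalize NN n d = N at hval ⊢
  have h1 : 0 < H ^ (s * d) := pow_pos hH _
  refine Nat.le_of_mul_le_mul_left ?_ h1
  have h2 : (M * o) ^ d ≤ (CL (n + 1) * n ^ n * H ^ s) ^ d := by
    refine Nat.pow_le_pow_left (hcnt.trans ?_) d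
    rw [mul_pow, ← mul_assoc]
    exact Nat.mul_le_mul_right _ (Nat.mul_le_mul_left _ (Nat.pow_le_pow_right hn (by omega)))
  have e1 : H ^ (1 + n * d) = H ^ (s * d) * H ^ (1 + k * d) := by
    rw [← pow_add]
    congr 1
    rw [← hsk]
    ring
  calc H ^ (s * d) * (F * H ^ (1 + k * d) * o ^ d)
      = F * H ^ (1 + n * d) * o ^ d := by
        rw [e1]
        ring
    _ ≤ F * (H + 1) ^ (1 + n * d) * o ^ d :=
        Nat.mul_le_mul_right _ (Nat.mul_le_mul_left _ (Nat.pow_le_pow_left (Nat.le_succ H) _))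
    _ ≤ ((2 * H + 1) * ((d + 2) * (n + 1) ^ (d + 1) * K ^ d)) ^ N * M ^ d * o ^ d :=
        Nat.mul_le_mul_right _ hval
    _ = ((2 * H + 1) * ((d + 2) * (n + 1) ^ (d + 1) * K ^ d)) ^ N * (M * o) ^ d := by
        rw [mul_pow M]
        ring
    _ ≤ ((2 * H + 1) * ((d + 2) * (n + 1) ^ (d + 1) * K ^ d)) ^ N *
        (CL (n + 1) * n ^ n * H ^ s) ^ d := Nat.mul_le_mul_left _ h2
    _ = H ^ (s * d) * (((2 * H + 1) * ((d + 2) * (n + 1) ^ (d + 1) * K ^ d)) ^ N *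
        (CL (n + 1) * n ^ n) ^ d) := by
        rw [mul_pow (CL (n + 1) * n ^ n), ← pow_mul]
        ring

/-- the power of two -/
theorem pow_two_bound {ε : ℝ} (hε : 0 < ε) (d N c : ℕ) : ∃ C : ℝ, 1 ≤ C ∧ ∀ q H : ℕ, 1 ≤ q →
    1 ≤ H → q ≤ c * H ^ (d + 1) →
    (((2 ^ #q.primeFactors : ℕ) : ℝ) ^ d) ^ N ≤ C * (H : ℝ) ^ ε := by
  set ε' : ℝ := ε / ((d + 1) * (d * N + 1)) with hε'
  have hε'0 : 0 < ε' := by
    rw [hε']
    positivity
  obtain ⟨C₁, hC₁, hω⟩ := two_pow_omega hε'0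
  have hcc : (1 : ℝ) ≤ (c : ℝ) + 1 := by
    have : (0 : ℝ) ≤ c := Nat.cast_nonneg c
    linarith
  refine ⟨(C₁ ^ d) ^ N * ((c : ℝ) + 1) ^ ε, ?_, fun q H hq hH hqc => ?_⟩
  · exact one_le_mul_of_one_le_of_one_le (one_le_pow₀ (one_le_pow₀ hC₁))
      (Real.one_le_rpow hcc hε.le)
  have hHr : (1 : ℝ) ≤ H := by exact_mod_cast hH
  have hKle : ((2 ^ #q.primeFactors : ℕ) : ℝ) ≤ C₁ * (q : ℝ) ^ ε' := by
    push_cast
    exact hω q hq
  have hK0 : (0 : ℝ) ≤ ((2 ^ #q.primeFactors : ℕ) : ℝ) := Nat.cast_nonneg _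
  generalize ((2 ^ #q.primeFactors : ℕ) : ℝ) = K at hKle hK0
  clear hω
  have hq0 : (0 : ℝ) ≤ (q : ℝ) := Nat.cast_nonneg q
  have hH0 : (0 : ℝ) ≤ (H : ℝ) := Nat.cast_nonneg H
  have hC₁0 : (0 : ℝ) ≤ C₁ := by linarith
  have h1 : (K ^ d) ^ N ≤ ((C₁ * (q : ℝ) ^ ε') ^ d) ^ N :=
    pow_le_pow_left₀ (pow_nonneg hK0 d) (pow_le_pow_left₀ hK0 hKle d) N
  have h2 : ((q : ℝ) ^ ε') ^ (d * N) ≤ ((c : ℝ) + 1) ^ ε * (H : ℝ) ^ ε := by
    rw [← Real.rpow_natCast, ← Real.rpow_mul hq0]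
    have hHd : (0 : ℝ) ≤ (H : ℝ) ^ (d + 1) := pow_nonneg hH0 _
    have h3 : (q : ℝ) ≤ ((c : ℝ) + 1) * (H : ℝ) ^ (d + 1) := by
      calc (q : ℝ) ≤ (c : ℝ) * (H : ℝ) ^ (d + 1) := by exact_mod_cast hqc
        _ ≤ ((c : ℝ) + 1) * (H : ℝ) ^ (d + 1) := mul_le_mul_of_nonneg_right (by linarith) hHd
    have hd0 : (0 : ℝ) ≤ d := Nat.cast_nonneg d
    have hN0 : (0 : ℝ) ≤ N := Nat.cast_nonneg N
    have hexp : ε' * ((d * N : ℕ) : ℝ) ≤ ε / (d + 1) := by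
      rw [hε']
      push_cast
      rw [div_mul_eq_mul_div, div_le_div_iff₀ (by positivity) (by positivity)]
      have h5 : (0 : ℝ) ≤ (d : ℝ) * N := mul_nonneg hd0 hN0
      have h6 : 0 ≤ ε * (d + 1) := mul_nonneg hε.le (by linarith)
      nlinarith
    have hexp0 : 0 ≤ ε' * ((d * N : ℕ) : ℝ) := mul_nonneg hε'0.le (Nat.cast_nonneg _)
    calc (q : ℝ) ^ (ε' * ((d * N : ℕ) : ℝ))
        ≤ (((c : ℝ) + 1) * (H : ℝ) ^ (d + 1)) ^ (ε' * ((d * N : ℕ) : ℝ)) :=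
          Real.rpow_le_rpow hq0 h3 hexp0
      _ ≤ (((c : ℝ) + 1) * (H : ℝ) ^ (d + 1)) ^ (ε / (d + 1)) :=
          Real.rpow_le_rpow_of_exponent_le
            (one_le_mul_of_one_le_of_one_le hcc (one_le_pow₀ hHr)) hexp
      _ = ((c : ℝ) + 1) ^ (ε / (d + 1)) * (H : ℝ) ^ ε := by
          rw [Real.mul_rpow (by linarith) hHd, ← Real.rpow_natCast (H : ℝ) (d + 1),
            ← Real.rpow_mul hH0]
          congr 2
          push_cast
          field_simp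
      _ ≤ ((c : ℝ) + 1) ^ ε * (H : ℝ) ^ ε := by
          refine mul_le_mul_of_nonneg_right ?_ (Real.rpow_nonneg hH0 _)
          refine Real.rpow_le_rpow_of_exponent_le hcc ?_
          exact div_le_self hε.le (by linarith)
  calc (K ^ d) ^ N ≤ ((C₁ * (q : ℝ) ^ ε') ^ d) ^ N := h1
    _ = (C₁ ^ d) ^ N * ((q : ℝ) ^ ε') ^ (d * N) := by
        rw [mul_pow, mul_pow, ← pow_mul ((q : ℝ) ^ ε')]
    _ ≤ (C₁ ^ d) ^ N * (((c : ℝ) + 1) ^ ε * (H : ℝ) ^ ε) :=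
        mul_le_mul_of_nonneg_left h2 (pow_nonneg (pow_nonneg hC₁0 d) N)
    _ = _ := by ring

/-- the bound for a single point -/
theorem ind_bound {n : ℕ} (hn : 1 ≤ n) (d : ℕ) {ε : ℝ} (hε : 0 < ε) (c : ℕ) :
    ∃ C : ℝ, 1 ≤ C ∧ ∀ H : ℕ, 1 ≤ H → ∀ x : Fin (n + 1) → ℤ, Prim x → nm x ≤ c * H ^ (d + 1) →
    ∀ (s k : ℕ), s + k = n → ∀ y : Fin s → Fin (n + 1) → ℤ, Dat n H x y →
    (#(FX n d H x) : ℝ) * (H : ℝ) ^ (1 + k * d) ≤
      C * EE n d H * (H : ℝ) ^ ε * (om y : ℝ) ^ (-(d : ℝ)) := by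
  obtain ⟨C₁, hC₁, hpow⟩ := pow_two_bound hε d (NN n d) c
  have hc₀ : (1 : ℝ) ≤ ((((d + 2) * (n + 1) ^ (d + 1)) ^ NN n d *
      (CL (n + 1) * n ^ n) ^ d : ℕ) : ℝ) := by
    exact_mod_cast Nat.mul_pos (pow_pos (Nat.mul_pos (by omega) (pow_pos (by omega) _)) _)
      (pow_pos (Nat.mul_pos (CL_pos _) (pow_pos hn _)) _)
  refine ⟨((((d + 2) * (n + 1) ^ (d + 1)) ^ NN n d * (CL (n + 1) * n ^ n) ^ d : ℕ) : ℝ) * C₁,
    one_le_mul_of_one_le_of_one_le hc₀ hC₁, ?_⟩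
  intro H hH x hx hxc s k hsk y hD
  have hnat := ind_nat (d := d) hn hx hsk hH hD
  have hom : (0 : ℝ) < om y := by exact_mod_cast om_pos hD.ne
  have hK := hpow (nm x) H (nm_pos.2 hx.ne_zero) hH hxc
  have hreal : (#(FX n d H x) : ℝ) * (H : ℝ) ^ (1 + k * d) * (om y : ℝ) ^ d ≤
      ((((d + 2) * (n + 1) ^ (d + 1)) ^ NN n d * (CL (n + 1) * n ^ n) ^ d : ℕ) : ℝ) *
      (EE n d H * (((2 ^ #(nm x).primeFactors : ℕ) : ℝ) ^ d) ^ NN n d) := by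
    have h1 : (#(FX n d H x) : ℝ) * (H : ℝ) ^ (1 + k * d) * (om y : ℝ) ^ d ≤
        ((((2 * H + 1) * ((d + 2) * (n + 1) ^ (d + 1) *
        (2 ^ #(nm x).primeFactors) ^ d)) ^ NN n d * (CL (n + 1) * n ^ n) ^ d : ℕ) : ℝ) := by
      exact_mod_cast hnat
    refine h1.trans (le_of_eq ?_)
    have e : ∀ (N : ℕ) (A B K D : ℝ), (A * (B * K)) ^ N * D = B ^ N * D * (A ^ N * K ^ N) := by
      intro N A B K D
      rw [mul_pow, mul_pow]
      ring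
    unfold EE
    push_cast
    exact e _ _ _ _ _
  rw [Real.rpow_neg hom.le, Real.rpow_natCast, ← div_eq_mul_inv, le_div_iff₀ (pow_pos hom d)]
  refine hreal.trans ?_
  have hE := EE_pos n d H
  generalize EE n d H = E at hE
  generalize ((((d + 2) * (n + 1) ^ (d + 1)) ^ NN n d *
      (CL (n + 1) * n ^ n) ^ d : ℕ) : ℝ) = c₀ at hc₀
  generalize (((2 ^ #(nm x).primeFactors : ℕ) : ℝ) ^ d) ^ NN n d = K at hK
  calc c₀ * (E * K) ≤ c₀ * (E * (C₁ * (H : ℝ) ^ ε)) :=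
        mul_le_mul_of_nonneg_left (mul_le_mul_of_nonneg_left hK hE.le) (by linarith)
    _ = _ := by ring

/-- the tuples used for lattice data -/
noncomputable def YY (n H s : ℕ) : Finset (Fin s → Fin (n + 1) → ℤ) :=
  Fintype.piFinset fun _ => (bx (n + 1) (4 ^ (n + 1) * (n * H))).erase 0

theorem Dat.mem_YY {n H : ℕ} {x : Fin (n + 1) → ℤ} {s : ℕ} {y : Fin s → Fin (n + 1) → ℤ}
    (h : Dat n H x y) : y ∈ YY n H s := by
  rw [YY, Fintype.mem_piFinset]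
  intro i
  rw [Finset.mem_erase, mem_bx]
  exact ⟨h.ne i, h.bd i⟩

theorem YY_ne {n H s : ℕ} {y : Fin s → Fin (n + 1) → ℤ} (h : y ∈ YY n H s) (i : Fin s) :
    y i ≠ 0 := by
  rw [YY, Fintype.mem_piFinset] at h
  exact (Finset.mem_erase.1 (h i)).1

/-- a purely formal first moment bound -/
theorem moment {α β γ : Type*} (F : Finset γ) (Z : α → Finset γ) (X : Finset α) (Y : Finset β)
    (R : α → β → Prop) (hX : ∀ x ∈ X, ∃ y ∈ Y, R x y) {h A : ℝ} (hh : 0 ≤ h) (hA : 0 ≤ A)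
    (w : β → ℝ) (hw : ∀ y, 0 ≤ w y) (hZ : ∀ x ∈ X, ∀ y ∈ Y, R x y → (#(Z x) : ℝ) * h ≤ A * w y)
    {D : ℝ} (hD : ∑ y ∈ Y, (({x | x ∈ X ∧ R x y} : Set α).ncard : ℝ) * w y ≤ D)
    (hF : ∀ f ∈ F, ∃ x ∈ X, f ∈ Z x) : (#F : ℝ) * h ≤ A * D := by
  classical
  have hcard : ∀ y : β, ({x | x ∈ X ∧ R x y} : Set α).ncard = #(X.filter fun x => R x y) := by
    intro y
    rw [← Set.ncard_coe_finset, Finset.coe_filter]
  simp only [hcard] at hD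
  have hsub : F ⊆ X.biUnion Z := by
    intro f hf
    obtain ⟨x, hx, hfx⟩ := hF f hf
    exact Finset.mem_biUnion.2 ⟨x, hx, hfx⟩
  have h1 : (#F : ℝ) ≤ ∑ x ∈ X, (#(Z x) : ℝ) := by
    exact_mod_cast (Finset.card_le_card hsub).trans Finset.card_biUnion_le
  have h2 : ∀ x ∈ X, (#(Z x) : ℝ) * h ≤ ∑ y ∈ Y, if R x y then A * w y else 0 := by
    intro x hx
    obtain ⟨y, hy, hR⟩ := hX x hx
    refine (hZ x hx y hy hR).trans ?_
    refine le_trans (le_of_eq ?_) (Finset.single_le_sum (f := fun y => if R x y then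
      A * w y else 0) ?_ hy)
    · rw [if_pos hR]
    · intro z _
      split_ifs
      · exact mul_nonneg hA (hw z)
      · exact le_rfl
  calc (#F : ℝ) * h ≤ (∑ x ∈ X, (#(Z x) : ℝ)) * h := mul_le_mul_of_nonneg_right h1 hh
    _ = ∑ x ∈ X, (#(Z x) : ℝ) * h := by rw [Finset.sum_mul]
    _ ≤ ∑ x ∈ X, ∑ y ∈ Y, (if R x y then A * w y else 0) := Finset.sum_le_sum h2
    _ = ∑ y ∈ Y, ∑ x ∈ X, (if R x y then A * w y else 0) := Finset.sum_comm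
    _ = ∑ y ∈ Y, A * ((#(X.filter fun x => R x y) : ℝ) * w y) := by
        refine Finset.sum_congr rfl fun y _ => ?_
        rw [← Finset.sum_filter, Finset.sum_const, nsmul_eq_mul]
        ring
    _ = A * ∑ y ∈ Y, ((#(X.filter fun x => R x y) : ℝ) * w y) := by rw [Finset.mul_sum]
    _ ≤ A * D := mul_le_mul_of_nonneg_left hD hA

/-- the general first moment bound -/
theorem cat {n d : ℕ} {ε C : ℝ} (hC0 : 0 ≤ C) {c H : ℕ} {s k : ℕ}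
    (hC : ∀ x : Fin (n + 1) → ℤ, Prim x → nm x ≤ c * H ^ (d + 1) →
      ∀ y : Fin s → Fin (n + 1) → ℤ, Dat n H x y →
      (#(FX n d H x) : ℝ) * (H : ℝ) ^ (1 + k * d) ≤
        C * EE n d H * (H : ℝ) ^ ε * (om y : ℝ) ^ (-(d : ℝ)))
    (X : Finset (Fin (n + 1) → ℤ)) (G : (Fin s → Fin (n + 1) → ℤ) → Prop)
    (hX : ∀ x ∈ X, Prim x ∧ nm x ≤ c * H ^ (d + 1) ∧
      ∃ y : Fin s → Fin (n + 1) → ℤ, Dat n H x y ∧ G y) {D : ℝ}
    (hD : ∀ T : Finset (Fin s → Fin (n + 1) → ℤ), (∀ y ∈ T, (∀ i, y i ≠ 0) ∧ G y ∧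
      ∃ x ∈ X, Dat n H x y) →
      ∑ y ∈ T, (({x : Fin (n + 1) → ℤ | x ∈ X ∧ Dat n H x y} : Set _).ncard : ℝ) *
        (om y : ℝ) ^ (-(d : ℝ)) ≤ D) :
    (({f : MvPolynomial (Fin (n + 1)) ℤ | f ∈ FF n d H ∧ ∃ x ∈ X, eval x f = 0} : Set _).ncard :
      ℝ) * (H : ℝ) ^ (1 + k * d) ≤ C * EE n d H * (H : ℝ) ^ ε * D := by
  classical
  have hcardf : ({f : MvPolynomial (Fin (n + 1)) ℤ | f ∈ FF n d H ∧
      ∃ x ∈ X, eval x f = 0} : Set _).ncard =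
      #((FF n d H).filter fun f => ∃ x ∈ X, eval x f = 0) := by
    rw [← Set.ncard_coe_finset, Finset.coe_filter]
  rw [hcardf]
  refine moment _ (fun x => FX n d H x) X
    ((YY n H s).filter fun y => G y ∧ ∃ x ∈ X, Dat n H x y) (fun x y => Dat n H x y) ?_
    (pow_nonneg (Nat.cast_nonneg H) _)
    (mul_nonneg (mul_nonneg hC0 (EE_pos n d H).le) (Real.rpow_nonneg (Nat.cast_nonneg H) ε))
    (fun y => (om y : ℝ) ^ (-(d : ℝ))) (fun y => Real.rpow_nonneg (Nat.cast_nonneg _) _) ?_ ?_ ?_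
  · intro x hx
    obtain ⟨-, -, y, hy, hG⟩ := hX x hx
    exact ⟨y, Finset.mem_filter.2 ⟨hy.mem_YY, hG, x, hx, hy⟩, hy⟩
  · intro x hx y _ hxy
    obtain ⟨hp, hb, -⟩ := hX x hx
    exact hC x hp hb y hxy
  · refine hD _ fun y hy => ?_
    rw [Finset.mem_filter] at hy
    exact ⟨YY_ne hy.1, hy.2⟩
  · intro f hf
    rw [Finset.mem_filter] at hf
    obtain ⟨hf1, x, hx, hfx⟩ := hf
    exact ⟨x, hx, Finset.mem_filter.2 ⟨hf1, hfx⟩⟩

end Pool.Agent.H31.RZ
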