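import Pool.Agent.H31.RZ.Basic

/-!
# Random hypersurfaces (MP_6e60ff_nt): the number of points of a lattice in a box
-/

namespace Pool.Agent.H31.RZ

open Finset Matrix

/-- the constant of the lattice lemma -/
def CL (m : ℕ) : ℕ := 3 ^ m * 4 ^ (m * m)

/-- projection along `a`, killing the coordinate `k` -/
def pj {m : ℕ} (a : Fin (m + 1) → ℤ) (k : Fin (m + 1)) :
    (Fin (m + 1) → ℤ) →+ (Fin m → ℤ) where
  toFun z := fun j => a k * z (k.succAbove j) - z k * a (k.succAbove j)
  map_zero' := by
    ext j
    simp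
  map_add' := by
    intro x y
    ext j
    simp only [Pi.add_apply]
    ring

theorem pj_apply {m : ℕ} (a : Fin (m + 1) → ℤ) (k : Fin (m + 1)) (z : Fin (m + 1) → ℤ)
    (j : Fin m) : pj a k z j = a k * z (k.succAbove j) - z k * a (k.succAbove j) := rfl

theorem pj_self {m : ℕ} (a : Fin (m + 1) → ℤ) (k : Fin (m + 1)) : pj a k a = 0 := by
  ext j
  rw [pj_apply]
  simp

theorem near (z a : ℤ) (ha : a ≠ 0) : ∃ q : ℤ, 2 * |z - q * a| ≤ |a| := by
  refine ⟨round ((z : ℚ) / a), ?_⟩
  have h1 := abs_sub_round ((z : ℚ) / a)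
  have ha' : (a : ℚ) ≠ 0 := by exact_mod_cast ha
  have h2 : ((z : ℚ) - round ((z : ℚ) / a) * a) = (z / a - round ((z : ℚ) / a)) * a := by
    field_simp
  have h3 : (2 : ℚ) * |(z : ℚ) - round ((z : ℚ) / a) * a| ≤ |(a : ℚ)| := by
    rw [h2, abs_mul]
    nlinarith [abs_nonneg (a : ℚ), abs_nonneg ((z : ℚ) / a - round ((z : ℚ) / a))]
  exact_mod_cast h3

theorem dot_pj {m : ℕ} (a : Fin (m + 1) → ℤ) (k : Fin (m + 1)) (z x : Fin (m + 1) → ℤ) :
    pj a k z ⬝ᵥ (fun j => x (k.succAbove j)) = a k * (z ⬝ᵥ x) - z k * (a ⬝ᵥ x) := by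
  unfold dotProduct
  rw [Fin.sum_univ_succAbove _ k, Fin.sum_univ_succAbove (fun i => a i * x i) k]
  simp only [pj_apply, sub_mul, Finset.sum_sub_distrib, mul_add, Finset.mul_sum]
  have h1 : ∑ j : Fin m, a k * z (k.succAbove j) * x (k.succAbove j) =
      ∑ j : Fin m, a k * (z (k.succAbove j) * x (k.succAbove j)) :=
    Finset.sum_congr rfl fun j _ => by ring
  have h2 : ∑ j : Fin m, z k * a (k.succAbove j) * x (k.succAbove j) =
      ∑ j : Fin m, z k * (a (k.succAbove j) * x (k.succAbove j)) :=
    Finset.sum_congr rfl fun j _ => by ring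
  rw [h1, h2]
  ring

/-- a shortest vector and the reduction of the other vectors -/
theorem red {m : ℕ} {Λ : AddSubgroup (Fin (m + 1) → ℤ)} {a : Fin (m + 1) → ℤ}
    {k : Fin (m + 1)} (ha : a ∈ Λ) (hk : a k ≠ 0) {z : Fin (m + 1) → ℤ} (hz : z ∈ Λ) :
    ∃ z' ∈ Λ, pj a k z' = pj a k z ∧ 2 * |z' k| ≤ |a k| ∧ ∃ q : ℤ, z = z' + q • a := by
  obtain ⟨q, hq⟩ := near (z k) (a k) hk
  refine ⟨z - q • a, Λ.sub_mem hz (Λ.zsmul_mem ha q), ?_, ?_, q, by abel⟩
  · rw [map_sub, map_zsmul, pj_self, smul_zero, sub_zero]
  · simpa using hq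

theorem card_fib {m : ℕ} {Λ : AddSubgroup (Fin (m + 1) → ℤ)} {a : Fin (m + 1) → ℤ}
    {k : Fin (m + 1)} (ha : a ∈ Λ) (hk : |a k| = nm a) (ha0 : a ≠ 0)
    (hmin : ∀ z ∈ Λ, z ≠ 0 → nm a ≤ nm z) (R : ℕ) (hR : nm a ≤ R)
    (S : Finset (Fin (m + 1) → ℤ)) (hS : ∀ z ∈ S, z ∈ Λ ∧ nm z ≤ R)
    (hpj : ∀ z ∈ S, ∀ z' ∈ S, pj a k z = pj a k z') : #S * nm a ≤ 3 * R := by
  have hh : 1 ≤ nm a := nm_pos.2 ha0
  have hak : a k ≠ 0 := by
    intro h
    rw [h, abs_zero] at hk
    have : nm a = 0 := by exact_mod_cast hk.symm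
    omega
  have h1 : #(S ×ˢ Finset.range (nm a)) ≤ #(Finset.Icc (-(R : ℤ)) (R + nm a - 1)) := by
    refine Finset.card_le_card_of_injOn (fun p => p.1 k + p.2) ?_ ?_
    · rintro ⟨z, j⟩ hp
      rw [Finset.mem_coe, Finset.mem_product, Finset.mem_range] at hp
      rw [Finset.mem_coe, Finset.mem_Icc]
      have h2 : |z k| ≤ (R : ℤ) := (abs_le_nm z k).trans (by exact_mod_cast (hS z hp.1).2)
      rw [abs_le] at h2
      have h3 : (j : ℤ) + 1 ≤ nm a := by exact_mod_cast hp.2
      simp only
      constructor <;> omega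
    · rintro ⟨z, j⟩ hp ⟨z', j'⟩ hp' he
      rw [Finset.mem_coe, Finset.mem_product, Finset.mem_range] at hp hp'
      simp only at he hp hp'
      have hw : z - z' = 0 := by
        obtain ⟨w, hw, hpw, hwk, q, hq⟩ := red ha hak (Λ.sub_mem (hS z hp.1).1 (hS z' hp'.1).1)
        have h2 : pj a k w = 0 := by
          rw [hpw, map_sub, hpj z hp.1 z' hp'.1, sub_self]
        have h3 : w = 0 := by
          by_contra hw0
          have h4 := hmin w hw hw0
          obtain ⟨i, hi⟩ := exists_nm hw0
          have h5 : |w i| ≤ |w k| := by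
            rcases Fin.eq_self_or_eq_succAbove k i with rfl | ⟨j, rfl⟩
            · exact le_rfl
            · have h6 := congrFun h2 j
              rw [pj_apply, Pi.zero_apply, sub_eq_zero] at h6
              have h7 : |a k| * |w (k.succAbove j)| ≤ |a k| * |w k| := by
                rw [← abs_mul, h6, abs_mul, mul_comm]
                refine mul_le_mul_of_nonneg_right ?_ (abs_nonneg _)
                rw [hk]
                exact abs_le_nm a _
              exact le_of_mul_le_mul_left h7 (abs_pos.2 hak)
          have h8 : (nm a : ℤ) ≤ nm w := by exact_mod_cast h4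
          have h9 : (1 : ℤ) ≤ nm a := by exact_mod_cast hh
          rw [← hi] at h8
          rw [hk] at hwk
          omega
        rw [h3, zero_add] at hq
        have h4 : |(z - z') k| < nm a := by
          have h5 : (z - z') k = j' - j := by
            rw [Pi.sub_apply]
            linarith
          rw [h5, abs_lt]
          constructor <;> omega
        rw [hq] at h4 ⊢
        rw [Pi.smul_apply, smul_eq_mul, abs_mul, hk] at h4
        have h9 : (1 : ℤ) ≤ nm a := by exact_mod_cast hh
        have h10 : q = 0 := by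
          by_contra hq0
          have h11 : 1 ≤ |q| := Int.one_le_abs hq0
          nlinarith
        rw [h10, zero_smul]
      have hz : z = z' := sub_eq_zero.1 hw
      subst hz
      have : j = j' := by
        have : (j : ℤ) = j' := by linarith
        exact_mod_cast this
      rw [this]
  rw [Finset.card_product, Finset.card_range, Int.card_Icc] at h1
  refine h1.trans ?_
  omega

theorem ll (m : ℕ) : ∀ (Λ : AddSubgroup (Fin m → ℤ)) (R : ℕ),
    ∃ (s : ℕ) (y : Fin s → Fin m → ℤ), (∀ i, y i ∈ Λ) ∧ (∀ i, nm (y i) ≤ 4 ^ m * R) ∧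
    (∀ i, y i ≠ 0) ∧ Dt y ∧ (∀ c : Fin s → ℤ, ∑ i, c i • y i = 0 → c = 0) ∧
    ∀ S : Finset (Fin m → ℤ), (∀ z ∈ S, z ∈ Λ ∧ nm z ≤ R) →
    #S * ∏ i, nm (y i) ≤ CL m * R ^ s := by
  classical
  induction m with
  | zero =>
    intro Λ R
    refine ⟨0, Fin.elim0, fun i => i.elim0, fun i => i.elim0, fun i => i.elim0,
      ⟨∅, by simp, fun x _ _ => Subsingleton.elim _ _⟩, fun c _ => Subsingleton.elim _ _, ?_⟩
    intro S _
    have h1 : #S ≤ 1 := Finset.card_le_one.2 fun a _ b _ => Subsingleton.elim _ _
    simpa [CL] using h1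
  | succ m ih =>
    intro Λ R
    by_cases hS : ∀ z ∈ Λ, nm z ≤ R → z = 0
    · refine ⟨0, Fin.elim0, fun i => i.elim0, fun i => i.elim0, fun i => i.elim0,
        ⟨Finset.univ, by simp, fun x _ h => funext fun j => h j (Finset.mem_univ j)⟩,
        fun c _ => Subsingleton.elim _ _, ?_⟩
      intro S hS'
      have h1 : #S ≤ 1 := Finset.card_le_one.2 fun a ha b hb => by
        rw [hS a (hS' a ha).1 (hS' a ha).2, hS b (hS' b hb).1 (hS' b hb).2]
      have h2 : 1 ≤ CL (m + 1) := Nat.mul_pos (by positivity) (by positivity)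
      simpa using h1.trans h2
    · push Not at hS
      obtain ⟨a₁, ha₁, haR, ha₀⟩ := hS
      obtain ⟨a, ha, hmina⟩ := Finset.exists_min_image
        ((bx (m + 1) R).filter fun z => z ∈ Λ ∧ z ≠ 0) nm
        ⟨a₁, Finset.mem_filter.2 ⟨mem_bx.2 haR, ha₁, ha₀⟩⟩
      rw [Finset.mem_filter, mem_bx] at ha
      obtain ⟨haR', haΛ, ha0⟩ := ha
      have hmin : ∀ z ∈ Λ, z ≠ 0 → nm a ≤ nm z := by
        intro z hz hz0
        rcases le_total (nm z) R with h | h
        · exact hmina z (Finset.mem_filter.2 ⟨mem_bx.2 h, hz, hz0⟩)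
        · exact haR'.trans h
      obtain ⟨k, hk⟩ := exists_nm ha0
      have hh : 1 ≤ nm a := nm_pos.2 ha0
      have hak : a k ≠ 0 := by
        intro h
        rw [h, abs_zero] at hk
        have : nm a = 0 := by exact_mod_cast hk.symm
        omega
      have hR0 : 0 < R := by omega
      obtain ⟨s, zb, hzb1, hzb2, hzb0, ⟨J, hJ, hdet⟩, hli, hcount⟩ := ih (Λ.map (pj a k)) (2 * nm a * R)
      have hex : ∀ i, ∃ z ∈ Λ, pj a k z = zb i ∧ 2 * |z k| ≤ |a k| := by
        intro i
        obtain ⟨z, hz, hzi⟩ := AddSubgroup.mem_map.1 (hzb1 i)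
        obtain ⟨z', hz', h1, h2, -⟩ := red haΛ hak hz
        exact ⟨z', hz', h1.trans hzi, h2⟩
      choose z hzΛ hzp hzk using hex
      have hz0 : ∀ i, z i ≠ 0 := by
        intro i h
        apply hzb0 i
        rw [← hzp, h, map_zero]
      have hnm : ∀ i, nm a * nm (z i) ≤ 2 * nm (zb i) := by
        intro i
        have h1 := hmin (z i) (hzΛ i) (hz0 i)
        obtain ⟨l, hl⟩ := exists_nm (hz0 i)
        have h2 : 2 * ((nm a : ℤ) * |z i l|) ≤ 2 * nm (zb i) + nm a * nm a := by
          rcases Fin.eq_self_or_eq_succAbove k l with rfl | ⟨j, rfl⟩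
          · have h3 := hzk i
            rw [hk] at h3
            have h4 : (0 : ℤ) ≤ nm (zb i) := by positivity
            have h5 : (0 : ℤ) ≤ nm a := by positivity
            nlinarith
          · have h3 := hzk i
            rw [hk] at h3
            have h4 := congrFun (hzp i) j
            rw [pj_apply] at h4
            have h5 : a k * z i (k.succAbove j) = zb i j + z i k * a (k.succAbove j) := by
              linarith
            have h6 : (nm a : ℤ) * |z i (k.succAbove j)| ≤ nm (zb i) + |z i k| * nm a := by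
              rw [← hk, ← abs_mul, h5]
              refine (abs_add_le _ _).trans (add_le_add (abs_le_nm _ _) ?_)
              rw [abs_mul, hk]
              exact mul_le_mul_of_nonneg_left (abs_le_nm _ _) (abs_nonneg _)
            have h7 : (0 : ℤ) ≤ nm a := by positivity
            nlinarith
        rw [hl] at h2
        have h3 : 2 * (nm a * nm (z i)) ≤ 2 * nm (zb i) + nm a * nm a := by exact_mod_cast h2
        have h4 : nm a * nm a ≤ nm a * nm (z i) := Nat.mul_le_mul_left _ h1
        omega
      refine ⟨s + 1, Fin.cons a z, ?_, ?_, ?_, ?_, ?_, ?_⟩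
      · intro i
        refine Fin.cases ?_ (fun j => ?_) i
        · exact haΛ
        · exact hzΛ j
      · intro i
        refine Fin.cases ?_ (fun j => ?_) i
        · rw [Fin.cons_zero]
          exact haR'.trans (Nat.le_mul_of_pos_left R (by positivity))
        · rw [Fin.cons_succ]
          have h1 := hnm j
          have h2 := hzb2 j
          have h3 : nm a * nm (z j) ≤ nm a * (4 ^ (m + 1) * R) := by
            calc nm a * nm (z j) ≤ 2 * nm (zb j) := h1
              _ ≤ 2 * (4 ^ m * (2 * nm a * R)) := Nat.mul_le_mul_left 2 h2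
              _ = nm a * (4 ^ (m + 1) * R) := by ring
          exact Nat.le_of_mul_le_mul_left h3 hh
      · intro i
        refine Fin.cases ?_ (fun j => ?_) i
        · exact ha0
        · exact hz0 j
      · refine ⟨J.map ⟨k.succAbove, Fin.succAbove_right_injective⟩, ?_, ?_⟩
        · rw [Finset.card_map]
          omega
        · intro x hx hxJ
          have hax : a ⬝ᵥ x = 0 := hx 0
          have h1 : (fun j => x (k.succAbove j)) = 0 := by
            apply hdet
            · intro i
              have hzx : z i ⬝ᵥ x = 0 := hx i.succ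
              rw [← hzp i, dot_pj, hax, hzx]
              ring
            · intro j hj
              exact hxJ _ (Finset.mem_map_of_mem ⟨k.succAbove, Fin.succAbove_right_injective⟩ hj)
          have h2 : ∀ j, x (k.succAbove j) = 0 := fun j => congrFun h1 j
          have h3 : x k = 0 := by
            unfold dotProduct at hax
            rw [Fin.sum_univ_succAbove _ k] at hax
            simp only [h2, mul_zero, Finset.sum_const_zero, add_zero] at hax
            exact (mul_eq_zero.1 hax).resolve_left hak
          funext l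
          rcases Fin.eq_self_or_eq_succAbove k l with rfl | ⟨j, rfl⟩
          · exact h3
          · exact h2 j
      · intro c hc
        rw [Fin.sum_univ_succ] at hc
        simp only [Fin.cons_zero, Fin.cons_succ] at hc
        have h1 : ∑ i, c i.succ • zb i = 0 := by
          have h2 := congrArg (pj a k) hc
          rw [map_add, map_zsmul, pj_self, smul_zero, zero_add, map_sum, map_zero] at h2
          rw [← h2]
          refine Finset.sum_congr rfl fun i _ => ?_
          rw [map_zsmul, hzp]
        have h2 := hli _ h1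
        have h3 : ∀ i : Fin s, c i.succ = 0 := fun i => congrFun h2 i
        simp only [h3, zero_smul, Finset.sum_const_zero, add_zero] at hc
        have h4 : c 0 = 0 := (smul_eq_zero.1 hc).resolve_right ha0
        funext i
        refine Fin.cases ?_ (fun j => ?_) i
        · exact h4
        · exact h3 j
      · intro S hSS
        rw [Fin.prod_univ_succ]
        simp only [Fin.cons_zero, Fin.cons_succ]
        set Sb : Finset (Fin m → ℤ) := S.image (pj a k) with hSb
        have hfib : #S * nm a ≤ 3 * R * #Sb := by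
          have h1 : #S ≤ (3 * R / nm a) * #Sb := by
            refine Finset.card_le_mul_card_image S _ ?_
            intro b _
            rw [Nat.le_div_iff_mul_le hh]
            refine card_fib haΛ hk ha0 hmin R haR' _ ?_ ?_
            · intro w hw
              exact hSS w (Finset.mem_filter.1 hw).1
            · intro w hw w' hw'
              rw [(Finset.mem_filter.1 hw).2, (Finset.mem_filter.1 hw').2]
          calc #S * nm a ≤ (3 * R / nm a) * #Sb * nm a := Nat.mul_le_mul_right _ h1
            _ = (3 * R / nm a) * nm a * #Sb := by ring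
            _ ≤ 3 * R * #Sb := Nat.mul_le_mul_right _ (Nat.div_mul_le_self _ _)
        have hcb := hcount Sb (by
          intro w hw
          obtain ⟨w', hw', rfl⟩ := Finset.mem_image.1 hw
          refine ⟨AddSubgroup.mem_map_of_mem _ (hSS w' hw').1, ?_⟩
          rw [nm_le_iff]
          intro j
          rw [pj_apply]
          have h1 : ∀ l, |w' l| ≤ (R : ℤ) := fun l =>
            (abs_le_nm w' l).trans (by exact_mod_cast (hSS w' hw').2)
          refine (abs_sub _ _).trans ?_
          rw [abs_mul, abs_mul, hk]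
          have h2 : (nm a : ℤ) * |w' (k.succAbove j)| ≤ nm a * R :=
            mul_le_mul_of_nonneg_left (h1 _) (by positivity)
          have h3 : |w' k| * |a (k.succAbove j)| ≤ R * nm a :=
            mul_le_mul (h1 k) (abs_le_nm _ _) (abs_nonneg _) (by positivity)
          push_cast
          linarith)
        have hprod : nm a ^ s * ∏ i, nm (z i) ≤ 2 ^ s * ∏ i, nm (zb i) := by
          have h1 : ∀ i ∈ (Finset.univ : Finset (Fin s)), nm a * nm (z i) ≤ 2 * nm (zb i) :=
            fun i _ => hnm i
          have h2 := Finset.prod_le_prod' h1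
          rw [Finset.prod_mul_distrib, Finset.prod_mul_distrib, Finset.prod_const,
            Finset.prod_const, Finset.card_univ, Fintype.card_fin] at h2
          exact h2
        have hsm : s ≤ m := by omega
        have hpos : 0 < nm a ^ s := by positivity
        refine Nat.le_of_mul_le_mul_left ?_ hpos
        calc nm a ^ s * (#S * (nm a * ∏ i, nm (z i)))
            = (#S * nm a) * (nm a ^ s * ∏ i, nm (z i)) := by ring
          _ ≤ (3 * R * #Sb) * (2 ^ s * ∏ i, nm (zb i)) := Nat.mul_le_mul hfib hprod
          _ = 3 * R * 2 ^ s * (#Sb * ∏ i, nm (zb i)) := by ring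
          _ ≤ 3 * R * 2 ^ s * (CL m * (2 * nm a * R) ^ s) := Nat.mul_le_mul_left _ hcb
          _ = nm a ^ s * (3 * 4 ^ s * CL m * R ^ (s + 1)) := by
            have h4 : (4 : ℕ) ^ s = 2 ^ s * 2 ^ s := by
              rw [← mul_pow]
              norm_num
            rw [h4, mul_pow, mul_pow, pow_succ]
            ring
          _ ≤ nm a ^ s * (CL (m + 1) * R ^ (s + 1)) := by
            refine Nat.mul_le_mul_left _ (Nat.mul_le_mul_right _ ?_)
            unfold CL
            calc 3 * 4 ^ s * (3 ^ m * 4 ^ (m * m)) = 3 ^ (m + 1) * 4 ^ (m * m + s) := by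
                  rw [pow_succ, pow_add]
                  ring
              _ ≤ 3 ^ (m + 1) * 4 ^ ((m + 1) * (m + 1)) := by
                  refine Nat.mul_le_mul_left _ (Nat.pow_le_pow_right (by norm_num) ?_)
                  nlinarith

end Pool.Agent.H31.RZ
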