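import Pool.Agent.H31.RZ.Basic

/-!
# Random hypersurfaces (MP_6e60ff_nt): the sum of the powers of the norms
-/

namespace Pool.Agent.H31.RZ

open Finset Matrix

/-- the product of the norms -/
noncomputable def om {s m : ℕ} (y : Fin s → Fin m → ℤ) : ℕ := ∏ i, nm (y i)

theorem om_pos {s m : ℕ} {y : Fin s → Fin m → ℤ} (h : ∀ i, y i ≠ 0) : 1 ≤ om y :=
  Finset.one_le_prod' fun i _ => nm_pos.2 (h i)

theorem sum_nm {m : ℕ} (hm : 0 < m) {p : ℝ} (hp : m < p) : ∃ S : ℝ, 1 ≤ S ∧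
    ∀ T : Finset (Fin m → ℤ), (∀ y ∈ T, y ≠ 0) → ∑ y ∈ T, (nm y : ℝ) ^ (-p) ≤ S := by
  have hm' : (0 : ℝ) < m := by exact_mod_cast hm
  have hr : 1 < p / m := by rwa [one_lt_div hm']
  have hsum := Real.summable_abs_int_rpow hr
  set a : ℤ → ℝ := fun t => if t = 0 then 1 else |(t : ℝ)| ^ (-(p / m)) with ha
  have ha0 : ∀ t, 0 ≤ a t := by
    intro t
    simp only [ha]
    split_ifs
    · exact zero_le_one
    · positivity
  set A : ℝ := 1 + ∑' t : ℤ, |(t : ℝ)| ^ (-(p / m)) with hA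
  have hA1 : 1 ≤ A := by
    rw [hA]
    have : 0 ≤ ∑' t : ℤ, |(t : ℝ)| ^ (-(p / m)) := tsum_nonneg fun t => by positivity
    linarith
  have hbound : ∀ U : Finset ℤ, ∑ t ∈ U, a t ≤ A := by
    intro U
    have h1 : ∀ t ∈ U, a t ≤ (if t = 0 then 1 else 0) + |(t : ℝ)| ^ (-(p / m)) := by
      intro t _
      simp only [ha]
      split_ifs with h
      · have : (0 : ℝ) ≤ |(t : ℝ)| ^ (-(p / m)) := by positivity
        linarith
      · linarith
    refine (Finset.sum_le_sum h1).trans ?_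
    rw [Finset.sum_add_distrib, hA]
    refine add_le_add ?_ (hsum.sum_le_tsum U fun t _ => by positivity)
    rw [Finset.sum_ite_eq']
    split_ifs
    · exact le_rfl
    · exact zero_le_one
  refine ⟨A ^ m, one_le_pow₀ hA1, fun T hT => ?_⟩
  have hle : ∀ y ∈ T, (nm y : ℝ) ^ (-p) ≤ ∏ i, a (y i) := by
    intro y hy
    have h1 : 1 ≤ nm y := nm_pos.2 (hT y hy)
    have h1' : (1 : ℝ) ≤ nm y := by exact_mod_cast h1
    have h2 : (nm y : ℝ) ^ (-p) = ∏ _i : Fin m, (nm y : ℝ) ^ (-(p / m)) := by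
      rw [Finset.prod_const, Finset.card_univ, Fintype.card_fin, ← Real.rpow_natCast,
        ← Real.rpow_mul (by positivity)]
      congr 1
      field_simp
    rw [h2]
    refine Finset.prod_le_prod (fun i _ => by positivity) fun i _ => ?_
    simp only [ha]
    split_ifs with h
    · exact Real.rpow_le_one_of_one_le_of_nonpos h1' (by linarith)
    · have h3 : (0 : ℝ) < |(y i : ℝ)| := by
        rw [abs_pos]
        exact_mod_cast h
      refine Real.rpow_le_rpow_of_nonpos h3 ?_ (by linarith)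
      have h4 := abs_le_nm y i
      exact_mod_cast h4
  classical
  set U : Finset ℤ := T.biUnion fun y => Finset.univ.image y with hU
  have hTU : T ⊆ Fintype.piFinset fun _ => U := by
    intro y hy
    rw [Fintype.mem_piFinset]
    intro i
    exact Finset.mem_biUnion.2 ⟨y, hy, Finset.mem_image_of_mem y (Finset.mem_univ i)⟩
  calc ∑ y ∈ T, (nm y : ℝ) ^ (-p) ≤ ∑ y ∈ T, ∏ i, a (y i) := Finset.sum_le_sum hle
    _ ≤ ∑ y ∈ Fintype.piFinset fun _ => U, ∏ i, a (y i) :=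
        Finset.sum_le_sum_of_subset_of_nonneg hTU fun y _ _ =>
          Finset.prod_nonneg fun i _ => ha0 _
    _ = ∏ _i : Fin m, ∑ t ∈ U, a t := (Finset.prod_univ_sum (fun _ => U) fun _ t => a t).symm
    _ = (∑ t ∈ U, a t) ^ m := by rw [Finset.prod_const, Finset.card_univ, Fintype.card_fin]
    _ ≤ A ^ m := pow_le_pow_left₀ (Finset.sum_nonneg fun t _ => ha0 t) (hbound U) m

theorem sum_om {m : ℕ} (hm : 0 < m) {p : ℝ} (hp : m < p) : ∃ S : ℝ, 1 ≤ S ∧
    ∀ (s : ℕ), s ≤ m → ∀ T : Finset (Fin s → Fin m → ℤ), (∀ y ∈ T, ∀ i, y i ≠ 0) →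
    ∑ y ∈ T, (om y : ℝ) ^ (-p) ≤ S := by
  classical
  obtain ⟨S, hS1, hS⟩ := sum_nm hm hp
  refine ⟨S ^ m, one_le_pow₀ hS1, fun s hsm T hT => ?_⟩
  set U : Finset (Fin m → ℤ) := T.biUnion fun y => Finset.univ.image y with hU
  have hU0 : ∀ z ∈ U, z ≠ 0 := by
    intro z hz
    obtain ⟨y, hy, hz⟩ := Finset.mem_biUnion.1 hz
    obtain ⟨i, -, rfl⟩ := Finset.mem_image.1 hz
    exact hT y hy i
  have hTU : T ⊆ Fintype.piFinset fun _ => U := by
    intro y hy
    rw [Fintype.mem_piFinset]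
    intro i
    exact Finset.mem_biUnion.2 ⟨y, hy, Finset.mem_image_of_mem y (Finset.mem_univ i)⟩
  have hprod : ∀ y : Fin s → Fin m → ℤ, (om y : ℝ) ^ (-p) = ∏ i, (nm (y i) : ℝ) ^ (-p) := by
    intro y
    unfold om
    push_cast
    rw [Real.finsetProd_rpow _ _ fun i _ => by positivity]
  calc ∑ y ∈ T, (om y : ℝ) ^ (-p) ≤ ∑ y ∈ Fintype.piFinset fun _ => U, (om y : ℝ) ^ (-p) :=
        Finset.sum_le_sum_of_subset_of_nonneg hTU fun y _ _ => by positivity
    _ = ∑ y ∈ Fintype.piFinset fun _ => U, ∏ i, (nm (y i) : ℝ) ^ (-p) :=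
        Finset.sum_congr rfl fun y _ => hprod y
    _ = ∏ _i : Fin s, ∑ z ∈ U, (nm z : ℝ) ^ (-p) :=
        (Finset.prod_univ_sum (fun _ => U) fun _ z => (nm z : ℝ) ^ (-p)).symm
    _ = (∑ z ∈ U, (nm z : ℝ) ^ (-p)) ^ s := by
        rw [Finset.prod_const, Finset.card_univ, Fintype.card_fin]
    _ ≤ S ^ s := pow_le_pow_left₀ (Finset.sum_nonneg fun t _ => by positivity) (hS U hU0) s
    _ ≤ S ^ m := pow_le_pow_right₀ hS1 hsm

end Pool.Agent.H31.RZ
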