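import Pool.Agent.H31.RZ.Val
import Pool.Agent.H31.RZ.LL
import Pool.Agent.H31.RZ.Sum

/-!
# Random hypersurfaces (MP_6e60ff_nt): primitive vectors, lattice data of a point, lines
-/

namespace Pool.Agent.H31.RZ

open Finset Matrix

/-- the solutions of a system of linear equations -/
def sol {m s : ℕ} (y : Fin s → Fin m → ℤ) : AddSubgroup (Fin m → ℤ) where
  carrier := {x | ∀ i, y i ⬝ᵥ x = 0}
  add_mem' := by
    intro a b ha hb i
    rw [dotProduct_add, ha i, hb i, add_zero]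
  zero_mem' := fun i => dotProduct_zero _
  neg_mem' := by
    intro a ha i
    rw [dotProduct_neg, ha i, neg_zero]

theorem mem_sol {m s : ℕ} {y : Fin s → Fin m → ℤ} {x : Fin m → ℤ} :
    x ∈ sol y ↔ ∀ i, y i ⬝ᵥ x = 0 := Iff.rfl

/-- lattice data of a point -/
structure Dat (n H : ℕ) (x : Fin (n + 1) → ℤ) {s : ℕ} (y : Fin s → Fin (n + 1) → ℤ) :
    Prop where
  orth : ∀ i, y i ⬝ᵥ x = 0
  ne : ∀ i, y i ≠ 0
  bd : ∀ i, nm (y i) ≤ 4 ^ (n + 1) * (n * H)
  dt : Dt y
  cnt : #(MM n H x) * om y ≤ CL (n + 1) * (n * H) ^ s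

theorem exists_dat (n H : ℕ) (x : Fin (n + 1) → ℤ) :
    ∃ (s : ℕ) (y : Fin s → Fin (n + 1) → ℤ), Dat n H x y := by
  obtain ⟨s, y, h1, h2, h3, h4, -, h6⟩ := ll (n + 1) (sol fun _ : Fin 1 => x) (n * H)
  have hd : ∀ z : Fin (n + 1) → ℤ, z ∈ sol (fun _ : Fin 1 => x) ↔ z ⬝ᵥ x = 0 := by
    intro z
    rw [mem_sol]
    constructor
    · intro h
      rw [dotProduct_comm]
      exact h 0
    · intro h i
      rw [dotProduct_comm]
      exact h
  refine ⟨s, y, fun i => (hd _).1 (h1 i), h3, h2, h4, h6 _ fun z hz => ?_⟩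
  rw [MM, Finset.mem_filter, mem_bx] at hz
  exact ⟨(hd z).2 hz.2, hz.1⟩

theorem Dat.le {n H : ℕ} {x : Fin (n + 1) → ℤ} {s : ℕ} {y : Fin s → Fin (n + 1) → ℤ}
    (h : Dat n H x y) (hx : x ≠ 0) : s ≤ n := by
  obtain ⟨J, hJ, hdet⟩ := h.dt
  by_contra hs
  have h1 : #J = 0 := by omega
  rw [Finset.card_eq_zero] at h1
  subst h1
  exact hx (hdet x h.orth fun j hj => absurd hj (Finset.notMem_empty j))

theorem Prim.ne_zero {m : ℕ} {x : Fin m → ℤ} (h : Prim x) : x ≠ 0 := by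
  rintro rfl
  unfold Prim at h
  have h1 : Finset.univ.gcd (0 : Fin m → ℤ) = 0 := Finset.gcd_eq_zero_iff.2 fun i _ => rfl
  rw [h1] at h
  exact zero_ne_one h

theorem prim_dvd {m : ℕ} {x z : Fin m → ℤ} (hx : Prim x) {t g : ℤ} (h : t • x = g • z) :
    g ∣ t := by
  have h1 : g ∣ Finset.univ.gcd fun i => t * x i := by
    refine Finset.dvd_gcd fun i _ => ?_
    have h2 := congrFun h i
    rw [Pi.smul_apply, Pi.smul_apply, smul_eq_mul, smul_eq_mul] at h2
    exact ⟨z i, h2⟩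
  rw [Finset.gcd_mul_left, hx, mul_one] at h1
  exact (dvd_normalize_iff).1 h1

theorem prim_nm {m : ℕ} {x z : Fin m → ℤ} (hx : Prim x) {t g : ℤ} (ht : t ≠ 0)
    (h : t • x = g • z) : nm x ≤ nm z := by
  have h1 := prim_dvd hx h
  have h2 := congrArg nm h
  rw [nm_smul, nm_smul] at h2
  have h3 : g.natAbs ≤ t.natAbs := Nat.le_of_dvd (Int.natAbs_pos.2 ht) (Int.natAbs_dvd_natAbs.2 h1)
  refine Nat.le_of_mul_le_mul_left (h2.le.trans (Nat.mul_le_mul_right _ h3)) (Int.natAbs_pos.2 ht)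

theorem prim_eq {m : ℕ} {x z : Fin m → ℤ} (hx : Prim x) (hz : Prim z) {t g : ℤ} (ht : t ≠ 0)
    (h : t • x = g • z) : x = z ∨ x = -z := by
  have h1 := prim_dvd hx h
  have h2 := prim_dvd hz h.symm
  have h3 : t.natAbs = g.natAbs := Int.natAbs_eq_of_dvd_dvd h2 h1
  rcases Int.natAbs_eq_natAbs_iff.1 h3 with h4 | h4
  · left
    rw [← h4] at h
    exact smul_right_injective _ ht h
  · right
    have h5 : g = -t := by rw [h4, neg_neg]
    rw [h5, neg_smul, ← smul_neg] at h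
    exact smul_right_injective _ ht h

theorem to_prim {m : ℕ} {x : Fin m → ℤ} (hx : x ≠ 0) : ∃ (z : Fin m → ℤ) (c : ℤ), Prim z ∧
    c ≠ 0 ∧ x = c • z := by
  have hne : (Finset.univ : Finset (Fin m)).Nonempty := by
    rw [Finset.univ_nonempty_iff]
    by_contra h
    rw [not_nonempty_iff] at h
    exact hx (Subsingleton.elim _ _)
  obtain ⟨z, hz, hz1⟩ := Finset.extract_gcd x hne
  refine ⟨z, Finset.univ.gcd x, hz1, ?_, ?_⟩
  · intro h
    apply hx
    funext i
    rw [hz i (Finset.mem_univ i), h, zero_mul]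
    rfl
  · funext i
    exact hz i (Finset.mem_univ i)

/-- independence of two vectors -/
def Ind {m : ℕ} (a b : Fin m → ℤ) : Prop := ∀ u v : ℤ, u • a + v • b = 0 → u = 0 ∧ v = 0

theorem Ind.left {m : ℕ} {a b : Fin m → ℤ} (h : Ind a b) : a ≠ 0 := by
  rintro rfl
  exact one_ne_zero (h 1 0 (by simp)).1

theorem Ind.right {m : ℕ} {a b : Fin m → ℤ} (h : Ind a b) : b ≠ 0 := by
  rintro rfl
  exact one_ne_zero (h 0 1 (by simp)).2

/-- the solutions of `n` independent equations in `n + 1` unknowns -/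
theorem par {n s : ℕ} {y : Fin s → Fin (n + 1) → ℤ} (h : Dt y) (hs : s = n)
    {x z : Fin (n + 1) → ℤ} (hx : x ∈ sol y) (hz : z ∈ sol y) (hz0 : z ≠ 0) :
    ∃ t g : ℤ, t ≠ 0 ∧ t • x = g • z := by
  obtain ⟨J, hJ, hdet⟩ := h
  have h1 : #J = 1 := by omega
  obtain ⟨j, rfl⟩ := Finset.card_eq_one.1 h1
  have hzj : z j ≠ 0 := by
    intro h2
    apply hz0
    refine hdet z hz fun i hi => ?_
    rw [Finset.mem_singleton.1 hi]
    exact h2
  refine ⟨z j, x j, hzj, ?_⟩
  have h3 : z j • x - x j • z = 0 := by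
    refine hdet _ ((sol y).sub_mem ((sol y).zsmul_mem hx _) ((sol y).zsmul_mem hz _))
      fun i hi => ?_
    rw [Finset.mem_singleton.1 hi]
    simp only [Pi.sub_apply, Pi.smul_apply, smul_eq_mul]
    ring
  exact sub_eq_zero.1 h3

/-- the solutions of `n - 1` independent equations in `n + 1` unknowns -/
theorem rank2 {m s : ℕ} {y : Fin s → Fin m → ℤ} (h : Dt y) (hs : s + 2 = m)
    {x a b : Fin m → ℤ} (hx : x ∈ sol y) (ha : a ∈ sol y) (hb : b ∈ sol y) (hab : Ind a b) :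
    ∃ t u v : ℤ, t ≠ 0 ∧ t • x = u • a + v • b := by
  obtain ⟨J, hJ, hdet⟩ := h
  have h1 : #J = 2 := by omega
  obtain ⟨i, j, hij, rfl⟩ := Finset.card_eq_two.1 h1
  have key : ∀ z ∈ sol y, z i = 0 → z j = 0 → z = 0 := by
    intro z hz hi hj
    refine hdet z hz fun k hk => ?_
    rcases Finset.mem_insert.1 hk with rfl | hk
    · exact hi
    · rw [Finset.mem_singleton.1 hk]
      exact hj
  have mem : ∀ u v : ℤ, u • a + v • b ∈ sol y := fun u v =>
    (sol y).add_mem ((sol y).zsmul_mem ha _) ((sol y).zsmul_mem hb _)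
  refine ⟨a i * b j - a j * b i, x i * b j - x j * b i, a i * x j - a j * x i, ?_, ?_⟩
  · intro h0
    have e1 : b j • a + (-a j) • b = 0 := by
      refine key _ (mem _ _) ?_ ?_
      · simp only [Pi.add_apply, Pi.smul_apply, smul_eq_mul]
        linarith
      · simp only [Pi.add_apply, Pi.smul_apply, smul_eq_mul]
        ring
    have e2 : b i • a + (-a i) • b = 0 := by
      refine key _ (mem _ _) ?_ ?_
      · simp only [Pi.add_apply, Pi.smul_apply, smul_eq_mul]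
        ring
      · simp only [Pi.add_apply, Pi.smul_apply, smul_eq_mul]
        linarith
    have e3 := (hab _ _ e1).2
    have e4 := (hab _ _ e2).2
    exact hab.left (key a ha (neg_eq_zero.1 e4) (neg_eq_zero.1 e3))
  · have h2 : (a i * b j - a j * b i) • x - ((x i * b j - x j * b i) • a +
        (a i * x j - a j * x i) • b) = 0 := by
      refine key _ ((sol y).sub_mem ((sol y).zsmul_mem hx _) (mem _ _)) ?_ ?_
      · simp only [Pi.sub_apply, Pi.add_apply, Pi.smul_apply, smul_eq_mul]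
        ring
      · simp only [Pi.sub_apply, Pi.add_apply, Pi.smul_apply, smul_eq_mul]
        ring
    exact sub_eq_zero.1 h2

/-- points on a line of small height have many orthogonal vectors -/
theorem line_lower {n H : ℕ} (hn : 1 ≤ n) (hH : 1 ≤ H) {x a b : Fin (n + 1) → ℤ} (ha : a ≠ 0)
    (hb : b ≠ 0) {t u v : ℤ} (ht : t ≠ 0) (h : t • x = u • a + v • b) :
    (n * H) ^ (n + 1) ≤ #(MM n H x) * ((3 * (n + 1) * (n * H)) ^ 2 * (nm a * nm b)) := by
  have hR : 1 ≤ n * H := Nat.mul_pos hn hH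
  have h1 := pigeon (Nat.succ_pos n) ![a, b] (by
    intro i
    fin_cases i
    · exact ha
    · exact hb) (n * H) hR
  rw [Fin.prod_univ_two] at h1
  refine h1.trans (Nat.mul_le_mul_right _ (Finset.card_le_card fun z hz => ?_))
  rw [Finset.mem_filter] at hz
  rw [MM, Finset.mem_filter]
  refine ⟨hz.1, ?_⟩
  have h2 : a ⬝ᵥ z = 0 := hz.2 0
  have h3 : b ⬝ᵥ z = 0 := hz.2 1
  have h4 : t * (z ⬝ᵥ x) = 0 := by
    rw [← smul_eq_mul, ← dotProduct_smul, h, dotProduct_add, dotProduct_smul, dotProduct_smul,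
      dotProduct_comm z a, dotProduct_comm z b, h2, h3]
    simp
  exact (mul_eq_zero.1 h4).resolve_left ht

/-- the constant in `om_line` -/
def CT (n : ℕ) : ℕ := 9 * (n + 1) ^ 2 * CL (n + 1)

theorem om_line {n H : ℕ} (hn : 1 ≤ n) (hH : 1 ≤ H) {x a b : Fin (n + 1) → ℤ} (ha : a ≠ 0)
    (hb : b ≠ 0) {t u v : ℤ} (ht : t ≠ 0) (h : t • x = u • a + v • b) {s : ℕ}
    {y : Fin s → Fin (n + 1) → ℤ} (hD : Dat n H x y) :
    (n * H) ^ (n + 1) * om y ≤ (n * H) ^ (s + 2) * (CT n * (nm a * nm b)) := by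
  have h1 := line_lower hn hH ha hb ht h
  calc (n * H) ^ (n + 1) * om y
      ≤ #(MM n H x) * ((3 * (n + 1) * (n * H)) ^ 2 * (nm a * nm b)) * om y :=
        Nat.mul_le_mul_right _ h1
    _ = (#(MM n H x) * om y) * ((3 * (n + 1) * (n * H)) ^ 2 * (nm a * nm b)) := by ring
    _ ≤ (CL (n + 1) * (n * H) ^ s) * ((3 * (n + 1) * (n * H)) ^ 2 * (nm a * nm b)) :=
        Nat.mul_le_mul_right _ hD.cnt
    _ = (n * H) ^ (s + 2) * (CT n * (nm a * nm b)) := by
        rw [CT, pow_add]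
        ring

/-- the lattice lemma for the solutions of `n - 1` equations -/
theorem ll_line {m s : ℕ} {y : Fin s → Fin m → ℤ} (h : Dt y) (hs : s + 2 = m) (R : ℕ) :
    #{x ∈ bx m R | ∀ i, y i ⬝ᵥ x = 0} ≤ CL m ∨
    #{x ∈ bx m R | ∀ i, y i ⬝ᵥ x = 0} ≤ CL m * R ∨
    ∃ a b, a ∈ sol y ∧ b ∈ sol y ∧ Ind a b ∧
      #{x ∈ bx m R | ∀ i, y i ⬝ᵥ x = 0} * (nm a * nm b) ≤ CL m * R ^ 2 := by
  obtain ⟨s', z, hz1, -, hz3, -, hz5, hz6⟩ := ll m (sol y) R
  have hcard := hz6 {x ∈ bx m R | ∀ i, y i ⬝ᵥ x = 0} fun x hx => by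
    rw [Finset.mem_filter, mem_bx] at hx
    exact ⟨hx.2, hx.1⟩
  have hind : ∀ i j : Fin s', i ≠ j → Ind (z i) (z j) := by
    intro i j hij u v huv
    have h1 := hz5 (Pi.single i u + Pi.single j v) (by
      simp only [Pi.add_apply, add_smul, Finset.sum_add_distrib, Pi.single_apply, ite_smul,
        zero_smul, Finset.sum_ite_eq', Finset.mem_univ, if_true]
      exact huv)
    have h2 := congrFun h1 i
    have h3 := congrFun h1 j
    simp only [Pi.add_apply, Pi.single_apply, if_true, if_neg hij, if_neg (Ne.symm hij),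
      add_zero, zero_add, Pi.zero_apply] at h2 h3
    exact ⟨h2, h3⟩
  rcases Nat.lt_or_ge s' 1 with h0 | h0
  · left
    obtain rfl : s' = 0 := by omega
    simpa using hcard
  rcases Nat.lt_or_ge s' 2 with h1 | h1
  · right
    left
    obtain rfl : s' = 1 := by omega
    rw [Fin.prod_univ_one, pow_one] at hcard
    exact (Nat.le_mul_of_pos_right _ (nm_pos.2 (hz3 0))).trans hcard
  rcases Nat.lt_or_ge s' 3 with h2 | h2
  · right
    right
    obtain rfl : s' = 2 := by omega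
    rw [Fin.prod_univ_two] at hcard
    exact ⟨z 0, z 1, hz1 0, hz1 1, hind 0 1 (by decide), hcard⟩
  · exfalso
    set i : Fin s' := ⟨0, by omega⟩
    set j : Fin s' := ⟨1, by omega⟩
    set k : Fin s' := ⟨2, by omega⟩
    have hij : i ≠ j := by
      intro h
      simpa [i, j] using congrArg Fin.val h
    have hik : i ≠ k := by
      intro h
      simpa [i, k] using congrArg Fin.val h
    have hjk : j ≠ k := by
      intro h
      simpa [j, k] using congrArg Fin.val h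
    obtain ⟨t, u, v, ht, htuv⟩ := rank2 h hs (hz1 k) (hz1 i) (hz1 j) (hind i j hij)
    have h3 := hz5 (Pi.single k t + (Pi.single i (-u) + Pi.single j (-v))) (by
      simp only [Pi.add_apply, add_smul, Finset.sum_add_distrib, Pi.single_apply, ite_smul,
        zero_smul, Finset.sum_ite_eq', Finset.mem_univ, if_true]
      rw [htuv]
      simp only [neg_smul]
      abel)
    have h4 := congrFun h3 k
    simp only [Pi.add_apply, Pi.single_apply, if_true, if_neg hik.symm, if_neg hjk.symm,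
      add_zero, Pi.zero_apply] at h4
    exact ht h4

/-- the constant in `pair_exists` -/
def CP (n : ℕ) : ℕ := CL (n + 1) * (3 * (n + 1)) ^ (n + 1)

theorem CL_pos (m : ℕ) : 1 ≤ CL m := Nat.mul_pos (by positivity) (by positivity)

/-- a line contains two independent points of small height -/
theorem pair_exists {n s : ℕ} {y : Fin s → Fin (n + 1) → ℤ} (h : Dt y) (hs : s + 2 = n + 1)
    (hy : ∀ i, y i ≠ 0) :
    ∃ a b, a ∈ sol y ∧ b ∈ sol y ∧ Ind a b ∧ nm a * nm b ≤ CP n * om y := by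
  set Q : ℕ := (3 * (n + 1)) ^ s * om y with hQ
  have hQ1 : 1 ≤ Q := Nat.mul_pos (by positivity) (om_pos hy)
  have hCL := CL_pos (n + 1)
  set R : ℕ := CL (n + 1) * Q + 1 with hR
  have hR1 : 1 ≤ R := by omega
  have hp : R ^ (n + 1) ≤ #{x ∈ bx (n + 1) R | ∀ i, y i ⬝ᵥ x = 0} *
      ((3 * (n + 1) * R) ^ s * ∏ i, nm (y i)) := pigeon (Nat.succ_pos n) y hy R hR1
  set c : ℕ := #{x ∈ bx (n + 1) R | ∀ i, y i ⬝ᵥ x = 0} with hc
  have hp2 : R ^ 2 ≤ c * Q := by
    have h1 : R ^ (n + 1) = R ^ s * R ^ 2 := by rw [← pow_add, hs]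
    have h2 : c * ((3 * (n + 1) * R) ^ s * ∏ i, nm (y i)) = R ^ s * (c * Q) := by
      rw [hQ, mul_pow, om]
      ring
    rw [h1, h2] at hp
    exact Nat.le_of_mul_le_mul_left hp (by positivity)
  rcases ll_line h hs R with h1 | h1 | ⟨a, b, ha, hb, hab, h1⟩
  · exfalso
    have h2 : R * R ≤ CL (n + 1) * Q := by
      calc R * R = R ^ 2 := (sq R).symm
        _ ≤ c * Q := hp2
        _ ≤ CL (n + 1) * Q := Nat.mul_le_mul_right _ h1
    nlinarith
  · exfalso
    have h2 : R * R ≤ R * (CL (n + 1) * Q) := by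
      calc R * R = R ^ 2 := (sq R).symm
        _ ≤ c * Q := hp2
        _ ≤ CL (n + 1) * R * Q := Nat.mul_le_mul_right _ h1
        _ = R * (CL (n + 1) * Q) := by ring
    have h3 := Nat.le_of_mul_le_mul_left h2 hR1
    omega
  · refine ⟨a, b, ha, hb, hab, ?_⟩
    have h2 : R ^ 2 * (nm a * nm b) ≤ R ^ 2 * (CL (n + 1) * Q) := by
      calc R ^ 2 * (nm a * nm b) ≤ c * Q * (nm a * nm b) := Nat.mul_le_mul_right _ hp2
        _ = c * (nm a * nm b) * Q := by ring
        _ ≤ CL (n + 1) * R ^ 2 * Q := Nat.mul_le_mul_right _ h1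
        _ = R ^ 2 * (CL (n + 1) * Q) := by ring
    have h3 := Nat.le_of_mul_le_mul_left h2 (by positivity)
    refine h3.trans ?_
    rw [hQ, CP]
    calc CL (n + 1) * ((3 * (n + 1)) ^ s * om y)
        ≤ CL (n + 1) * ((3 * (n + 1)) ^ (n + 1) * om y) :=
          Nat.mul_le_mul_left _ (Nat.mul_le_mul_right _ (Nat.pow_le_pow_right (by positivity)
            (by omega)))
      _ = CL (n + 1) * (3 * (n + 1)) ^ (n + 1) * om y := by ring

/-- the number of points of bounded height on the line of a point -/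
theorem card_line {n H : ℕ} (hn : 1 ≤ n) (hH : 1 ≤ H) {x : Fin (n + 1) → ℤ} {s : ℕ}
    {y : Fin s → Fin (n + 1) → ℤ} (hD : Dat n H x y) (hs : s + 2 = n + 1) {B : ℕ} (hB : 1 ≤ B) :
    #{z ∈ bx (n + 1) B | ∀ i, y i ⬝ᵥ z = 0} * om y ≤ CT n * CL (n + 1) * (B ^ 2 + B * om y) := by
  have hCL := CL_pos (n + 1)
  have hCT : 1 ≤ CT n := Nat.mul_pos (by positivity) hCL
  set c : ℕ := #{z ∈ bx (n + 1) B | ∀ i, y i ⬝ᵥ z = 0} with hc
  have hB2 : c ≤ CL (n + 1) * B → c * om y ≤ CT n * CL (n + 1) * (B ^ 2 + B * om y) := by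
    intro h
    calc c * om y ≤ CL (n + 1) * B * om y := Nat.mul_le_mul_right _ h
      _ = 1 * (CL (n + 1) * (B * om y)) := by ring
      _ ≤ CT n * (CL (n + 1) * (B ^ 2 + B * om y)) :=
          Nat.mul_le_mul hCT (Nat.mul_le_mul_left _ (Nat.le_add_left _ _))
      _ = _ := by ring
  rcases ll_line hD.dt hs B with h1 | h1 | ⟨a, b, ha, hb, hab, h1⟩
  · exact hB2 (h1.trans (Nat.le_mul_of_pos_right _ hB))
  · exact hB2 h1
  · obtain ⟨t, u, v, ht, htuv⟩ := rank2 hD.dt hs hD.orth ha hb hab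
    have h2 := om_line hn hH hab.left hab.right ht htuv hD
    rw [hs] at h2
    have h3 : om y ≤ CT n * (nm a * nm b) :=
      Nat.le_of_mul_le_mul_left h2 (pow_pos (Nat.mul_pos hn hH) _)
    calc c * om y ≤ c * (CT n * (nm a * nm b)) := Nat.mul_le_mul_left _ h3
      _ = CT n * (c * (nm a * nm b)) := by ring
      _ ≤ CT n * (CL (n + 1) * B ^ 2) := Nat.mul_le_mul_left _ h1
      _ ≤ CT n * CL (n + 1) * (B ^ 2 + B * om y) := by
          rw [mul_assoc]
          exact Nat.mul_le_mul_left _ (Nat.mul_le_mul_left _ (Nat.le_add_right _ _))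

/-- points with `n` independent short orthogonal vectors are of bounded height -/
theorem nm_le_of_full {n : ℕ} {y : Fin n → Fin (n + 1) → ℤ} (h : Dt y)
    (hy : ∀ i, y i ≠ 0) {x : Fin (n + 1) → ℤ} (hx : Prim x) (hxy : x ∈ sol y) :
    nm x ≤ 2 * ((3 * (n + 1)) ^ n * om y) := by
  set Q : ℕ := (3 * (n + 1)) ^ n * om y with hQ
  have hQ1 : 1 ≤ Q := Nat.mul_pos (by positivity) (om_pos hy)
  set R : ℕ := 2 * Q with hR
  have hR1 : 1 ≤ R := by omega
  have hp : R ^ (n + 1) ≤ #{x ∈ bx (n + 1) R | ∀ i, y i ⬝ᵥ x = 0} *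
      ((3 * (n + 1) * R) ^ n * ∏ i, nm (y i)) := pigeon (Nat.succ_pos n) y hy R hR1
  set S : Finset (Fin (n + 1) → ℤ) := {x ∈ bx (n + 1) R | ∀ i, y i ⬝ᵥ x = 0} with hS
  have hp2 : R ≤ #S * Q := by
    have h1 : R ^ (n + 1) = R ^ n * R := pow_succ R n
    have h2 : #S * ((3 * (n + 1) * R) ^ n * ∏ i, nm (y i)) = R ^ n * (#S * Q) := by
      rw [hQ, mul_pow, om]
      ring
    rw [h1, h2] at hp
    exact Nat.le_of_mul_le_mul_left hp (by positivity)
  have hS2 : 1 < #S := by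
    have h1 : 2 * Q ≤ #S * Q := hp2
    have h2 := Nat.le_of_mul_le_mul_right h1 hQ1
    omega
  obtain ⟨z, hz, hz0⟩ := Finset.exists_mem_ne hS2 0
  rw [hS, Finset.mem_filter, mem_bx] at hz
  obtain ⟨t, g, ht, htg⟩ := par h rfl hxy hz.2 hz0
  exact (prim_nm hx ht htg).trans hz.1

end Pool.Agent.H31.RZ
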