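import Pool.Agent.H31.RZ.Final

/-!
# Random hypersurfaces (MP_6e60ff_nt): the main estimate with powers of `H`
-/

namespace Pool.Agent.H31.RZ

open Finset MvPolynomial

/-- a real inequality: the four terms save a power -/
theorem four {h w b K e : ℝ} {n d : ℕ} {A θ δ : ℝ} (hh : 1 ≤ h) (hK : 0 ≤ K)
    (he : e ≤ h ^ δ) (hw1 : w ≤ h ^ θ) (hw2 : h ^ θ ≤ 2 * w)
    (hb0 : 0 ≤ b) (hb : b ≤ h ^ A) (hd : n + 1 < d)
    (e1 : 2 * δ ≤ 1) (e2 : θ * (n + 1) + 2 * δ ≤ d - 1)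
    (e3 : 2 * A + 2 * δ ≤ d + 1 + θ * (d - n)) (e4 : 3 * A + 2 * δ ≤ 2 * d + 1) :
    K * e * (1 / h + w ^ (n + 1) / h ^ (d - 1) + b ^ 2 / (h ^ (d + 1) * w ^ (d - n)) +
      b ^ 3 / h ^ (2 * d + 1)) ≤ K * (3 + 2 ^ (d - n)) * h ^ (-δ) := by
  have h0 : 0 < h := by linarith
  have hle : ∀ {x y : ℝ}, x ≤ y → h ^ x ≤ h ^ y := fun {x y} hxy =>
    Real.rpow_le_rpow_of_exponent_le hh hxy
  have hθp : 0 < h ^ θ := Real.rpow_pos_of_pos h0 θ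
  have hw0 : 0 < w := by linarith
  have t1 : 1 / h ≤ h ^ (-(2 * δ)) := by
    rw [one_div, ← Real.rpow_neg_one]
    exact hle (by linarith)
  have t2 : w ^ (n + 1) / h ^ (d - 1) ≤ h ^ (-(2 * δ)) := by
    rw [div_le_iff₀ (pow_pos h0 _)]
    calc w ^ (n + 1) ≤ (h ^ θ) ^ (n + 1) := pow_le_pow_left₀ hw0.le hw1 _
      _ = h ^ (θ * ((n + 1 : ℕ) : ℝ)) := by rw [Real.rpow_mul h0.le, Real.rpow_natCast]
      _ ≤ h ^ (-(2 * δ) + ((d - 1 : ℕ) : ℝ)) := by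
          refine hle ?_
          rw [Nat.cast_sub (by omega)]
          push_cast
          linarith
      _ = h ^ (-(2 * δ)) * h ^ (d - 1) := by rw [Real.rpow_add h0, Real.rpow_natCast]
  have t3 : b ^ 2 / (h ^ (d + 1) * w ^ (d - n)) ≤ 2 ^ (d - n) * h ^ (-(2 * δ)) := by
    rw [div_le_iff₀ (mul_pos (pow_pos h0 _) (pow_pos hw0 _))]
    calc b ^ 2 ≤ (h ^ A) ^ 2 := pow_le_pow_left₀ hb0 hb _
      _ = h ^ (A * ((2 : ℕ) : ℝ)) := by rw [Real.rpow_mul h0.le, Real.rpow_natCast]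
      _ ≤ h ^ (-(2 * δ) + (((d + 1 : ℕ) : ℝ) + θ * ((d - n : ℕ) : ℝ))) := by
          refine hle ?_
          rw [Nat.cast_sub (by omega)]
          push_cast
          linarith
      _ = h ^ (-(2 * δ)) * (h ^ (d + 1) * (h ^ θ) ^ (d - n)) := by
          rw [Real.rpow_add h0, Real.rpow_add h0, Real.rpow_natCast, Real.rpow_mul h0.le,
            Real.rpow_natCast]
      _ ≤ h ^ (-(2 * δ)) * (h ^ (d + 1) * (2 * w) ^ (d - n)) := by
          refine mul_le_mul_of_nonneg_left (mul_le_mul_of_nonneg_left ?_ (pow_nonneg h0.le _))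
            (Real.rpow_nonneg h0.le _)
          exact pow_le_pow_left₀ hθp.le hw2 _
      _ = 2 ^ (d - n) * h ^ (-(2 * δ)) * (h ^ (d + 1) * w ^ (d - n)) := by
          rw [mul_pow]
          ring
  have t4 : b ^ 3 / h ^ (2 * d + 1) ≤ h ^ (-(2 * δ)) := by
    rw [div_le_iff₀ (pow_pos h0 _)]
    calc b ^ 3 ≤ (h ^ A) ^ 3 := pow_le_pow_left₀ hb0 hb _
      _ = h ^ (A * ((3 : ℕ) : ℝ)) := by rw [Real.rpow_mul h0.le, Real.rpow_natCast]
      _ ≤ h ^ (-(2 * δ) + ((2 * d + 1 : ℕ) : ℝ)) := by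
          refine hle ?_
          push_cast
          linarith
      _ = h ^ (-(2 * δ)) * h ^ (2 * d + 1) := by rw [Real.rpow_add h0, Real.rpow_natCast]
  have hs : 1 / h + w ^ (n + 1) / h ^ (d - 1) + b ^ 2 / (h ^ (d + 1) * w ^ (d - n)) +
      b ^ 3 / h ^ (2 * d + 1) ≤ (3 + 2 ^ (d - n)) * h ^ (-(2 * δ)) := by
    have : (3 + 2 ^ (d - n)) * h ^ (-(2 * δ)) = h ^ (-(2 * δ)) + h ^ (-(2 * δ)) +
        2 ^ (d - n) * h ^ (-(2 * δ)) + h ^ (-(2 * δ)) := by ring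
    rw [this]
    exact add_le_add (add_le_add (add_le_add t1 t2) t3) t4
  have h5 : (0 : ℝ) ≤ 3 + 2 ^ (d - n) := by positivity
  calc _ ≤ K * h ^ δ * ((3 + 2 ^ (d - n)) * h ^ (-(2 * δ))) := by
        refine mul_le_mul (mul_le_mul_of_nonneg_left he hK) hs ?_
          (mul_nonneg hK (Real.rpow_nonneg h0.le _))
        positivity
    _ = K * (3 + 2 ^ (d - n)) * (h ^ δ * h ^ (-(2 * δ))) := by ring
    _ = K * (3 + 2 ^ (d - n)) * h ^ (-δ) := by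
        rw [← Real.rpow_add h0]
        congr 2
        ring

/-- the main estimate, with powers of `H` -/
theorem expo {n d : ℕ} (hn : 2 ≤ n) (hd : n + 1 < d) {A θ : ℝ} (h1 : 3 * A < 2 * d + 1)
    (h2 : 2 * A < 2 * d + 1 - n) (hθ : θ < 1) :
    ∃ C δ : ℝ, 0 < C ∧ 0 < δ ∧ ∀ H : ℕ, 1 ≤ H →
      (({f | f ∈ FF n d H ∧ ∃ x : Fin (n + 1) → ℤ, x ≠ 0 ∧ eval x f = 0 ∧
        ((nm x : ℝ) ≤ (H : ℝ) ^ A ∨ ∃ a b : Fin (n + 1) → ℤ, Ind a b ∧
          (nm a : ℝ) * nm b ≤ (H : ℝ) ^ θ ∧ ∃ t u v : ℤ, t ≠ 0 ∧ t • x = u • a + v • b)} :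
        Set _).ncard : ℝ) ≤ C * (H : ℝ) ^ (-δ) * EE n d H := by
  have hdr : ((n : ℝ) + 2) ≤ d := by exact_mod_cast (by omega : n + 2 ≤ d)
  have hnr : (2 : ℝ) ≤ n := by exact_mod_cast hn
  have hCT1 : 1 ≤ CT n := Nat.mul_pos (by positivity) (CL_pos _)
  have hCTr : (1 : ℝ) ≤ CT n := by exact_mod_cast hCT1
  -- the exponents
  set A' : ℝ := max A 0 with hA'
  have hA'0 : 0 ≤ A' := le_max_right _ _
  have hA'1 : 3 * A' < 2 * d + 1 := by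
    rcases max_cases A 0 with h | h <;> rw [hA', h.1] <;> linarith
  have hA'2 : 2 * A' < 2 * d + 1 - n := by
    rcases max_cases A 0 with h | h <;> rw [hA', h.1] <;> linarith
  obtain ⟨θ', hθ'0, hθθ', hθ'1, hθ'A⟩ : ∃ θ' : ℝ, 0 ≤ θ' ∧ θ ≤ θ' ∧ θ' < 1 ∧
      2 * A' < d + 1 + θ' * (d - n) := by
    have hdn : (0 : ℝ) < d - n := by linarith
    have hq : (2 * A' - (d + 1)) / (d - n) < 1 := by
      rw [div_lt_one hdn]
      linarith
    obtain ⟨θ', hl, hu⟩ := exists_between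
      (max_lt (max_lt hθ hq) (zero_lt_one : (0 : ℝ) < 1))
    refine ⟨θ', ?_, ?_, hu, ?_⟩
    · exact ((le_max_right _ _).trans hl.le)
    · exact (((le_max_left _ _).trans (le_max_left _ _)).trans hl.le)
    · have h3 : (2 * A' - (d + 1)) / (d - n) < θ' :=
        lt_of_le_of_lt ((le_max_right _ _).trans (le_max_left _ _)) hl
      rw [div_lt_iff₀ hdn] at h3
      linarith
  obtain ⟨δ, hδ0, e1, e2, e3, e4⟩ : ∃ δ : ℝ, 0 < δ ∧ 2 * δ ≤ 1 ∧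
      θ' * (n + 1) + 2 * δ ≤ d - 1 ∧ 2 * A' + 2 * δ ≤ d + 1 + θ' * (d - n) ∧
      3 * A' + 2 * δ ≤ 2 * d + 1 := by
    have k2 : θ' * (n + 1) < d - 1 := by nlinarith
    refine ⟨min (min (1 / 2) ((d - 1 - θ' * (n + 1)) / 2))
      (min ((d + 1 + θ' * (d - n) - 2 * A') / 2) ((2 * d + 1 - 3 * A') / 2)), ?_, ?_, ?_, ?_, ?_⟩
    · refine lt_min (lt_min ?_ ?_) (lt_min ?_ ?_) <;> linarith
    · have := (min_le_left (min (1 / 2) ((d - 1 - θ' * (n + 1)) / 2))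
        (min ((d + 1 + θ' * (d - n) - 2 * A') / 2) ((2 * d + 1 - 3 * A') / 2))).trans
        (min_le_left _ _)
      linarith
    · have := (min_le_left (min (1 / 2) ((d - 1 - θ' * (n + 1)) / 2))
        (min ((d + 1 + θ' * (d - n) - 2 * A') / 2) ((2 * d + 1 - 3 * A') / 2))).trans
        (min_le_right _ _)
      linarith
    · have := (min_le_right (min (1 / 2) ((d - 1 - θ' * (n + 1)) / 2))
        (min ((d + 1 + θ' * (d - n) - 2 * A') / 2) ((2 * d + 1 - 3 * A') / 2))).trans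
        (min_le_left _ _)
      linarith
    · have := (min_le_right (min (1 / 2) ((d - 1 - θ' * (n + 1)) / 2))
        (min ((d + 1 + θ' * (d - n) - 2 * A') / 2) ((2 * d + 1 - 3 * A') / 2))).trans
        (min_le_right _ _)
      linarith
  obtain ⟨K, hK1, hK⟩ := main (n := n) (d := d) hn hd hδ0
  have hK0 : 0 ≤ K := by linarith
  -- the threshold
  set H₀ : ℝ := (CT n : ℝ) ^ (1 / (1 - θ')) with hH₀
  have hθ'2 : 0 < 1 - θ' := by linarith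
  have hH₀1 : 1 ≤ H₀ := Real.one_le_rpow hCTr (by positivity)
  refine ⟨K * (3 + 2 ^ (d - n)) + H₀ ^ δ, δ, ?_, hδ0, fun H hH => ?_⟩
  · have : 0 < H₀ ^ δ := Real.rpow_pos_of_pos (by linarith) δ
    have : 0 ≤ K * (3 + 2 ^ (d - n)) := by positivity
    linarith
  have hHr : (1 : ℝ) ≤ H := by exact_mod_cast hH
  have hH0 : (0 : ℝ) < H := by linarith
  have hE := EE_pos n d H
  have hmδ : 0 < (H : ℝ) ^ (-δ) := Real.rpow_pos_of_pos hH0 _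
  have hH₀δ : 0 < H₀ ^ δ := Real.rpow_pos_of_pos (by linarith) δ
  rcases lt_or_ge (H : ℝ) H₀ with hlt | hge
  · -- small `H`
    have t1 : (({f | f ∈ FF n d H ∧ ∃ x : Fin (n + 1) → ℤ, x ≠ 0 ∧ eval x f = 0 ∧
        ((nm x : ℝ) ≤ (H : ℝ) ^ A ∨ ∃ a b : Fin (n + 1) → ℤ, Ind a b ∧
          (nm a : ℝ) * nm b ≤ (H : ℝ) ^ θ ∧ ∃ t u v : ℤ, t ≠ 0 ∧ t • x = u • a + v • b)} :
        Set _).ncard : ℝ) ≤ EE n d H := by
      have h3 := Set.ncard_le_ncard (sub_FF (n := n) (d := d) (H := H) (P := fun f =>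
        ∃ x : Fin (n + 1) → ℤ, x ≠ 0 ∧ eval x f = 0 ∧
        ((nm x : ℝ) ≤ (H : ℝ) ^ A ∨ ∃ a b : Fin (n + 1) → ℤ, Ind a b ∧
          (nm a : ℝ) * nm b ≤ (H : ℝ) ^ θ ∧ ∃ t u v : ℤ, t ≠ 0 ∧ t • x = u • a + v • b)))
        (Finset.finite_toSet _)
      rw [Set.ncard_coe_finset, card_FF] at h3
      unfold EE
      exact_mod_cast h3
    have t2 : 1 ≤ H₀ ^ δ * (H : ℝ) ^ (-δ) := by
      rw [Real.rpow_neg hH0.le, ← div_eq_mul_inv, one_le_div (Real.rpow_pos_of_pos hH0 δ)]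
      exact Real.rpow_le_rpow hH0.le hlt.le hδ0.le
    calc _ ≤ EE n d H := t1
      _ = 1 * EE n d H := (one_mul _).symm
      _ ≤ (K * (3 + 2 ^ (d - n)) + H₀ ^ δ) * (H : ℝ) ^ (-δ) * EE n d H := by
          refine mul_le_mul_of_nonneg_right ?_ hE.le
          have : 0 ≤ K * (3 + 2 ^ (d - n)) * (H : ℝ) ^ (-δ) := by positivity
          calc (1 : ℝ) ≤ H₀ ^ δ * (H : ℝ) ^ (-δ) := t2
            _ ≤ K * (3 + 2 ^ (d - n)) * (H : ℝ) ^ (-δ) + H₀ ^ δ * (H : ℝ) ^ (-δ) := by linarith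
            _ = _ := by ring
  · -- large `H`
    have hx1 : (1 : ℝ) ≤ (H : ℝ) ^ θ' := Real.one_le_rpow hHr hθ'0
    have hx2 : (1 : ℝ) ≤ (H : ℝ) ^ A' := Real.one_le_rpow hHr hA'0
    set W : ℕ := ⌊(H : ℝ) ^ θ'⌋₊ with hW
    set B : ℕ := ⌊(H : ℝ) ^ A'⌋₊ with hB
    have hW1 : 1 ≤ W := Nat.le_floor (by exact_mod_cast hx1)
    have hB1 : 1 ≤ B := Nat.le_floor (by exact_mod_cast hx2)
    have hWle : (W : ℝ) ≤ (H : ℝ) ^ θ' := Nat.floor_le (by linarith)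
    have hBle : (B : ℝ) ≤ (H : ℝ) ^ A' := Nat.floor_le (by linarith)
    have hW2 : (H : ℝ) ^ θ' ≤ 2 * W := by
      have h3 : (H : ℝ) ^ θ' < W + 1 := Nat.lt_floor_add_one _
      have h4 : (1 : ℝ) ≤ W := by exact_mod_cast hW1
      linarith
    have hCW : CT n * W ≤ H := by
      have h3 : (CT n : ℝ) ≤ (H : ℝ) ^ (1 - θ') := by
        calc (CT n : ℝ) = H₀ ^ (1 - θ') := by
              rw [hH₀, ← Real.rpow_mul (by linarith), one_div_mul_cancel hθ'2.ne', Real.rpow_one]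
          _ ≤ (H : ℝ) ^ (1 - θ') := Real.rpow_le_rpow (by linarith) hge hθ'2.le
      have h4 : (CT n : ℝ) * W ≤ H := by
        calc (CT n : ℝ) * W ≤ (H : ℝ) ^ (1 - θ') * (H : ℝ) ^ θ' :=
              mul_le_mul h3 hWle (Nat.cast_nonneg _) (Real.rpow_nonneg hH0.le _)
          _ = H := by rw [← Real.rpow_add hH0, sub_add_cancel, Real.rpow_one]
      exact_mod_cast h4
    have hsub : ({f | f ∈ FF n d H ∧ ∃ x : Fin (n + 1) → ℤ, x ≠ 0 ∧ eval x f = 0 ∧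
        ((nm x : ℝ) ≤ (H : ℝ) ^ A ∨ ∃ a b : Fin (n + 1) → ℤ, Ind a b ∧
          (nm a : ℝ) * nm b ≤ (H : ℝ) ^ θ ∧ ∃ t u v : ℤ, t ≠ 0 ∧ t • x = u • a + v • b)} :
        Set _) ⊆ Bad n d H B W := by
      rintro f ⟨hf, x, hx, hfx, hc⟩
      refine ⟨hf, x, hx, hfx, ?_⟩
      rcases hc with h3 | ⟨a, b, hab, h3, h4⟩
      · left
        refine Nat.le_floor (h3.trans ?_)
        exact Real.rpow_le_rpow_of_exponent_le hHr (le_max_left _ _)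
      · right
        refine ⟨a, b, hab, ?_, h4⟩
        refine Nat.le_floor ?_
        push_cast
        exact h3.trans (Real.rpow_le_rpow_of_exponent_le hHr hθθ')
    have h3 := Set.ncard_le_ncard hsub (fin_FF (n := n) (d := d) (H := H) sub_FF)
    have h4 := hK H W B hH hW1 hCW hB1
    have h5 : K * EE n d H * (H : ℝ) ^ δ * (1 / (H : ℝ) + (W : ℝ) ^ (n + 1) / (H : ℝ) ^ (d - 1) +
        (B : ℝ) ^ 2 / ((H : ℝ) ^ (d + 1) * (W : ℝ) ^ (d - n)) +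
        (B : ℝ) ^ 3 / (H : ℝ) ^ (2 * d + 1)) ≤
        K * EE n d H * (3 + 2 ^ (d - n)) * (H : ℝ) ^ (-δ) :=
      four hHr (mul_nonneg hK0 hE.le) le_rfl hWle hW2
        (Nat.cast_nonneg _) hBle hd e1 e2 e3 e4
    calc _ ≤ ((Bad n d H B W).ncard : ℝ) := by exact_mod_cast h3
      _ ≤ _ := h4
      _ ≤ K * EE n d H * (3 + 2 ^ (d - n)) * (H : ℝ) ^ (-δ) := h5
      _ = K * (3 + 2 ^ (d - n)) * (H : ℝ) ^ (-δ) * EE n d H := by ring
      _ ≤ (K * (3 + 2 ^ (d - n)) + H₀ ^ δ) * (H : ℝ) ^ (-δ) * EE n d H := by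
          refine mul_le_mul_of_nonneg_right (mul_le_mul_of_nonneg_right ?_ hmδ.le) hE.le
          linarith

end Pool.Agent.H31.RZ
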