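import Pool.Agent.H31.RZ.Main

/-!
# Random hypersurfaces (MP_6e60ff_nt): the main estimate, final form
-/

namespace Pool.Agent.H31.RZ

open Finset MvPolynomial

section real

variable {h w b E C x e : ℝ}

theorem rA (hh : 1 ≤ h) (hx : x * h ≤ C * E * e) : x ≤ C * E * e * (1 / h) := by
  have h0 : 0 < h := by linarith
  rw [mul_one_div, le_div_iff₀ h0]
  exact hx

theorem rS {c : ℝ} {n k d : ℕ} (hh : 1 ≤ h) (hc : 1 ≤ c) (hA : 0 ≤ C * E * e)
    (hb0 : 0 ≤ b) (hb : b ≤ c * h) (hk1 : 1 ≤ k) (hkn : k ≤ n) (hd : 2 ≤ d)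
    (hx : x * h ^ (1 + k * d) ≤ C * E * e * b ^ (k + 1)) :
    x ≤ C * E * e * (c ^ (n + 1) * (1 / h)) := by
  have h0 : 0 < h := by linarith
  have hc0 : 0 ≤ c := by linarith
  have h1 : b ^ (k + 1) ≤ c ^ (n + 1) * h ^ (k + 1) := by
    calc b ^ (k + 1) ≤ (c * h) ^ (k + 1) := pow_le_pow_left₀ hb0 hb _
      _ = c ^ (k + 1) * h ^ (k + 1) := mul_pow _ _ _
      _ ≤ c ^ (n + 1) * h ^ (k + 1) :=
          mul_le_mul_of_nonneg_right (pow_le_pow_right₀ hc (by omega)) (pow_nonneg h0.le _)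
  have h2 : h ^ (k + 1) * h ≤ h ^ (1 + k * d) := by
    rw [← pow_succ]
    refine pow_le_pow_right₀ hh ?_
    nlinarith
  have h3 : h ^ (k + 1) ≤ (1 / h) * h ^ (1 + k * d) := by
    rw [one_div_mul_eq_div, le_div_iff₀ h0]
    exact h2
  have h4 : x * h ^ (1 + k * d) ≤ C * E * e * (c ^ (n + 1) * (1 / h)) * h ^ (1 + k * d) := by
    calc x * h ^ (1 + k * d) ≤ C * E * e * b ^ (k + 1) := hx
      _ ≤ C * E * e * (c ^ (n + 1) * h ^ (k + 1)) := mul_le_mul_of_nonneg_left h1 hA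
      _ ≤ C * E * e * (c ^ (n + 1) * ((1 / h) * h ^ (1 + k * d))) :=
          mul_le_mul_of_nonneg_left (mul_le_mul_of_nonneg_left h3 (pow_nonneg hc0 _)) hA
      _ = _ := by ring
  exact le_of_mul_le_mul_right h4 (pow_pos h0 _)

theorem rB {f : ℝ} {n d : ℕ} (hh : 1 ≤ h) (hd : 1 ≤ d) (hx : x * h ^ (1 + d) ≤
    C * E * e * (h ^ 2 * (w ^ (n + 1) * f))) :
    x ≤ C * E * (e * f) * (w ^ (n + 1) / h ^ (d - 1)) := by
  have h0 : 0 < h := by linarith
  rw [mul_div_assoc', le_div_iff₀ (pow_pos h0 _)]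
  have h1 : h ^ (1 + d) = h ^ 2 * h ^ (d - 1) := by
    rw [← pow_add]
    congr 1
    omega
  rw [h1] at hx
  have h2 : h ^ 2 * (x * h ^ (d - 1)) ≤ h ^ 2 * (C * E * (e * f) * w ^ (n + 1)) := by
    calc h ^ 2 * (x * h ^ (d - 1)) = x * (h ^ 2 * h ^ (d - 1)) := by ring
      _ ≤ C * E * e * (h ^ 2 * (w ^ (n + 1) * f)) := hx
      _ = _ := by ring
  exact le_of_mul_le_mul_left h2 (pow_pos h0 2)

theorem rC {f b' : ℝ} {n d : ℕ} (hh : 1 ≤ h) (hw : 1 ≤ w) (hA : 0 ≤ C * E * (e * f))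
    (hdn : n + 1 < d)
    (hb' : b' ^ 2 ≤ b ^ 2 + w ^ 2) (hx : x * h ^ (1 + d) * w ^ (d - n) ≤
    C * E * e * (f * b' ^ 2)) :
    x ≤ C * E * (e * f) * (b ^ 2 / (h ^ (d + 1) * w ^ (d - n)) + 1 / h) := by
  have h0 : 0 < h := by linarith
  have w0 : 0 < w := by linarith
  have hp : 0 < h ^ (d + 1) * w ^ (d - n) := mul_pos (pow_pos h0 _) (pow_pos w0 _)
  have h1 : w ^ 2 ≤ (1 / h) * (h ^ (d + 1) * w ^ (d - n)) := by
    have e1 : (1 / h) * (h ^ (d + 1) * w ^ (d - n)) = h ^ d * w ^ (d - n) := by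
      rw [pow_succ]
      field_simp
    rw [e1]
    calc w ^ 2 ≤ w ^ (d - n) := pow_le_pow_right₀ hw (by omega)
      _ = 1 * w ^ (d - n) := (one_mul _).symm
      _ ≤ h ^ d * w ^ (d - n) :=
          mul_le_mul_of_nonneg_right (one_le_pow₀ hh) (pow_nonneg w0.le _)
  have h2 : x * (h ^ (d + 1) * w ^ (d - n)) ≤
      C * E * (e * f) * (b ^ 2 / (h ^ (d + 1) * w ^ (d - n)) + 1 / h) *
        (h ^ (d + 1) * w ^ (d - n)) := by
    calc x * (h ^ (d + 1) * w ^ (d - n)) = x * h ^ (1 + d) * w ^ (d - n) := by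
          rw [add_comm 1 d]
          ring
      _ ≤ C * E * e * (f * b' ^ 2) := hx
      _ = C * E * (e * f) * b' ^ 2 := by ring
      _ ≤ C * E * (e * f) * (b ^ 2 + w ^ 2) := mul_le_mul_of_nonneg_left hb' hA
      _ ≤ C * E * (e * f) * (b ^ 2 + (1 / h) * (h ^ (d + 1) * w ^ (d - n))) :=
          mul_le_mul_of_nonneg_left (by linarith) hA
      _ = _ := by
          rw [mul_assoc (C * E * (e * f)), add_mul, div_mul_cancel₀ _ hp.ne']
  exact le_of_mul_le_mul_right h2 hp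

theorem rD {j d : ℕ} (hh : 1 ≤ h) (hb : 0 ≤ b) (hbh : b ≤ h ^ d) (hA : 0 ≤ C * E * e)
    (hx : x * h ^ (1 + (j + 2) * d) ≤ C * E * e * b ^ (j + 2 + 1)) :
    x ≤ C * E * e * (b ^ 3 / h ^ (2 * d + 1)) := by
  have h0 : 0 < h := by linarith
  rw [mul_div_assoc', le_div_iff₀ (pow_pos h0 _)]
  have h1 : h ^ (1 + (j + 2) * d) = h ^ (2 * d + 1) * (h ^ d) ^ j := by
    rw [← pow_mul, ← pow_add]
    congr 1
    ring
  rw [h1] at hx
  have h2 : (h ^ d) ^ j * (x * h ^ (2 * d + 1)) ≤ (h ^ d) ^ j * (C * E * e * b ^ 3) := by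
    calc (h ^ d) ^ j * (x * h ^ (2 * d + 1)) = x * (h ^ (2 * d + 1) * (h ^ d) ^ j) := by ring
      _ ≤ C * E * e * b ^ (j + 2 + 1) := hx
      _ = b ^ j * (C * E * e * b ^ 3) := by ring
      _ ≤ (h ^ d) ^ j * (C * E * e * b ^ 3) :=
          mul_le_mul_of_nonneg_right (pow_le_pow_left₀ hb hbh j)
            (mul_nonneg hA (pow_nonneg hb 3))
  exact le_of_mul_le_mul_left h2 (pow_pos (pow_pos h0 d) j)

end real

/-- the main estimate -/
theorem main {n d : ℕ} (hn : 2 ≤ n) (hd : n + 1 < d) {ε : ℝ} (hε : 0 < ε) :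
    ∃ C : ℝ, 1 ≤ C ∧ ∀ H W B : ℕ, 1 ≤ H → 1 ≤ W → CT n * W ≤ H → 1 ≤ B →
    ((Bad n d H B W).ncard : ℝ) ≤ C * EE n d H * (H : ℝ) ^ ε *
      (1 / (H : ℝ) + (W : ℝ) ^ (n + 1) / (H : ℝ) ^ (d - 1) +
        (B : ℝ) ^ 2 / ((H : ℝ) ^ (d + 1) * (W : ℝ) ^ (d - n)) +
        (B : ℝ) ^ 3 / (H : ℝ) ^ (2 * d + 1)) := by
  have hε2 : 0 < ε / 2 := by linarith
  have hn1 : 1 ≤ n := by omega
  have hCT1 : 1 ≤ CT n := Nat.mul_pos (by positivity) (CL_pos _)
  have hCP : 1 ≤ CP n := Nat.mul_pos (CL_pos _) (by positivity)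
  have hCPr : (1 : ℝ) ≤ CP n := by exact_mod_cast hCP
  obtain ⟨CA, hCA, hA⟩ := catA hn1 hd hε2
  obtain ⟨CD, hCD, hD⟩ := catD hn1 hd hε2 (CP n)
  obtain ⟨CC, hCC, hC⟩ := catC hn1 hd hε2 1
  obtain ⟨CB, hCB, hB⟩ := catB (n := n) hd hε2 hCT1
  set q : ℝ := (CP n : ℝ) ^ (n + 1) with hq
  have hq1 : 1 ≤ q := one_le_pow₀ hCPr
  have hn0 : (1 : ℝ) ≤ n := by exact_mod_cast hn1
  refine ⟨CA + n * (CD * q) + CB + CC + n * CD, ?_, fun H W B hH hW hWH hB1 => ?_⟩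
  · nlinarith [mul_nonneg (by linarith : (0 : ℝ) ≤ n) (by nlinarith : (0 : ℝ) ≤ CD * q)]
  have hHr : (1 : ℝ) ≤ H := by exact_mod_cast hH
  have hWr : (1 : ℝ) ≤ W := by exact_mod_cast hW
  have hBr : (1 : ℝ) ≤ B := by exact_mod_cast hB1
  have hWleH : W ≤ H := (Nat.le_mul_of_pos_left _ hCT1).trans hWH
  have hWHr : (W : ℝ) ≤ H := by exact_mod_cast hWleH
  have hH0 : (0 : ℝ) < H := by linarith
  have hW0 : (0 : ℝ) < W := by linarith
  have hE := EE_pos n d H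
  have hfin : ∀ S : Set (MvPolynomial (Fin (n + 1)) ℤ), S ⊆ (FF n d H : Set _) → S.Finite :=
    fun S hS => fin_FF hS
  have he1 : (1 : ℝ) ≤ (H : ℝ) ^ (ε / 2) := Real.one_le_rpow hHr hε2.le
  have hef : (H : ℝ) ^ (ε / 2) * (W : ℝ) ^ (ε / 2) ≤ (H : ℝ) ^ ε := by
    have h1 : (W : ℝ) ^ (ε / 2) ≤ (H : ℝ) ^ (ε / 2) := Real.rpow_le_rpow hW0.le hWHr hε2.le
    calc (H : ℝ) ^ (ε / 2) * (W : ℝ) ^ (ε / 2) ≤ (H : ℝ) ^ (ε / 2) * (H : ℝ) ^ (ε / 2) :=
          mul_le_mul_of_nonneg_left h1 (by linarith)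
      _ = (H : ℝ) ^ ε := by
          rw [← Real.rpow_add hH0]
          congr 1
          ring
  have he : (H : ℝ) ^ (ε / 2) ≤ (H : ℝ) ^ ε :=
    Real.rpow_le_rpow_of_exponent_le hHr (by linarith)
  set r₁ : ℝ := 1 / (H : ℝ) with hr₁
  set r₂ : ℝ := (W : ℝ) ^ (n + 1) / (H : ℝ) ^ (d - 1) with hr₂
  set r₃ : ℝ := (B : ℝ) ^ 2 / ((H : ℝ) ^ (d + 1) * (W : ℝ) ^ (d - n)) with hr₃
  set r₄ : ℝ := (B : ℝ) ^ 3 / (H : ℝ) ^ (2 * d + 1) with hr₄
  have hr₁0 : 0 ≤ r₁ := one_div_nonneg.2 hH0.le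
  have hr₂0 : 0 ≤ r₂ := div_nonneg (pow_nonneg hW0.le _) (pow_nonneg hH0.le _)
  have hr₃0 : 0 ≤ r₃ :=
    div_nonneg (pow_nonneg (by linarith) _) (mul_nonneg (pow_nonneg hH0.le _) (pow_nonneg hW0.le _))
  have hr₄0 : 0 ≤ r₄ := div_nonneg (pow_nonneg (by linarith) _) (pow_nonneg hH0.le _)
  rcases le_or_gt B (H ^ d) with hBH | hBH
  · -- the main case
    have hsub := bad_sub (n := n) (d := d) (H := H) (B := B) (W := W) hn hH hWH
    have hSAf : SA n d H ⊆ (FF n d H : Set _) := sub_FF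
    have hSDf : ∀ B s, SD n d H B s ⊆ (FF n d H : Set _) := fun B s => sub_FF
    have hSCf : ∀ B s, SC n d H B W s ⊆ (FF n d H : Set _) := fun B s => sub_FF
    have hSBf : SB n d H (CT n) W (n - 1) ⊆ (FF n d H : Set _) := sub_FF
    have hcard : (Bad n d H B W).ncard ≤ (SA n d H).ncard +
        ∑ s ∈ Finset.range n, (SD n d H (CP n * (CT n * W)) s).ncard +
        (SB n d H (CT n) W (n - 1)).ncard + (SC n d H (max B W) W (n - 1)).ncard +
        ∑ s ∈ Finset.range (n - 1), (SD n d H B s).ncard := by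
      have h1 := Set.ncard_le_ncard hsub (hfin _ (Set.union_subset (Set.union_subset
        (Set.union_subset (Set.union_subset hSAf (Set.iUnion₂_subset fun s _ => hSDf _ s)) hSBf)
        (hSCf _ _)) (Set.iUnion₂_subset fun s _ => hSDf _ s)))
      refine h1.trans ?_
      refine (Set.ncard_union_le _ _).trans (Nat.add_le_add ?_
        (Finset.set_ncard_biUnion_le _ _))
      refine (Set.ncard_union_le _ _).trans (Nat.add_le_add ?_ le_rfl)
      refine (Set.ncard_union_le _ _).trans (Nat.add_le_add ?_ le_rfl)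
      exact (Set.ncard_union_le _ _).trans (Nat.add_le_add le_rfl
        (Finset.set_ncard_biUnion_le _ _))
    have hcr : ((Bad n d H B W).ncard : ℝ) ≤ ((SA n d H).ncard : ℝ) +
        ∑ s ∈ Finset.range n, ((SD n d H (CP n * (CT n * W)) s).ncard : ℝ) +
        ((SB n d H (CT n) W (n - 1)).ncard : ℝ) +
        ((SC n d H (max B W) W (n - 1)).ncard : ℝ) +
        ∑ s ∈ Finset.range (n - 1), ((SD n d H B s).ncard : ℝ) := by exact_mod_cast hcard
    have hHd1 : H ^ d ≤ H ^ (d + 1) := Nat.pow_le_pow_right hH (Nat.le_succ d)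
    have hHle : H ≤ H ^ (d + 1) := Nat.le_self_pow (by omega) H
    -- the five contributions
    have b1 : ((SA n d H).ncard : ℝ) ≤ CA * EE n d H * (H : ℝ) ^ (ε / 2) * r₁ :=
      rA hHr (hA H hH)
    have hAD : 0 ≤ CD * EE n d H * (H : ℝ) ^ (ε / 2) :=
      mul_nonneg (mul_nonneg (by linarith) hE.le) (by linarith)
    have b2 : ∀ s ∈ Finset.range n, ((SD n d H (CP n * (CT n * W)) s).ncard : ℝ) ≤
        CD * EE n d H * (H : ℝ) ^ (ε / 2) * (q * r₁) := by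
      intro s hs
      rw [Finset.mem_range] at hs
      have hle : CP n * (CT n * W) ≤ CP n * H := Nat.mul_le_mul_left _ hWH
      have h1 := hD H hH s (n - s) (by omega) (CP n * (CT n * W))
        (Nat.mul_pos hCP (Nat.mul_pos hCT1 hW)) (hle.trans (Nat.mul_le_mul_left _ hHle))
      exact rS (n := n) hHr hCPr hAD (Nat.cast_nonneg _) (by exact_mod_cast hle) (by omega)
        (by omega) (by omega) h1
    have b3 : ((SB n d H (CT n) W (n - 1)).ncard : ℝ) ≤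
        CB * EE n d H * ((H : ℝ) ^ (ε / 2) * (W : ℝ) ^ (ε / 2)) * r₂ :=
      rB hHr (by omega) (hB H hH (n - 1) (by omega) W hW hWleH)
    have b4 : ((SC n d H (max B W) W (n - 1)).ncard : ℝ) ≤
        CC * EE n d H * ((H : ℝ) ^ (ε / 2) * (W : ℝ) ^ (ε / 2)) * (r₃ + r₁) := by
      refine rC hHr hWr ?_ hd ?_ (hC H hH (n - 1) (by omega) (max B W) W hW (le_max_right _ _) ?_)
      · exact mul_nonneg (mul_nonneg (by linarith) hE.le)
          (mul_nonneg (by linarith) (Real.rpow_nonneg hW0.le _))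
      · rcases le_total B W with h | h
        · rw [max_eq_right h]
          nlinarith [sq_nonneg (B : ℝ)]
        · rw [max_eq_left h]
          nlinarith [sq_nonneg (W : ℝ)]
      · rw [one_mul]
        exact max_le (hBH.trans hHd1) (hWleH.trans hHle)
    have b5 : ∀ s ∈ Finset.range (n - 1), ((SD n d H B s).ncard : ℝ) ≤
        CD * EE n d H * (H : ℝ) ^ (ε / 2) * r₄ := by
      intro s hs
      rw [Finset.mem_range] at hs
      have hBc : B ≤ CP n * H ^ (d + 1) :=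
        (hBH.trans hHd1).trans (Nat.le_mul_of_pos_left _ hCP)
      have h1 := hD H hH s (n - s) (by omega) B hB1 hBc
      have e : n - s = (n - s - 2) + 2 := by omega
      rw [e] at h1
      exact rD hHr (by linarith) (by exact_mod_cast hBH) hAD h1
    have s2 := Finset.sum_le_sum b2
    have s5 := Finset.sum_le_sum b5
    rw [Finset.sum_const, Finset.card_range, nsmul_eq_mul] at s2 s5
    -- collect
    have hEe : 0 ≤ EE n d H * (H : ℝ) ^ ε := mul_nonneg hE.le (by linarith)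
    have m : ∀ K e' r : ℝ, 0 ≤ K → 0 ≤ r → e' ≤ (H : ℝ) ^ ε →
        K * EE n d H * e' * r ≤ K * (EE n d H * (H : ℝ) ^ ε) * r := by
      intro K e' r hK hr he'
      have h1 : EE n d H * e' ≤ EE n d H * (H : ℝ) ^ ε := mul_le_mul_of_nonneg_left he' hE.le
      calc K * EE n d H * e' * r = K * (EE n d H * e') * r := by ring
        _ ≤ K * (EE n d H * (H : ℝ) ^ ε) * r :=
            mul_le_mul_of_nonneg_right (mul_le_mul_of_nonneg_left h1 hK) hr
    have c1 := m CA _ r₁ (by linarith) hr₁0 he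
    have c2 := m CD _ (q * r₁) (by linarith) (mul_nonneg (by linarith) hr₁0) he
    have c3 := m CB _ r₂ (by linarith) hr₂0 hef
    have c4 := m CC _ (r₃ + r₁) (by linarith) (add_nonneg hr₃0 hr₁0) hef
    have c5 := m CD _ r₄ (by linarith) hr₄0 he
    have hn1le : ((n - 1 : ℕ) : ℝ) ≤ n := by exact_mod_cast Nat.sub_le n 1
    have t2 : ∑ s ∈ Finset.range n, ((SD n d H (CP n * (CT n * W)) s).ncard : ℝ) ≤
        n * (CD * (EE n d H * (H : ℝ) ^ ε) * (q * r₁)) :=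
      s2.trans (mul_le_mul_of_nonneg_left c2 (by linarith))
    have hC5 : 0 ≤ CD * (EE n d H * (H : ℝ) ^ ε) * r₄ :=
      mul_nonneg (mul_nonneg (by linarith) hEe) hr₄0
    have t5 : ∑ s ∈ Finset.range (n - 1), ((SD n d H B s).ncard : ℝ) ≤
        n * (CD * (EE n d H * (H : ℝ) ^ ε) * r₄) :=
      s5.trans ((mul_le_mul_of_nonneg_left c5 (Nat.cast_nonneg _)).trans
        (mul_le_mul_of_nonneg_right hn1le hC5))
    have hfinal : ∀ G : ℝ, 0 ≤ G →
        CA * G * r₁ + n * (CD * G * (q * r₁)) + CB * G * r₂ + CC * G * (r₃ + r₁) +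
          n * (CD * G * r₄) ≤
        (CA + n * (CD * q) + CB + CC + n * CD) * G * (r₁ + r₂ + r₃ + r₄) := by
      intro G hG
      have p0 : 0 ≤ CA := by linarith
      have p1 : 0 ≤ n * (CD * q) := mul_nonneg (by linarith) (mul_nonneg (by linarith) (by linarith))
      have p2 : 0 ≤ CB := by linarith
      have p3 : 0 ≤ CC := by linarith
      have p4 : 0 ≤ n * CD := mul_nonneg (by linarith) (by linarith)
      have e1 : (CA + n * (CD * q) + CB + CC + n * CD) * G * (r₁ + r₂ + r₃ + r₄) -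
          (CA * G * r₁ + n * (CD * G * (q * r₁)) + CB * G * r₂ + CC * G * (r₃ + r₁) +
            n * (CD * G * r₄)) =
          G * (CA * (r₂ + r₃ + r₄) + n * (CD * q) * (r₂ + r₃ + r₄) + CB * (r₁ + r₃ + r₄) +
            CC * (r₂ + r₄) + n * CD * (r₁ + r₂ + r₃)) := by ring
      have e2 : 0 ≤ G * (CA * (r₂ + r₃ + r₄) + n * (CD * q) * (r₂ + r₃ + r₄) +
          CB * (r₁ + r₃ + r₄) + CC * (r₂ + r₄) + n * CD * (r₁ + r₂ + r₃)) := by
        refine mul_nonneg hG ?_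
        have q1 := mul_nonneg p0 (by linarith : 0 ≤ r₂ + r₃ + r₄)
        have q2 := mul_nonneg p1 (by linarith : 0 ≤ r₂ + r₃ + r₄)
        have q3 := mul_nonneg p2 (by linarith : 0 ≤ r₁ + r₃ + r₄)
        have q4 := mul_nonneg p3 (by linarith : 0 ≤ r₂ + r₄)
        have q5 := mul_nonneg p4 (by linarith : 0 ≤ r₁ + r₂ + r₃)
        linarith
      linarith
    calc ((Bad n d H B W).ncard : ℝ)
        ≤ CA * (EE n d H * (H : ℝ) ^ ε) * r₁ + n * (CD * (EE n d H * (H : ℝ) ^ ε) * (q * r₁)) +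
          CB * (EE n d H * (H : ℝ) ^ ε) * r₂ + CC * (EE n d H * (H : ℝ) ^ ε) * (r₃ + r₁) +
          n * (CD * (EE n d H * (H : ℝ) ^ ε) * r₄) := by
          linarith
      _ ≤ (CA + n * (CD * q) + CB + CC + n * CD) * (EE n d H * (H : ℝ) ^ ε) *
          (r₁ + r₂ + r₃ + r₄) := hfinal _ hEe
      _ = _ := by ring
  · -- the trivial case
    have h1 : (Bad n d H B W).ncard ≤ (2 * H + 1) ^ NN n d := by
      rw [← card_FF, ← Set.ncard_coe_finset]
      exact Set.ncard_le_ncard sub_FF (Finset.finite_toSet _)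
    have h2 : ((Bad n d H B W).ncard : ℝ) ≤ EE n d H := by
      unfold EE
      exact_mod_cast h1
    have h3 : 1 ≤ r₄ := by
      rw [hr₄, one_le_div (pow_pos hH0 _)]
      have h4 : (H : ℝ) ^ d ≤ B := by exact_mod_cast hBH.le
      calc (H : ℝ) ^ (2 * d + 1) ≤ (H : ℝ) ^ (d * 3) := pow_le_pow_right₀ hHr (by omega)
        _ = ((H : ℝ) ^ d) ^ 3 := pow_mul _ _ _
        _ ≤ (B : ℝ) ^ 3 := pow_le_pow_left₀ (pow_nonneg hH0.le _) h4 3
    have h5 : (1 : ℝ) ≤ (H : ℝ) ^ ε := Real.one_le_rpow hHr hε.le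
    have h6 : 1 ≤ CA + n * (CD * q) + CB + CC + n * CD := by
      nlinarith [mul_nonneg (by linarith : (0 : ℝ) ≤ n) (by nlinarith : (0 : ℝ) ≤ CD * q)]
    refine h2.trans ?_
    have h7 : 1 ≤ r₁ + r₂ + r₃ + r₄ := by linarith
    calc EE n d H = 1 * EE n d H * 1 * 1 := by ring
      _ ≤ (CA + n * (CD * q) + CB + CC + n * CD) * EE n d H * (H : ℝ) ^ ε *
          (r₁ + r₂ + r₃ + r₄) := by
          refine mul_le_mul (mul_le_mul (mul_le_mul_of_nonneg_right h6 hE.le) h5 zero_le_one ?_)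
            h7 zero_le_one ?_
          · exact mul_nonneg (by linarith) hE.le
          · exact mul_nonneg (mul_nonneg (by linarith) hE.le) (by linarith)

end Pool.Agent.H31.RZ
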