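import Pool.Agent.H31.RZ.Basic

/-!
# Random hypersurfaces (MP_6e60ff_nt): the forms of bounded height
-/

namespace Pool.Agent.H31.RZ

open Finset MvPolynomial

/-- the exponents of the monomials of degree `d` in `n + 1` variables -/
noncomputable def Mon (n d : ℕ) : Finset (Fin (n + 1) →₀ ℕ) := Finset.univ.finsuppAntidiag d

theorem mem_Mon {n d : ℕ} {μ : Fin (n + 1) →₀ ℕ} : μ ∈ Mon n d ↔ μ.degree = d := by
  rw [Mon, Finset.mem_finsuppAntidiag]
  constructor
  · rintro ⟨h, -⟩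
    rw [← h, Finsupp.degree_eq_sum]
  · intro h
    refine ⟨?_, Finset.subset_univ _⟩
    rw [← h, Finsupp.degree_eq_sum]

/-- the form with given coefficients -/
noncomputable def pol {n d : ℕ} (c : Mon n d → ℤ) : MvPolynomial (Fin (n + 1)) ℤ :=
  ∑ μ, monomial μ.1 (c μ)

theorem coeff_pol {n d : ℕ} (c : Mon n d → ℤ) (ν : Mon n d) : (pol c).coeff ν.1 = c ν := by
  classical
  rw [pol, coeff_sum, Finset.sum_eq_single ν]
  · rw [coeff_monomial, if_pos rfl]
  · intro μ _ hμ
    rw [coeff_monomial, if_neg]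
    intro h
    exact hμ (Subtype.ext h)
  · intro h
    exact absurd (Finset.mem_univ ν) h

theorem pol_hom {n d : ℕ} (c : Mon n d → ℤ) : (pol c).IsHomogeneous d :=
  IsHomogeneous.sum _ _ _ fun μ _ => isHomogeneous_monomial _ (mem_Mon.1 μ.2)

theorem pol_inj (n d : ℕ) : Function.Injective (pol (n := n) (d := d)) := by
  intro c c' h
  funext ν
  rw [← coeff_pol c ν, h, coeff_pol]

/-- the forms of degree `d` in `n + 1` variables with integral coefficients of absolute value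
at most `H` -/
noncomputable def FF (n d H : ℕ) : Finset (MvPolynomial (Fin (n + 1)) ℤ) :=
  (Fintype.piFinset fun _ : Mon n d => Finset.Icc (-(H : ℤ)) H).map ⟨pol, pol_inj n d⟩

theorem mem_FF {n d H : ℕ} {f : MvPolynomial (Fin (n + 1)) ℤ} :
    f ∈ FF n d H ↔ f.IsHomogeneous d ∧ ∀ μ, |f.coeff μ| ≤ H := by
  rw [FF, Finset.mem_map]
  constructor
  · rintro ⟨c, hc, rfl⟩
    refine ⟨pol_hom c, fun μ => ?_⟩
    by_cases hμ : μ ∈ Mon n d
    · have h1 := coeff_pol c ⟨μ, hμ⟩
      simp only [Function.Embedding.coeFn_mk] at h1 ⊢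
      rw [h1, abs_le]
      exact Finset.mem_Icc.1 (Fintype.mem_piFinset.1 hc ⟨μ, hμ⟩)
    · simp only [Function.Embedding.coeFn_mk]
      rw [(pol_hom c).coeff_eq_zero fun h => hμ (mem_Mon.2 h), abs_zero]
      positivity
  · rintro ⟨hf, hc⟩
    refine ⟨fun μ => f.coeff μ.1, ?_, ?_⟩
    · rw [Fintype.mem_piFinset]
      intro μ
      rw [Finset.mem_Icc, ← abs_le]
      exact hc μ.1
    · simp only [Function.Embedding.coeFn_mk]
      ext μ
      by_cases hμ : μ ∈ Mon n d
      · exact coeff_pol _ ⟨μ, hμ⟩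
      · rw [(pol_hom _).coeff_eq_zero fun h => hμ (mem_Mon.2 h),
          hf.coeff_eq_zero fun h => hμ (mem_Mon.2 h)]

/-- the number of monomials -/
noncomputable def NN (n d : ℕ) : ℕ := #(Mon n d)

theorem card_FF (n d H : ℕ) : #(FF n d H) = (2 * H + 1) ^ NN n d := by
  rw [FF, Finset.card_map, Fintype.card_piFinset]
  simp only [Int.card_Icc, Finset.prod_const, Finset.card_univ, Fintype.card_coe, NN]
  congr 1
  omega

theorem abs_eval_le {n d H : ℕ} {f : MvPolynomial (Fin (n + 1)) ℤ} (hf : f ∈ FF n d H)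
    (x : Fin (n + 1) → ℤ) : |eval x f| ≤ NN n d * (H * (nm x) ^ d) := by
  obtain ⟨hh, hc⟩ := mem_FF.1 hf
  have h1 : f.support ⊆ Mon n d := by
    intro μ hμ
    rw [mem_Mon]
    by_contra h
    exact mem_support_iff.1 hμ (hh.coeff_eq_zero h)
  rw [eval_eq]
  refine (Finset.abs_sum_le_sum_abs _ _).trans ?_
  have h2 : ∀ μ ∈ f.support, |f.coeff μ * ∏ i ∈ (Finset.univ : Finset (Fin (n + 1))), x i ^ μ i| ≤
      (H : ℤ) * (nm x : ℤ) ^ d := by
    intro μ hμ
    have hd : μ.degree = d := mem_Mon.1 (h1 hμ)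
    rw [abs_mul, Finset.abs_prod]
    refine mul_le_mul (hc μ) ?_ (Finset.prod_nonneg fun i _ => abs_nonneg _) (by positivity)
    calc ∏ i, |x i ^ μ i| ≤ ∏ i, (nm x : ℤ) ^ μ i := by
          refine Finset.prod_le_prod (fun i _ => abs_nonneg _) fun i _ => ?_
          rw [abs_pow]
          exact pow_le_pow_left₀ (abs_nonneg _) (abs_le_nm x i) _
      _ = (nm x : ℤ) ^ d := by rw [Finset.prod_pow_eq_pow_sum, ← hd, Finsupp.degree_eq_sum]
  have h3 : ∀ μ : Fin (n + 1) →₀ ℕ, ∏ i ∈ μ.support, x i ^ μ i = ∏ i, x i ^ μ i := by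
    intro μ
    refine Finset.prod_subset (Finset.subset_univ _) fun i _ hi => ?_
    rw [Finsupp.notMem_support_iff.1 hi, pow_zero]
  simp only [h3]
  refine (Finset.sum_le_sum h2).trans ?_
  rw [Finset.sum_const, nsmul_eq_mul]
  refine mul_le_mul_of_nonneg_right ?_ (by positivity)
  exact_mod_cast Finset.card_le_card h1

theorem eval_smul' {n d : ℕ} {f : MvPolynomial (Fin (n + 1)) ℤ} (hf : f.IsHomogeneous d) (t : ℤ)
    (x : Fin (n + 1) → ℤ) : eval (t • x) f = t ^ d * eval x f := by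
  rw [eval_eq, eval_eq, Finset.mul_sum]
  refine Finset.sum_congr rfl fun μ hμ => ?_
  have hd : μ.degree = d := by
    by_contra h
    exact mem_support_iff.1 hμ (hf.coeff_eq_zero h)
  simp only [Pi.smul_apply, smul_eq_mul, mul_pow, Finset.prod_mul_distrib]
  have h1 : ∏ i ∈ μ.support, t ^ μ i = t ^ d := by
    rw [Finset.prod_pow_eq_pow_sum]
    congr 1
  rw [h1]
  ring

end Pool.Agent.H31.RZ
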