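import Pool.Agent.H31.RZ.Form
import Pool.Agent.H31.RZ.Unit

/-!
# Random hypersurfaces (MP_6e60ff_nt): the number of forms which vanish at a given point
-/

namespace Pool.Agent.H31.RZ

open Finset MvPolynomial Matrix

theorem coeff_le_eval_one {σ : Type*} (p : MvPolynomial σ ℕ) (μ : σ →₀ ℕ) :
    p.coeff μ ≤ eval (fun _ => 1) p := by
  classical
  rw [eval_eq]
  simp only [one_pow, Finset.prod_const_one, mul_one]
  by_cases hμ : μ ∈ p.support
  · exact Finset.single_le_sum (f := fun μ => p.coeff μ) (fun _ _ => Nat.zero_le _) hμ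
  · rw [notMem_support_iff.1 hμ]
    exact Nat.zero_le _

/-- linear forms -/
noncomputable def lin {n : ℕ} (b : Fin (n + 1) → ℕ) : MvPolynomial (Fin (n + 1)) ℕ :=
  ∑ i, C (b i) * X i

/-- the test forms -/
noncomputable def PP {n : ℕ} (k : Fin (n + 1)) (v : Fin (n + 1) → ℕ) (c : ℕ)
    (l : ℕ → Fin (n + 1) → ℕ) : ℕ → MvPolynomial (Fin (n + 1)) ℕ
  | 0 => C c
  | e + 1 => X k * PP k v c l e + lin v ^ e * lin (l e)

theorem lin_hom {n : ℕ} (b : Fin (n + 1) → ℕ) : (lin b).IsHomogeneous 1 :=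
  IsHomogeneous.sum _ _ _ fun _ _ => isHomogeneous_C_mul_X _ _

theorem PP_hom {n : ℕ} (k : Fin (n + 1)) (v : Fin (n + 1) → ℕ) (c : ℕ)
    (l : ℕ → Fin (n + 1) → ℕ) (e : ℕ) : (PP k v c l e).IsHomogeneous e := by
  induction e with
  | zero => exact isHomogeneous_C _ _
  | succ e ih =>
    have h1 := (isHomogeneous_X ℕ k).mul ih
    have h2 := ((lin_hom v).pow e).mul (lin_hom (l e))
    rw [add_comm 1 e] at h1
    rw [one_mul] at h2
    exact h1.add h2

theorem eval_lin {n : ℕ} (b : Fin (n + 1) → ℕ) : eval (fun _ => 1) (lin b) = ∑ i, b i := by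
  simp [lin]

theorem aeval_lin {n : ℕ} (b : Fin (n + 1) → ℕ) (x : Fin (n + 1) → ℤ) :
    aeval x (lin b) = ∑ i, (b i : ℤ) * x i := by
  simp [lin]

theorem PP_le {n : ℕ} {H K : ℕ} (hK : 1 ≤ K) (k : Fin (n + 1)) {v : Fin (n + 1) → ℕ} {c : ℕ}
    {l : ℕ → Fin (n + 1) → ℕ} (hv : ∀ i, v i ≤ K) (hc : c ≤ H) (hl : ∀ e i, l e i ≤ H) (e : ℕ) :
    eval (fun _ => 1) (PP k v c l e) ≤ (e + 1) * ((n + 1) * K) ^ e * ((n + 1) * H) := by
  have h1 : ∀ b : Fin (n + 1) → ℕ, ∀ B : ℕ, (∀ i, b i ≤ B) → ∑ i, b i ≤ (n + 1) * B := by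
    intro b B hb
    refine (Finset.sum_le_sum fun i _ => hb i).trans ?_
    rw [Finset.sum_const, Finset.card_univ, Fintype.card_fin, smul_eq_mul]
  induction e with
  | zero =>
    simp only [PP, eval_C, zero_add, pow_zero, one_mul]
    exact hc.trans (Nat.le_mul_of_pos_left H (by positivity))
  | succ e ih =>
    simp only [PP, map_add, map_mul, map_pow, eval_X, one_mul, eval_lin]
    have h2 : (∑ i, v i) ^ e * ∑ i, l e i ≤ ((n + 1) * K) ^ e * ((n + 1) * H) :=
      Nat.mul_le_mul (Nat.pow_le_pow_left (h1 v K hv) e) (h1 (l e) H (hl e))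
    have h3 : ((n + 1) * K) ^ e ≤ ((n + 1) * K) ^ (e + 1) :=
      Nat.pow_le_pow_right (Nat.mul_pos (by positivity) hK) (Nat.le_succ e)
    calc eval (fun _ => 1) (PP k v c l e) + (∑ i, v i) ^ e * ∑ i, l e i
        ≤ (e + 1) * ((n + 1) * K) ^ e * ((n + 1) * H) + ((n + 1) * K) ^ e * ((n + 1) * H) :=
          Nat.add_le_add ih h2
      _ = (e + 1 + 1) * ((n + 1) * K) ^ e * ((n + 1) * H) := by ring
      _ ≤ (e + 1 + 1) * ((n + 1) * K) ^ (e + 1) * ((n + 1) * H) :=
          Nat.mul_le_mul_right _ (Nat.mul_le_mul_left _ h3)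

theorem PP_val {n : ℕ} {k : Fin (n + 1)} {v : Fin (n + 1) → ℕ} {x : Fin (n + 1) → ℤ}
    (hk : x k ≠ 0) (hv : IsCoprime (∑ i, (v i : ℤ) * x i) (x k)) {c c' : ℕ}
    {l l' : ℕ → Fin (n + 1) → ℕ} (e : ℕ)
    (hl : ∀ j < e, (∑ i, (l j i : ℤ) * x i) ≡ (∑ i, (l' j i : ℤ) * x i) [ZMOD x k] → l j = l' j)
    (h : aeval x (PP k v c l e) = aeval x (PP k v c' l' e)) : c = c' ∧ ∀ j < e, l j = l' j := by
  induction e with
  | zero =>
    rw [PP, PP, aeval_C, aeval_C] at h
    have h1 : (c : ℤ) = c' := by simpa using h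
    exact ⟨by exact_mod_cast h1, fun j hj => absurd hj (Nat.not_lt_zero j)⟩
  | succ e ih =>
    simp only [PP, map_add, map_mul, map_pow, aeval_X, aeval_lin] at h
    have h1 : x k ∣ (∑ i, (v i : ℤ) * x i) ^ e *
        (∑ i, (l' e i : ℤ) * x i - ∑ i, (l e i : ℤ) * x i) := by
      refine ⟨aeval x (PP k v c l e) - aeval x (PP k v c' l' e), ?_⟩
      rw [mul_sub, mul_sub]
      linarith
    have h2 : x k ∣ ∑ i, (l' e i : ℤ) * x i - ∑ i, (l e i : ℤ) * x i :=
      (IsCoprime.symm (IsCoprime.pow_left (m := e) hv)).dvd_of_dvd_mul_left h1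
    have h3 : l e = l' e := hl e (Nat.lt_succ_self e) (Int.modEq_iff_dvd.2 h2)
    rw [h3] at h
    have h4 : aeval x (PP k v c l e) = aeval x (PP k v c' l' e) :=
      mul_left_cancel₀ hk (add_right_cancel h)
    obtain ⟨h5, h6⟩ := ih (fun j hj => hl j (hj.trans (Nat.lt_succ_self e))) h4
    refine ⟨h5, fun j hj => ?_⟩
    rcases Nat.lt_succ_iff_lt_or_eq.1 hj with h7 | h7
    · exact h6 j h7
    · rw [h7]
      exact h3

/-- the vectors of the box of radius `n H` orthogonal to `x` -/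
noncomputable def MM (n H : ℕ) (x : Fin (n + 1) → ℤ) : Finset (Fin (n + 1) → ℤ) :=
  (bx (n + 1) (n * H)).filter fun y => y ⬝ᵥ x = 0

/-- the coefficient vectors of the linear forms used as digits -/
noncomputable def BB (n H : ℕ) (k : Fin (n + 1)) : Finset (Fin (n + 1) → ℕ) :=
  Fintype.piFinset fun i => if i = k then {0} else Finset.range (H + 1)

theorem mem_BB {n H : ℕ} {k : Fin (n + 1)} {b : Fin (n + 1) → ℕ} :
    b ∈ BB n H k ↔ b k = 0 ∧ ∀ i, b i ≤ H := by
  rw [BB, Fintype.mem_piFinset]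
  constructor
  · intro h
    have h0 := h k
    rw [if_pos rfl, Finset.mem_singleton] at h0
    refine ⟨h0, fun i => ?_⟩
    by_cases hi : i = k
    · rw [hi, h0]
      exact Nat.zero_le _
    · have h1 := h i
      rw [if_neg hi, Finset.mem_range] at h1
      omega
  · rintro ⟨h0, h1⟩ i
    by_cases hi : i = k
    · rw [if_pos hi, hi, h0]
      exact Finset.mem_singleton_self 0
    · rw [if_neg hi, Finset.mem_range]
      have := h1 i
      omega

theorem card_BB (n H : ℕ) (k : Fin (n + 1)) : #(BB n H k) = (H + 1) ^ n := by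
  rw [BB, Fintype.card_piFinset, ← Finset.mul_prod_erase _ _ (Finset.mem_univ k), if_pos rfl,
    Finset.card_singleton, one_mul, Finset.prod_congr rfl (g := fun _ => H + 1), Finset.prod_const,
    Finset.card_erase_of_mem (Finset.mem_univ k), Finset.card_univ, Fintype.card_fin]
  · rfl
  · intro i hi
    rw [if_neg (Finset.ne_of_mem_erase hi), Finset.card_range]

theorem card_BB_le {n H : ℕ} (hn : 1 ≤ n) {k : Fin (n + 1)} {x : Fin (n + 1) → ℤ}
    (hk : x k ≠ 0) (hmax : ∀ i, |x i| ≤ |x k|) :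
    (H + 1) ^ n ≤ #(MM n H x) * #((BB n H k).image fun b => (∑ i, (b i : ℤ) * x i) % x k) := by
  classical
  rw [← card_BB n H k]
  refine Finset.card_le_mul_card_image _ _ fun t _ => ?_
  by_cases hne : ((BB n H k).filter fun b => (∑ i, (b i : ℤ) * x i) % x k = t).Nonempty
  · obtain ⟨b₀, hb₀⟩ := hne
    rw [Finset.mem_filter, mem_BB] at hb₀
    obtain ⟨⟨hb0, hbH⟩, hbt⟩ := hb₀
    refine Finset.card_le_card_of_injOn (fun b i => if i = k then
      -(∑ j, ((b j : ℤ) - b₀ j) * x j) / x k else (b i : ℤ) - b₀ i) ?_ ?_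
    · intro b hb
      rw [Finset.mem_coe, Finset.mem_filter, mem_BB] at hb
      obtain ⟨⟨hk0, hkH⟩, hkt⟩ := hb
      have hdiff : ∑ j, ((b j : ℤ) - b₀ j) * x j =
          ∑ i, (b i : ℤ) * x i - ∑ i, (b₀ i : ℤ) * x i := by
        rw [← Finset.sum_sub_distrib]
        exact Finset.sum_congr rfl fun i _ => by ring
      have hdvd : x k ∣ ∑ j, ((b j : ℤ) - b₀ j) * x j := by
        rw [hdiff]
        exact Int.ModEq.dvd (hbt.trans hkt.symm)
      have hbd : ∀ j, |(b j : ℤ) - b₀ j| ≤ H := by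
        intro j
        have h1 := hkH j
        have h2 := hbH j
        rw [abs_le]
        constructor <;> omega
      have hsumabs : |∑ j, ((b j : ℤ) - b₀ j) * x j| ≤ (n * H : ℕ) * |x k| := by
        rw [← Finset.add_sum_erase _ _ (Finset.mem_univ k), hk0, hb0]
        simp only [Nat.cast_zero, sub_self, zero_mul, zero_add]
        refine (Finset.abs_sum_le_sum_abs _ _).trans ?_
        have h1 : ∀ j ∈ Finset.univ.erase k, |((b j : ℤ) - b₀ j) * x j| ≤ H * |x k| := by
          intro j _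
          rw [abs_mul]
          exact mul_le_mul (hbd j) (hmax j) (abs_nonneg _) (by positivity)
        refine (Finset.sum_le_sum h1).trans ?_
        rw [Finset.sum_const, Finset.card_erase_of_mem (Finset.mem_univ k), Finset.card_univ,
          Fintype.card_fin, nsmul_eq_mul]
        push_cast
        rw [mul_assoc]
      rw [Finset.mem_coe, MM, Finset.mem_filter, mem_bx, nm_le_iff]
      refine ⟨fun i => ?_, ?_⟩
      · simp only
        split_ifs with hi
        · obtain ⟨q, hq⟩ := hdvd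
          rw [hq, ← mul_neg, Int.mul_ediv_cancel_left _ hk, abs_neg]
          rw [hq, abs_mul, mul_comm] at hsumabs
          exact le_of_mul_le_mul_right hsumabs (abs_pos.2 hk)
        · refine (hbd i).trans ?_
          exact_mod_cast Nat.le_mul_of_pos_left H hn
      · unfold dotProduct
        beta_reduce
        rw [← Finset.add_sum_erase _ _ (Finset.mem_univ k), if_pos rfl,
          Int.ediv_mul_cancel ((dvd_neg).2 hdvd)]
        have h1 : ∑ i ∈ Finset.univ.erase k, (if i = k then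
            -(∑ j, ((b j : ℤ) - b₀ j) * x j) / x k else (b i : ℤ) - b₀ i) * x i =
            ∑ i ∈ Finset.univ.erase k, ((b i : ℤ) - b₀ i) * x i := by
          refine Finset.sum_congr rfl fun i hi => ?_
          rw [if_neg (Finset.ne_of_mem_erase hi)]
        rw [h1, ← Finset.add_sum_erase _ _ (Finset.mem_univ k), hk0, hb0]
        simp
    · intro b hb b' hb' h
      rw [Finset.mem_coe, Finset.mem_filter, mem_BB] at hb hb'
      funext i
      by_cases hi : i = k
      · rw [hi, hb.1.1, hb'.1.1]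
      · have h1 := congrFun h i
        simp only [if_neg hi] at h1
        have h2 : (b i : ℤ) = b' i := by linarith
        exact_mod_cast h2
  · rw [Finset.not_nonempty_iff_eq_empty] at hne
    rw [hne]
    exact Nat.zero_le _

/-- the forms which vanish at a given point -/
theorem val_bound {n d H : ℕ} (hn : 1 ≤ n) {x : Fin (n + 1) → ℤ} (hx : Prim x)
    {k : Fin (n + 1)} (hk : x k ≠ 0) (hmax : ∀ i, |x i| ≤ |x k|) :
    #{f ∈ FF n d H | eval x f = 0} * (H + 1) ^ (1 + n * d) ≤
      ((2 * H + 1) * ((d + 2) * (n + 1) ^ (d + 1) *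
        (2 ^ #(x k).natAbs.primeFactors) ^ d)) ^ NN n d * #(MM n H x) ^ d := by
  classical
  obtain ⟨v, -, hv, hcop⟩ := unit_vec x hx k hk
  set K : ℕ := 2 ^ #(x k).natAbs.primeFactors with hK
  have hK1 : 1 ≤ K := Nat.one_le_two_pow
  set R := (BB n H k).image fun b => (∑ i, (b i : ℤ) * x i) % x k with hR
  have hch : ∀ t : R, ∃ b ∈ BB n H k, (∑ i, (b i : ℤ) * x i) % x k = t := by
    intro t
    obtain ⟨b, hb, hbt⟩ := Finset.mem_image.1 t.2
    exact ⟨b, hb, hbt⟩
  choose β hβ hβt using hch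
  set H' : ℕ := (d + 1) * ((n + 1) * K) ^ d * ((n + 1) * H) with hH'
  let L : (Fin d → R) → ℕ → Fin (n + 1) → ℕ := fun t e =>
    if h : e < d then β (t ⟨e, h⟩) else fun _ => 0
  let Q : ℕ → (Fin d → R) → MvPolynomial (Fin (n + 1)) ℕ := fun c t => PP k v c (L t) d
  have hQ : ∀ c ≤ H, ∀ t, ∀ μ, (Q c t).coeff μ ≤ H' := by
    intro c hc t μ
    refine (coeff_le_eval_one _ _).trans (PP_le hK1 k (fun i => (hv i).le) hc ?_ d)
    intro e i
    simp only [L]
    split_ifs with he
    · exact (mem_BB.1 (hβ _)).2 i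
    · exact Nat.zero_le _
  have hmain : #({f ∈ FF n d H | eval x f = 0} ×ˢ (Finset.range (H + 1) ×ˢ
      (Finset.univ : Finset (Fin d → R)))) ≤ #(FF n d (H + H')) := by
    refine Finset.card_le_card_of_injOn
      (fun p => p.1 + MvPolynomial.map (Nat.castRingHom ℤ) (Q p.2.1 p.2.2)) ?_ ?_
    · rintro ⟨f, c, t⟩ hp
      rw [Finset.mem_coe, Finset.mem_product, Finset.mem_filter, mem_FF, Finset.mem_product,
        Finset.mem_range] at hp
      obtain ⟨⟨⟨hf1, hf2⟩, -⟩, hc, -⟩ := hp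
      simp only at hf1 hf2 hc
      rw [Finset.mem_coe, mem_FF]
      refine ⟨hf1.add ((PP_hom k v c (L t) d).map _), fun μ => ?_⟩
      simp only [coeff_add, coeff_map]
      refine (abs_add_le _ _).trans ?_
      push_cast
      refine add_le_add (hf2 μ) ?_
      rw [abs_of_nonneg (by positivity)]
      exact_mod_cast hQ c (by omega) t μ
    · rintro ⟨f, c, t⟩ hp ⟨f', c', t'⟩ hp' h
      rw [Finset.mem_coe, Finset.mem_product, Finset.mem_filter] at hp hp'
      simp only at h hp hp'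
      have h1 := congrArg (eval x) h
      simp only [map_add, hp.1.2, hp'.1.2, zero_add, eval_map] at h1
      have h2 : aeval x (PP k v c (L t) d) = aeval x (PP k v c' (L t') d) := by
        rw [aeval_def, aeval_def]
        exact h1
      obtain ⟨h3, h4⟩ := PP_val hk hcop d (by
        intro j hj hmod
        have e1 : L t j = β (t ⟨j, hj⟩) := dif_pos hj
        have e2 : L t' j = β (t' ⟨j, hj⟩) := dif_pos hj
        rw [e1, e2] at hmod ⊢
        have h5 : t ⟨j, hj⟩ = t' ⟨j, hj⟩ := by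
          apply Subtype.ext
          rw [← hβt, ← hβt]
          exact hmod
        rw [h5]) h2
      have h5 : t = t' := by
        funext j
        have h6 := h4 j j.2
        have e1 : L t j = β (t j) := dif_pos j.2
        have e2 : L t' j = β (t' j) := dif_pos j.2
        rw [e1, e2] at h6
        apply Subtype.ext
        rw [← hβt, ← hβt, h6]
      subst h3 h5
      have h6 : f = f' := add_right_cancel h
      rw [h6]
  rw [Finset.card_product, Finset.card_product, Finset.card_range, Finset.card_univ,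
    Fintype.card_fun, Fintype.card_fin, Fintype.card_coe, card_FF] at hmain
  have hBR := card_BB_le (H := H) hn hk hmax
  rw [← hR] at hBR
  have hH2 : 2 * (H + H') + 1 ≤ (2 * H + 1) * ((d + 2) * (n + 1) ^ (d + 1) * K ^ d) := by
    have h1 : 1 ≤ (n + 1) ^ (d + 1) * K ^ d := Nat.mul_pos (by positivity) (by positivity)
    have h2 : H' = H * ((d + 1) * ((n + 1) ^ (d + 1) * K ^ d)) := by
      rw [hH', mul_pow, pow_succ (n + 1) d]
      ring
    have h3 : (d + 2) * (n + 1) ^ (d + 1) * K ^ d =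
        (n + 1) ^ (d + 1) * K ^ d + (d + 1) * ((n + 1) ^ (d + 1) * K ^ d) := by ring
    rw [h3, h2]
    generalize (n + 1) ^ (d + 1) * K ^ d = z at h1 ⊢
    nlinarith
  calc #{f ∈ FF n d H | eval x f = 0} * (H + 1) ^ (1 + n * d)
      = #{f ∈ FF n d H | eval x f = 0} * ((H + 1) * ((H + 1) ^ n) ^ d) := by
        rw [pow_add, pow_one, pow_mul]
    _ ≤ #{f ∈ FF n d H | eval x f = 0} * ((H + 1) * (#(MM n H x) * #R) ^ d) :=
        Nat.mul_le_mul_left _ (Nat.mul_le_mul_left _ (Nat.pow_le_pow_left hBR d))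
    _ = #{f ∈ FF n d H | eval x f = 0} * ((H + 1) * #R ^ d) * #(MM n H x) ^ d := by
        rw [mul_pow]
        ring
    _ ≤ (2 * (H + H') + 1) ^ NN n d * #(MM n H x) ^ d := Nat.mul_le_mul_right _ hmain
    _ ≤ _ := Nat.mul_le_mul_right _ (Nat.pow_le_pow_left hH2 _)

end Pool.Agent.H31.RZ
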